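import Mathlib

set_option autoImplicit false

/-!
Sums of two squares and boundedly many powers of `2`.
-/

namespace Pool.Agent.TwoSqPow

/-- `N` is `k`-representable: `N = x² + y² + 2^{a₁} + ... + 2^{a_j}` for some integers `x`, `y`,
some `j ≤ k` and some exponents `a_i ≥ 0` (not necessarily distinct). -/
def Representable (k N : ℕ) : Prop :=
  ∃ (x y : ℤ) (l : List ℕ), l.length ≤ k ∧
    (N : ℤ) = x ^ 2 + y ^ 2 + (l.map (fun a => (2 : ℤ) ^ a)).sum

end Pool.Agent.TwoSqPow
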