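import Mathlib

set_option autoImplicit false

/-!
An elementary lower bound for the number of primes `p ≤ n`, `p ≡ 3 mod 4`.
-/

namespace Pool.Agent.TwoSqPow

open Finset ArithmeticFunction

/-- the character mod `4`, real valued -/
noncomputable def chi : ArithmeticFunction ℝ := ⟨fun n => ((ZMod.χ₄ (n : ZMod 4) : ℤ) : ℝ), by simp⟩

/-- `χ Λ` -/
noncomputable def chiL : ArithmeticFunction ℝ := ⟨fun n => chi n * Λ n, by simp⟩

lemma chi_eq (n : ℕ) : chi n = if n % 2 = 0 then 0 else if n % 4 = 1 then 1 else -1 := by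
  have h : chi n = ((ZMod.χ₄ (n : ZMod 4) : ℤ) : ℝ) := rfl
  rw [h, ZMod.χ₄_nat_eq_if_mod_four]
  split_ifs <;> simp

lemma chi_mul (a b : ℕ) : chi (a * b) = chi a * chi b := by
  have h : ∀ n, chi n = ((ZMod.χ₄ (n : ZMod 4) : ℤ) : ℝ) := fun n => rfl
  rw [h, h, h]
  push_cast
  rw [map_mul]
  push_cast
  rfl

lemma chiL_apply (n : ℕ) : chiL n = chi n * Λ n := rfl

lemma chiL_mul_chi (n : ℕ) : (chiL * chi) n = chi n * Real.log n := by
  rw [mul_apply]
  have h : ∀ x ∈ n.divisorsAntidiagonal, chiL x.1 * chi x.2 = chi n * Λ x.1 := by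
    intro x hx
    rw [Nat.mem_divisorsAntidiagonal] at hx
    rw [← hx.1, chi_mul, chiL_apply]
    ring
  rw [sum_congr rfl h, ← mul_sum, Nat.sum_divisorsAntidiagonal (f := fun i _ => Λ i),
    vonMangoldt_sum]

/-- partial sums of the character -/
noncomputable def S (t : ℕ) : ℝ := ∑ m ∈ Ioc 0 t, chi m

lemma S_eq (t : ℕ) : S t = if t % 4 = 1 ∨ t % 4 = 2 then 1 else 0 := by
  induction t with
  | zero => simp [S]
  | succ t ih =>
    have h : S (t + 1) = S t + chi (t + 1) := by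
      unfold S
      rw [sum_Ioc_succ_top (by omega)]
    rw [h, ih, chi_eq]
    have hm : t % 4 = 0 ∨ t % 4 = 1 ∨ t % 4 = 2 ∨ t % 4 = 3 := by omega
    rcases hm with hm | hm | hm | hm
    · have h1 : (t + 1) % 4 = 1 := by omega
      have h2 : (t + 1) % 2 = 1 := by omega
      simp [hm, h1, h2]
    · have h1 : (t + 1) % 4 = 2 := by omega
      have h2 : (t + 1) % 2 = 0 := by omega
      simp [hm, h1, h2]
    · have h1 : (t + 1) % 4 = 3 := by omega
      have h2 : (t + 1) % 2 = 1 := by omega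
      simp [hm, h1, h2]
    · have h1 : (t + 1) % 4 = 0 := by omega
      have h2 : (t + 1) % 2 = 0 := by omega
      simp [hm, h1, h2]

lemma S_nonneg (t : ℕ) : 0 ≤ S t := by rw [S_eq]; split_ifs <;> norm_num

lemma S_le_one (t : ℕ) : S t ≤ 1 := by rw [S_eq]; split_ifs <;> norm_num

/-- `∑_{m ≤ n} χ(m) log m` -/
noncomputable def A (n : ℕ) : ℝ := ∑ m ∈ Ioc 0 n, chi m * Real.log m

lemma A_succ (n : ℕ) : A (n + 1) = A n + chi (n + 1) * Real.log (n + 1 : ℕ) := by
  unfold A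
  rw [sum_Ioc_succ_top (by omega)]

lemma A_four (k : ℕ) : A (4 * k + 1) ≤ Real.log (4 * k + 1 : ℕ) := by
  induction k with
  | zero =>
    rw [A_succ]
    simp [A]
  | succ k ih =>
    have e : 4 * (k + 1) + 1 = 4 * k + 1 + 1 + 1 + 1 + 1 := by ring
    rw [e, A_succ, A_succ, A_succ, A_succ, chi_eq, chi_eq, chi_eq, chi_eq]
    have h1 : (4 * k + 1 + 1) % 2 = 0 := by omega
    have h2 : (4 * k + 1 + 1 + 1) % 2 = 1 := by omega
    have h2' : (4 * k + 1 + 1 + 1) % 4 = 3 := by omega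
    have h3 : (4 * k + 1 + 1 + 1 + 1) % 2 = 0 := by omega
    have h4 : (4 * k + 1 + 1 + 1 + 1 + 1) % 2 = 1 := by omega
    have h4' : (4 * k + 1 + 1 + 1 + 1 + 1) % 4 = 1 := by omega
    rw [if_pos h1, if_neg (by omega), if_neg (by omega), if_pos h3, if_neg (by omega), if_pos h4']
    have h5 : Real.log (4 * k + 1 : ℕ) ≤ Real.log (4 * k + 1 + 1 + 1 : ℕ) := by
      apply Real.log_le_log
      · positivity
      · exact_mod_cast by omega
    linarith

lemma A_le {n : ℕ} (hn : 1 ≤ n) : A n ≤ Real.log n := by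
  obtain ⟨k, r, hr, rfl⟩ : ∃ k r, r < 4 ∧ n = 4 * k + 1 + r := ⟨(n - 1) / 4, (n - 1) % 4, by omega,
    by omega⟩
  have h0 := A_four k
  have hmono : ∀ a b : ℕ, 1 ≤ a → a ≤ b → Real.log a ≤ Real.log b := by
    intro a b ha hab
    apply Real.log_le_log
    · exact_mod_cast ha
    · exact_mod_cast hab
  have h1 : A (4 * k + 1 + 1) = A (4 * k + 1) := by
    rw [A_succ, chi_eq, if_pos (by omega)]; ring
  have h2 : A (4 * k + 1 + 1 + 1) ≤ A (4 * k + 1) := by
    rw [A_succ, h1, chi_eq, if_neg (by omega), if_neg (by omega)]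
    have := Real.log_nonneg (x := ((4 * k + 1 + 1 + 1 : ℕ) : ℝ)) (by exact_mod_cast by omega)
    linarith
  have h3 : A (4 * k + 1 + 1 + 1 + 1) = A (4 * k + 1 + 1 + 1) := by
    rw [A_succ, chi_eq, if_pos (by omega)]; ring
  interval_cases r
  · exact h0
  · rw [h1]
    exact h0.trans (hmono _ _ (by omega) (by omega))
  · exact (h2.trans h0).trans (hmono _ _ (by omega) (by omega))
  · have e : 4 * k + 1 + 3 = 4 * k + 1 + 1 + 1 + 1 := by ring
    rw [e, h3]
    exact (h2.trans h0).trans (hmono _ _ (by omega) (by omega))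

lemma sum_chiL (n : ℕ) : ∑ d ∈ Ioc 0 n, chiL d * S (n / d) = A n := by
  have h := sum_Ioc_mul_eq_sum_sum chiL chi n
  unfold A
  rw [← sum_congr rfl (fun m _ => chiL_mul_chi m)]
  exact h.symm

lemma even_part (n : ℕ) (hn : 1 ≤ n) :
    ∑ d ∈ (Ioc 0 n).filter (fun d => d % 2 = 0), Λ d ≤ Real.log n := by
  have h1 : ∑ d ∈ (Ioc 0 n).filter (fun d => d % 2 = 0), Λ d ≤
      ∑ d ∈ (Icc 1 (Nat.log 2 n)).image (fun i => 2 ^ i), Λ d := by
    rw [← sum_filter_ne_zero]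
    apply sum_le_sum_of_subset_of_nonneg
    · intro d hd
      rw [mem_filter, mem_filter, mem_Ioc] at hd
      obtain ⟨⟨⟨hd0, hdn⟩, hd2⟩, hd3⟩ := hd
      rw [Ne, vonMangoldt_eq_zero_iff, not_not] at hd3
      rw [isPrimePow_nat_iff] at hd3
      obtain ⟨p, k, hp, hk, rfl⟩ := hd3
      have hp2 : p = 2 := by
        have : 2 ∣ p ^ k := Nat.dvd_of_mod_eq_zero hd2
        exact ((Nat.prime_dvd_prime_iff_eq Nat.prime_two hp).mp
          (Nat.prime_two.dvd_of_dvd_pow this)).symm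
      subst hp2
      rw [mem_image]
      refine ⟨k, mem_Icc.mpr ⟨hk, ?_⟩, rfl⟩
      exact Nat.le_log_of_pow_le (by norm_num) hdn
    · intro i _ _
      exact vonMangoldt_nonneg
  have h2 : ∑ d ∈ (Icc 1 (Nat.log 2 n)).image (fun i => 2 ^ i), Λ d ≤
      ∑ i ∈ Icc 1 (Nat.log 2 n), Λ (2 ^ i) := by
    rw [sum_image]
    intro a _ b _ hab
    exact Nat.pow_right_injective (le_refl 2) hab
  have h3 : ∑ i ∈ Icc 1 (Nat.log 2 n), Λ (2 ^ i) = Nat.log 2 n * Real.log 2 := by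
    rw [sum_congr rfl (g := fun _ => Real.log 2)]
    · simp
    · intro i hi
      rw [mem_Icc] at hi
      rw [vonMangoldt_apply_pow (by omega), vonMangoldt_apply_prime Nat.prime_two]
      norm_num
  have h4 : (Nat.log 2 n : ℝ) * Real.log 2 ≤ Real.log n := by
    have h5 : 2 ^ Nat.log 2 n ≤ n := Nat.pow_log_le_self 2 (by omega)
    have h6 : ((2 : ℝ)) ^ Nat.log 2 n ≤ n := by exact_mod_cast h5
    rw [← Real.log_pow]
    exact Real.log_le_log (by positivity) h6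
  linarith

/-- `∑_{d ≤ n, d ≡ 3 mod 4} Λ(d)` -/
noncomputable def T3 (n : ℕ) : ℝ := ∑ d ∈ (Ioc 0 n).filter (fun d => d % 4 = 3), Λ d

lemma T3_ge {n : ℕ} (hn : 1 ≤ n) : Chebyshev.psi n - Chebyshev.psi (n / 3 : ℕ) - 2 * Real.log n ≤
    2 * T3 n := by
  have h1 := sum_chiL n
  have h2 := A_le hn
  -- pointwise comparison
  have key : ∀ d ∈ Ioc 0 n, (if n / 3 < d ∧ d % 2 = 1 then Λ d else 0) ≤
      chiL d * S (n / d) + 2 * (if d % 4 = 3 then Λ d else 0) := by
    intro d hd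
    rw [mem_Ioc] at hd
    have hL : 0 ≤ Λ d := vonMangoldt_nonneg
    have hS0 := S_nonneg (n / d)
    have hS1 := S_le_one (n / d)
    rw [chiL_apply, chi_eq]
    by_cases h3 : n / 3 < d ∧ d % 2 = 1
    · have hq : n / d = 1 ∨ n / d = 2 := by
        have h4 : n < 3 * d := by omega
        have h5 : n / d < 3 := Nat.div_lt_of_lt_mul (by rw [mul_comm]; exact h4)
        have h6 : 1 ≤ n / d := (Nat.one_le_div_iff hd.1).mpr hd.2
        omega
      have hS : S (n / d) = 1 := by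
        rw [S_eq]
        rcases hq with h | h <;> rw [h] <;> norm_num
      rw [if_pos h3, hS, if_neg (by omega)]
      by_cases h4 : d % 4 = 1
      · rw [if_pos h4, if_neg (by omega)]; linarith
      · rw [if_neg h4, if_pos (by omega)]; linarith
    · rw [if_neg h3]
      by_cases h5 : d % 2 = 0
      · rw [if_pos h5, if_neg (by omega)]; simp
      · rw [if_neg h5]
        by_cases h4 : d % 4 = 1
        · rw [if_pos h4, if_neg (by omega)]
          have := mul_nonneg hL hS0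
          linarith
        · rw [if_neg h4, if_pos (by omega)]
          have := mul_le_mul_of_nonneg_left hS1 hL
          linarith
  have h3 := sum_le_sum key
  rw [sum_add_distrib, h1, ← mul_sum, ← sum_filter, ← sum_filter] at h3
  have h4 : Chebyshev.psi n = ∑ d ∈ Ioc 0 n, Λ d := by
    unfold Chebyshev.psi
    rw [Nat.floor_natCast]
  have h5 : Chebyshev.psi (n / 3 : ℕ) = ∑ d ∈ Ioc 0 (n / 3), Λ d := by
    unfold Chebyshev.psi
    rw [Nat.floor_natCast]
  have h6 : ∑ d ∈ Ioc 0 n, Λ d ≤ ∑ d ∈ Ioc 0 (n / 3), Λ d +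
      (∑ d ∈ (Ioc 0 n).filter (fun d => d % 2 = 0), Λ d +
        ∑ d ∈ (Ioc 0 n).filter (fun d => n / 3 < d ∧ d % 2 = 1), Λ d) := by
    have h7 : Ioc 0 n ⊆ Ioc 0 (n / 3) ∪ ((Ioc 0 n).filter (fun d => d % 2 = 0) ∪
        (Ioc 0 n).filter (fun d => n / 3 < d ∧ d % 2 = 1)) := by
      intro d hd
      rw [mem_union, mem_union, mem_filter, mem_filter]
      have hd' := mem_Ioc.mp hd
      rw [mem_Ioc]
      by_cases h8 : d ≤ n / 3
      · left; exact ⟨hd'.1, h8⟩
      · right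
        by_cases h9 : d % 2 = 0
        · left; exact ⟨hd, h9⟩
        · right; exact ⟨hd, by omega, by omega⟩
    have h8 := sum_le_sum_of_subset_of_nonneg (f := fun d => Λ d) h7
      (fun i _ _ => vonMangoldt_nonneg)
    have h9 : ∀ s t : Finset ℕ, ∑ d ∈ s ∪ t, Λ d ≤ ∑ d ∈ s, Λ d + ∑ d ∈ t, Λ d := by
      intro s t
      rw [← sum_union_inter]
      have : 0 ≤ ∑ d ∈ s ∩ t, Λ d := sum_nonneg (fun i _ => vonMangoldt_nonneg)
      linarith
    have h10 := h9 (Ioc 0 (n / 3)) ((Ioc 0 n).filter (fun d => d % 2 = 0) ∪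
        (Ioc 0 n).filter (fun d => n / 3 < d ∧ d % 2 = 1))
    have h11 := h9 ((Ioc 0 n).filter (fun d => d % 2 = 0))
        ((Ioc 0 n).filter (fun d => n / 3 < d ∧ d % 2 = 1))
    linarith
  have h7 := even_part n hn
  unfold T3
  rw [h4, h5]
  linarith

/-- the primes `p ≤ n` with `p ≡ 3 mod 4` -/
def P3 (n : ℕ) : Finset ℕ := (Ioc 0 n).filter (fun p => p.Prime ∧ p % 4 = 3)

lemma T3_le {n : ℕ} (hn : 1 ≤ n) : T3 n ≤ (P3 n).card * (Nat.log 2 n) * Real.log n := by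
  have h1 : T3 n ≤ ∑ d ∈ ((P3 n) ×ˢ (Icc 1 (Nat.log 2 n))).image (fun x => x.1 ^ x.2), Λ d := by
    unfold T3
    rw [← sum_filter_ne_zero]
    apply sum_le_sum_of_subset_of_nonneg
    · intro d hd
      rw [mem_filter, mem_filter, mem_Ioc] at hd
      obtain ⟨⟨⟨hd0, hdn⟩, hd2⟩, hd3⟩ := hd
      rw [Ne, vonMangoldt_eq_zero_iff, not_not] at hd3
      rw [isPrimePow_nat_iff] at hd3
      obtain ⟨p, k, hp, hk, rfl⟩ := hd3
      have hple : p ≤ p ^ k := Nat.le_self_pow (by omega) p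
      have hp3 : p % 4 = 3 := by
        have hp4 : p % 4 = 0 ∨ p % 4 = 1 ∨ p % 4 = 2 ∨ p % 4 = 3 := by omega
        rw [Nat.pow_mod] at hd2
        rcases hp4 with h | h | h | h
        · rw [h, zero_pow (by omega)] at hd2; omega
        · rw [h, one_pow] at hd2; omega
        · rw [h] at hd2
          obtain ⟨j, rfl⟩ : ∃ j, k = j + 1 := ⟨k - 1, by omega⟩
          rw [pow_succ] at hd2
          omega
        · exact h
      rw [mem_image]
      refine ⟨(p, k), ?_, rfl⟩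
      rw [mem_product]
      refine ⟨?_, mem_Icc.mpr ⟨hk, ?_⟩⟩
      · unfold P3
        rw [mem_filter, mem_Ioc]
        exact ⟨⟨hp.pos, by omega⟩, hp, hp3⟩
      · apply Nat.le_log_of_pow_le (by norm_num)
        exact le_trans (Nat.pow_le_pow_left hp.two_le k) hdn
    · intro i _ _
      exact vonMangoldt_nonneg
  have h2 : ∑ d ∈ ((P3 n) ×ˢ (Icc 1 (Nat.log 2 n))).image (fun x => x.1 ^ x.2), Λ d ≤
      ∑ x ∈ (P3 n) ×ˢ (Icc 1 (Nat.log 2 n)), Λ (x.1 ^ x.2) := by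
    apply sum_image_le_of_nonneg
    intro i _
    exact vonMangoldt_nonneg
  have h3 : ∑ x ∈ (P3 n) ×ˢ (Icc 1 (Nat.log 2 n)), Λ (x.1 ^ x.2) ≤
      ∑ x ∈ (P3 n) ×ˢ (Icc 1 (Nat.log 2 n)), Real.log n := by
    apply sum_le_sum
    intro x hx
    rw [mem_product, mem_Icc] at hx
    rw [vonMangoldt_apply_pow (by omega)]
    have hx1 := hx.1
    unfold P3 at hx1
    rw [mem_filter, mem_Ioc] at hx1
    apply vonMangoldt_le_log.trans
    apply Real.log_le_log
    · exact_mod_cast hx1.1.1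
    · exact_mod_cast hx1.1.2
  rw [sum_const, card_product, Nat.card_Icc, nsmul_eq_mul] at h3
  push_cast [Nat.add_sub_cancel] at h3
  linarith

/-- For `n ≥ 2^40` there are at least `√n` primes `p ≤ n`, `p ≡ 3 mod 4`. -/
theorem sqrt_le_card_P3 {n : ℕ} (hn : 2 ^ 40 ≤ n) : Real.sqrt n ≤ (P3 n).card := by
  have hn1 : 1 ≤ n := le_trans Nat.one_le_two_pow hn
  have hnR : (2 : ℝ) ^ 40 ≤ n := by exact_mod_cast hn
  have hn0 : (0 : ℝ) < n := by positivity
  set t : ℝ := (n : ℝ) ^ (1 / 8 : ℝ) with ht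
  have ht8 : t ^ 8 = n := by
    rw [ht, ← Real.rpow_natCast, ← Real.rpow_mul hn0.le]
    norm_num
  have ht32 : 32 ≤ t := by
    rw [ht]
    have : (32 : ℝ) = ((2 : ℝ) ^ 40) ^ (1 / 8 : ℝ) := by
      rw [← Real.rpow_natCast, ← Real.rpow_mul (by norm_num)]
      norm_num
    rw [this]
    exact Real.rpow_le_rpow (by positivity) hnR (by norm_num)
  have ht0 : 0 < t := by linarith
  have hlog : Real.log n ≤ 8 * t := by
    have := Real.log_le_rpow_div hn0.le (show (0 : ℝ) < 1 / 8 by norm_num)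
    rw [← ht] at this
    linarith
  have hlog0 : 0 ≤ Real.log n := Real.log_nonneg (by exact_mod_cast hn1)
  have hsqrt : Real.sqrt n = t ^ 4 := by
    rw [← ht8, show t ^ 8 = (t ^ 4) ^ 2 by ring, Real.sqrt_sq (by positivity)]
  have hl2 := Real.log_two_gt_d9
  have hl2' := Real.log_two_lt_d9
  -- psi bounds
  have h1 := Chebyshev.psi_ge n
  have h2 : Real.log (n + 1) ≤ 8 * t + 1 := by
    have : Real.log (n + 1) ≤ Real.log (n * 2) := by
      apply Real.log_le_log (by positivity)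
      have : (1 : ℝ) ≤ n := by exact_mod_cast hn1
      linarith
    rw [Real.log_mul hn0.ne' (by norm_num)] at this
    linarith
  have hm1 : 1 ≤ n / 3 := by
    have : 3 ≤ n := le_trans (by norm_num) hn
    omega
  have hm : ((n / 3 : ℕ) : ℝ) ≤ n / 3 := by
    have := @Nat.cast_div_le ℝ _ _ _ n 3
    simpa using this
  have hm1' : (1 : ℝ) ≤ ((n / 3 : ℕ) : ℝ) := by exact_mod_cast hm1
  have h3 := Chebyshev.psi_le hm1'
  have hlog4 : Real.log 4 = 2 * Real.log 2 := by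
    rw [show (4 : ℝ) = 2 ^ 2 by norm_num, Real.log_pow]; push_cast; ring
  have h4 : Real.log 4 * ((n / 3 : ℕ) : ℝ) ≤ 2 / 3 * Real.log 2 * n := by
    rw [hlog4]
    nlinarith
  have h5 : Real.sqrt ((n / 3 : ℕ) : ℝ) * Real.log ((n / 3 : ℕ) : ℝ) ≤ t ^ 4 * (8 * t) := by
    have h6 : Real.sqrt ((n / 3 : ℕ) : ℝ) ≤ t ^ 4 := by
      rw [← hsqrt]
      apply Real.sqrt_le_sqrt
      linarith
    have h7 : Real.log ((n / 3 : ℕ) : ℝ) ≤ 8 * t := by
      apply le_trans _ hlog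
      apply Real.log_le_log (by linarith)
      linarith
    have h8 : 0 ≤ Real.log ((n / 3 : ℕ) : ℝ) := Real.log_nonneg hm1'
    exact mul_le_mul h6 h7 h8 (by positivity)
  have h6 := T3_ge hn1
  have h7 := T3_le hn1
  have h8 : (1 / 10 : ℝ) * t ^ 8 ≤ T3 n := by
    have e1 : (n : ℝ) * Real.log 2 - (8 * t + 1) - (2 / 3 * Real.log 2 * n + 2 * (t ^ 4 * (8 * t)))
        - 2 * (8 * t) ≤ 2 * T3 n := by
      nlinarith
    rw [← ht8] at e1
    have e2 : 0 ≤ t ^ 8 := by positivity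
    have e3 : t ^ 8 * 0.6931471803 / 3 ≤ t ^ 8 * Real.log 2 / 3 := by
      have := mul_le_mul_of_nonneg_left hl2.le e2
      linarith
    have e4 : 16 * t ^ 5 + 24 * t + 1 ≤ t ^ 8 * 0.01 := by
      have a1 : (32 : ℝ) ^ 3 ≤ t ^ 3 := pow_le_pow_left₀ (by norm_num) ht32 3
      have a2 : 32 ^ 3 * t ^ 5 ≤ t ^ 8 := by
        have : t ^ 8 = t ^ 3 * t ^ 5 := by ring
        rw [this]
        exact mul_le_mul_of_nonneg_right a1 (by positivity)
      have a3 : t ≤ t ^ 5 := by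
        calc t = t ^ 1 := (pow_one t).symm
          _ ≤ t ^ 5 := pow_le_pow_right₀ (by linarith) (by norm_num)
      have a4 : 1 ≤ t ^ 5 := one_le_pow₀ (by linarith)
      linarith
    nlinarith
  have h9 : (Nat.log 2 n : ℝ) ≤ 12 * t := by
    have h10 : (Nat.log 2 n : ℝ) * Real.log 2 ≤ Real.log n := by
      have h5 : 2 ^ Nat.log 2 n ≤ n := Nat.pow_log_le_self 2 (by omega)
      have h6 : ((2 : ℝ)) ^ Nat.log 2 n ≤ n := by exact_mod_cast h5
      rw [← Real.log_pow]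
      exact Real.log_le_log (by positivity) h6
    have h11 : (Nat.log 2 n : ℝ) * 0.6931471803 ≤ (Nat.log 2 n : ℝ) * Real.log 2 :=
      mul_le_mul_of_nonneg_left hl2.le (Nat.cast_nonneg _)
    linarith
  have hc0 : (0 : ℝ) ≤ (P3 n).card := Nat.cast_nonneg _
  have h10 : (P3 n).card * (Nat.log 2 n : ℝ) * Real.log n ≤ (P3 n).card * (12 * t) * (8 * t) := by
    apply mul_le_mul _ hlog hlog0 (by positivity)
    exact mul_le_mul_of_nonneg_left h9 hc0
  have h11 : (1 / 10 : ℝ) * t ^ 8 ≤ (P3 n).card * 96 * t ^ 2 := by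
    calc (1 / 10 : ℝ) * t ^ 8 ≤ (P3 n).card * (12 * t) * (8 * t) := by linarith
      _ = (P3 n).card * 96 * t ^ 2 := by ring
  have h12 : (1 / 10 : ℝ) * t ^ 6 ≤ (P3 n).card * 96 := by
    have h13 : (1 / 10 : ℝ) * t ^ 6 * t ^ 2 ≤ (P3 n).card * 96 * t ^ 2 := by
      calc (1 / 10 : ℝ) * t ^ 6 * t ^ 2 = (1 / 10 : ℝ) * t ^ 8 := by ring
        _ ≤ _ := h11
    exact le_of_mul_le_mul_right h13 (by positivity)
  rw [hsqrt]
  have h14 : (960 : ℝ) * t ^ 4 ≤ t ^ 6 := by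
    have : (960 : ℝ) ≤ t ^ 2 := by nlinarith
    calc (960 : ℝ) * t ^ 4 ≤ t ^ 2 * t ^ 4 := mul_le_mul_of_nonneg_right this (by positivity)
      _ = t ^ 6 := by ring
  linarith

end Pool.Agent.TwoSqPow
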