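import Mathlib
import Pool.Agent.TwoSqPow.PrimesThree

set_option autoImplicit false

/-!
The divisor sum `∑_{d ∣ n} χ(d)` and the hyperbola method.
-/

namespace Pool.Agent.TwoSqPow

open Finset ArithmeticFunction

lemma chi_one : chi 1 = 1 := by rw [chi_eq]; norm_num

lemma abs_chi_le (n : ℕ) : |chi n| ≤ 1 := by
  rw [chi_eq]
  split_ifs <;> simp

lemma chi_pow (q i : ℕ) : chi (q ^ i) = chi q ^ i := by
  induction i with
  | zero => simp [chi_one]
  | succ i ih => rw [pow_succ, chi_mul, ih, pow_succ]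

lemma chi_isMultiplicative : chi.IsMultiplicative :=
  ⟨chi_one, fun {m n} _ => chi_mul m n⟩

/-- `f(n) = ∑_{d ∣ n} χ(d)` -/
noncomputable def fdiv (n : ℕ) : ℝ := ∑ d ∈ n.divisors, chi d

lemma fdiv_eq (n : ℕ) : fdiv n = (chi * (zeta : ArithmeticFunction ℝ)) n := by
  unfold fdiv
  rw [coe_mul_zeta_apply]

lemma fdiv_eq_zero {n : ℕ} (hn : n ≠ 0) (h : ¬ ∃ x y : ℕ, n = x ^ 2 + y ^ 2) : fdiv n = 0 := by
  rw [Nat.eq_sq_add_sq_iff] at h
  push Not at h
  obtain ⟨q, hqm, hq3, hodd⟩ := h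
  have hq : q.Prime := Nat.prime_of_mem_primeFactors hqm
  have : Fact q.Prime := ⟨hq⟩
  rw [Nat.not_even_iff_odd] at hodd
  have hfac : n = q ^ (n.factorization q) * (n / q ^ (n.factorization q)) :=
    (Nat.ordProj_mul_ordCompl_eq_self n q).symm
  have hcop : Nat.Coprime (q ^ (n.factorization q)) (n / q ^ (n.factorization q)) :=
    Nat.Coprime.pow_left _ (Nat.coprime_ordCompl hq hn)
  have hmul : (chi * (zeta : ArithmeticFunction ℝ)).IsMultiplicative :=
    chi_isMultiplicative.mul isMultiplicative_zeta.natCast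
  rw [fdiv_eq, hfac, hmul.map_mul_of_coprime hcop, ← fdiv_eq]
  have hq0 : fdiv (q ^ (n.factorization q)) = 0 := by
    unfold fdiv
    rw [Nat.sum_divisors_prime_pow hq]
    have hchi : chi q = -1 := by
      rw [chi_eq, if_neg (by omega), if_neg (by omega)]
    simp_rw [chi_pow, hchi]
    rw [neg_one_geom_sum, if_pos]
    rw [Nat.factorization_def n hq]
    exact hodd.add_one
  rw [hq0, zero_mul]

/-- the divisors of `n` between `Z` and `n / Z` -/
def mid (Z n : ℕ) : Finset ℕ := n.divisors.filter (fun d => Z < d ∧ Z * d < n)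

/-- the small divisors -/
noncomputable def gdiv (Z n : ℕ) : ℝ := ∑ d ∈ n.divisors.filter (fun d => d ≤ Z), chi d

lemma hyperbola {n Z : ℕ} (hn : n % 4 = 1) (hZ : Z * Z < n) :
    fdiv n = 2 * gdiv Z n + ∑ d ∈ mid Z n, chi d := by
  have hn0 : n ≠ 0 := by omega
  have h3 : ∑ d ∈ n.divisors.filter (fun d => n ≤ Z * d), chi d = gdiv Z n := by
    unfold gdiv
    apply sum_nbij' (fun d => n / d) (fun d => n / d)
    · intro d hd
      rw [mem_filter, Nat.mem_divisors] at hd ⊢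
      obtain ⟨⟨⟨e, rfl⟩, _⟩, hd2⟩ := hd
      have hd0 : 0 < d := Nat.pos_of_ne_zero (by rintro rfl; simp at hn0)
      rw [Nat.mul_div_cancel_left _ hd0]
      refine ⟨⟨dvd_mul_left _ _, hn0⟩, ?_⟩
      rw [mul_comm] at hd2
      exact Nat.le_of_mul_le_mul_right hd2 hd0
    · intro d hd
      rw [mem_filter, Nat.mem_divisors] at hd ⊢
      obtain ⟨⟨⟨e, rfl⟩, _⟩, hd2⟩ := hd
      have hd0 : 0 < d := Nat.pos_of_ne_zero (by rintro rfl; simp at hn0)
      rw [Nat.mul_div_cancel_left _ hd0]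
      exact ⟨⟨dvd_mul_left _ _, hn0⟩, Nat.mul_le_mul_right _ hd2⟩
    · intro d hd
      rw [mem_filter, Nat.mem_divisors] at hd
      exact Nat.div_div_self hd.1.1 hn0
    · intro d hd
      rw [mem_filter, Nat.mem_divisors] at hd
      exact Nat.div_div_self hd.1.1 hn0
    · intro d hd
      rw [mem_filter, Nat.mem_divisors] at hd
      obtain ⟨⟨⟨e, rfl⟩, _⟩, hd2⟩ := hd
      have hd0 : 0 < d := Nat.pos_of_ne_zero (by rintro rfl; simp at hn0)
      rw [Nat.mul_div_cancel_left _ hd0]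
      rw [chi_eq, chi_eq]
      have hdm : (d % 4) * (e % 4) % 4 = 1 := by rw [← Nat.mul_mod]; exact hn
      have hd4 : d % 4 < 4 := Nat.mod_lt _ (by norm_num)
      have he4 : e % 4 < 4 := Nat.mod_lt _ (by norm_num)
      have hd2 : d % 2 = d % 4 % 2 := by omega
      have he2 : e % 2 = e % 4 % 2 := by omega
      rw [hd2, he2]
      interval_cases (d % 4) <;> interval_cases (e % 4) <;> simp_all
  have hsplit : n.divisors = n.divisors.filter (fun d => d ≤ Z) ∪
      (mid Z n ∪ n.divisors.filter (fun d => n ≤ Z * d)) := by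
    ext d
    unfold mid
    rw [mem_union, mem_union, mem_filter, mem_filter, mem_filter]
    constructor
    · intro h
      by_cases h1 : d ≤ Z
      · left; exact ⟨h, h1⟩
      · right
        by_cases h2 : n ≤ Z * d
        · right; exact ⟨h, h2⟩
        · left; exact ⟨h, by omega, by omega⟩
    · rintro (h | h | h) <;> exact h.1
  have hd1 : Disjoint (mid Z n) (n.divisors.filter (fun d => n ≤ Z * d)) := by
    rw [disjoint_left]
    intro d h1 h2
    unfold mid at h1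
    rw [mem_filter] at h1 h2
    omega
  have hd2 : Disjoint (n.divisors.filter (fun d => d ≤ Z))
      (mid Z n ∪ n.divisors.filter (fun d => n ≤ Z * d)) := by
    rw [disjoint_left]
    intro d h1 h2
    unfold mid at h2
    rw [mem_union, mem_filter, mem_filter] at h2
    rw [mem_filter] at h1
    rcases h2 with h2 | h2
    · omega
    · have : Z * d ≤ Z * Z := Nat.mul_le_mul_left _ h1.2
      omega
  have : fdiv n = gdiv Z n + (∑ d ∈ mid Z n, chi d + gdiv Z n) := by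
    unfold fdiv
    rw [← h3]
    conv_lhs => rw [hsplit]
    rw [sum_union hd2, sum_union hd1]
    rw [h3]
    rfl
  rw [this]
  ring

lemma gdiv_bound {n Z : ℕ} (hn : n % 4 = 1) (hZ : Z * Z < n)
    (h : ¬ ∃ x y : ℕ, n = x ^ 2 + y ^ 2) : |gdiv Z n| ≤ (mid Z n).card / 2 := by
  have h1 := hyperbola hn hZ
  rw [fdiv_eq_zero (by omega) h] at h1
  have h2 : |∑ d ∈ mid Z n, chi d| ≤ (mid Z n).card := by
    calc |∑ d ∈ mid Z n, chi d| ≤ ∑ d ∈ mid Z n, |chi d| := abs_sum_le_sum_abs _ _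
      _ ≤ ∑ d ∈ mid Z n, (1 : ℝ) := sum_le_sum (fun d _ => abs_chi_le d)
      _ = (mid Z n).card := by simp
  have h3 : gdiv Z n = -(∑ d ∈ mid Z n, chi d) / 2 := by linarith
  rw [h3, abs_div, abs_neg, abs_two]
  exact div_le_div_of_nonneg_right h2 (by norm_num)

/-- `∑_{m ≤ t} χ(m) / m` -/
noncomputable def A1 (t : ℕ) : ℝ := ∑ m ∈ Ioc 0 t, chi m / m

lemma A1_succ (t : ℕ) : A1 (t + 1) = A1 t + chi (t + 1) / ((t + 1 : ℕ) : ℝ) := by
  unfold A1
  rw [sum_Ioc_succ_top (by omega)]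

lemma A1_four (k : ℕ) : 0 ≤ A1 (4 * k) ∧ A1 (4 * k) + 1 / (4 * k + 1 : ℕ) ≤ 1 ∧
    2 / 3 ≤ A1 (4 * k) + 1 / (4 * k + 1 : ℕ) - 1 / (4 * k + 3 : ℕ) := by
  induction k with
  | zero => simp [A1]; norm_num
  | succ k ih =>
    have e : 4 * (k + 1) = 4 * k + 1 + 1 + 1 + 1 := by ring
    have h0 : A1 (4 * (k + 1)) = A1 (4 * k) + 1 / (4 * k + 1 : ℕ) - 1 / (4 * k + 3 : ℕ) := by
      rw [e, A1_succ, A1_succ, A1_succ, A1_succ, chi_eq, chi_eq, chi_eq, chi_eq]
      rw [if_neg (show ¬ (4 * k + 1) % 2 = 0 by omega), if_pos (show (4 * k + 1) % 4 = 1 by omega),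
        if_pos (show (4 * k + 1 + 1) % 2 = 0 by omega),
        if_neg (show ¬ (4 * k + 1 + 1 + 1) % 2 = 0 by omega),
        if_neg (show ¬ (4 * k + 1 + 1 + 1) % 4 = 1 by omega),
        if_pos (show (4 * k + 1 + 1 + 1 + 1) % 2 = 0 by omega)]
      push_cast
      ring
    rw [h0]
    have h1 : (1 : ℝ) / (4 * k + 3 : ℕ) ≤ 1 / (4 * k + 1 : ℕ) := by
      apply one_div_le_one_div_of_le
      · positivity
      · exact_mod_cast by omega
    have h2 : (1 : ℝ) / (4 * (k + 1) + 1 : ℕ) ≤ 1 / (4 * k + 3 : ℕ) := by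
      apply one_div_le_one_div_of_le
      · positivity
      · exact_mod_cast by omega
    have h3 : (1 : ℝ) / (4 * (k + 1) + 3 : ℕ) ≤ 1 / (4 * (k + 1) + 1 : ℕ) := by
      apply one_div_le_one_div_of_le
      · positivity
      · exact_mod_cast by omega
    refine ⟨by linarith [ih.1], by linarith [ih.2.1], by linarith [ih.2.2]⟩

lemma A1_le_one (t : ℕ) : 0 ≤ A1 t ∧ A1 t ≤ 1 ∧ (1 ≤ t → 2 / 3 ≤ A1 t) := by
  obtain ⟨k, r, hr, rfl⟩ : ∃ k r, r < 4 ∧ t = 4 * k + r := ⟨t / 4, t % 4, by omega, by omega⟩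
  obtain ⟨h0, h1, h2⟩ := A1_four k
  have e1 : A1 (4 * k + 1) = A1 (4 * k) + 1 / (4 * k + 1 : ℕ) := by
    rw [A1_succ, chi_eq, if_neg (by omega), if_pos (by omega)]
  have e2 : A1 (4 * k + 1 + 1) = A1 (4 * k + 1) := by
    rw [A1_succ, chi_eq, if_pos (by omega)]; simp
  have e3 : A1 (4 * k + 1 + 1 + 1) = A1 (4 * k) + 1 / (4 * k + 1 : ℕ) - 1 / (4 * k + 3 : ℕ) := by
    rw [A1_succ, e2, e1, chi_eq, if_neg (by omega), if_neg (by omega)]
    have : 4 * k + 1 + 1 + 1 = 4 * k + 3 := by ring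
    rw [this]
    ring
  have p1 : (0 : ℝ) ≤ 1 / (4 * k + 1 : ℕ) := by positivity
  have p3 : (0 : ℝ) ≤ 1 / (4 * k + 3 : ℕ) := by positivity
  have hk : 1 ≤ k → 2 / 3 ≤ A1 (4 * k) := by
    intro hk
    obtain ⟨j, rfl⟩ : ∃ j, k = j + 1 := ⟨k - 1, by omega⟩
    obtain ⟨g0, g1, g2⟩ := A1_four j
    have e : 4 * (j + 1) = 4 * j + 1 + 1 + 1 + 1 := by ring
    have h0' : A1 (4 * (j + 1)) = A1 (4 * j) + 1 / (4 * j + 1 : ℕ) - 1 / (4 * j + 3 : ℕ) := by
      rw [e, A1_succ, A1_succ, A1_succ, A1_succ, chi_eq, chi_eq, chi_eq, chi_eq]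
      rw [if_neg (show ¬ (4 * j + 1) % 2 = 0 by omega), if_pos (show (4 * j + 1) % 4 = 1 by omega),
        if_pos (show (4 * j + 1 + 1) % 2 = 0 by omega),
        if_neg (show ¬ (4 * j + 1 + 1 + 1) % 2 = 0 by omega),
        if_neg (show ¬ (4 * j + 1 + 1 + 1) % 4 = 1 by omega),
        if_pos (show (4 * j + 1 + 1 + 1 + 1) % 2 = 0 by omega)]
      push_cast
      ring
    rw [h0']
    exact g2
  interval_cases r
  · exact ⟨h0, by simpa using by linarith, fun h => hk (by omega)⟩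
  · rw [e1]
    refine ⟨by linarith, by linarith, fun _ => ?_⟩
    linarith
  · have : 4 * k + 2 = 4 * k + 1 + 1 := by ring
    rw [this, e2, e1]
    refine ⟨by linarith, by linarith, fun _ => ?_⟩
    linarith
  · have : 4 * k + 3 = 4 * k + 1 + 1 + 1 := by ring
    rw [this, e3]
    refine ⟨by linarith, by linarith, fun _ => by linarith⟩

/-- `∑_{d ≤ Z, q ∣ d} χ(d) / d` -/
noncomputable def cq (Z q : ℕ) : ℝ := ∑ d ∈ (Icc 1 Z).filter (fun d => q ∣ d), chi d / d

lemma cq_eq {Z q : ℕ} (hq : 1 ≤ q) : cq Z q = chi q / q * A1 (Z / q) := by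
  unfold cq A1
  rw [mul_sum]
  symm
  apply sum_nbij' (fun m => q * m) (fun d => d / q)
  · intro m hm
    rw [mem_Ioc] at hm
    rw [mem_filter, mem_Icc]
    refine ⟨⟨by nlinarith, ?_⟩, dvd_mul_right _ _⟩
    calc q * m ≤ q * (Z / q) := Nat.mul_le_mul_left _ hm.2
      _ ≤ Z := Nat.mul_div_le Z q
  · intro d hd
    rw [mem_filter, mem_Icc] at hd
    obtain ⟨⟨h1, h2⟩, m, rfl⟩ := hd
    rw [mem_Ioc, Nat.mul_div_cancel_left _ hq]
    constructor
    · exact Nat.pos_of_ne_zero (by rintro rfl; omega)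
    · rw [Nat.le_div_iff_mul_le hq, mul_comm]; exact h2
  · intro m _
    exact Nat.mul_div_cancel_left _ hq
  · intro d hd
    rw [mem_filter] at hd
    exact Nat.mul_div_cancel' hd.2
  · intro m _
    rw [chi_mul]
    push_cast
    rw [div_mul_div_comm]

lemma abs_cq_le {Z q : ℕ} (hq : 1 ≤ q) : |cq Z q| ≤ 1 / q := by
  rw [cq_eq hq, abs_mul, abs_div, abs_of_nonneg (A1_le_one _).1]
  have h1 := abs_chi_le q
  have h2 := (A1_le_one (Z / q)).2.1
  have h3 := (A1_le_one (Z / q)).1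
  have hq0 : (0 : ℝ) < q := by exact_mod_cast hq
  rw [abs_of_pos hq0]
  calc |chi q| / q * A1 (Z / q) ≤ 1 / q * 1 := by
        apply mul_le_mul _ h2 h3 (by positivity)
        exact div_le_div_of_nonneg_right h1 hq0.le
    _ = 1 / q := mul_one _

lemma cq_even {Z q : ℕ} (hq : 1 ≤ q) (h : q % 2 = 0) : cq Z q = 0 := by
  rw [cq_eq hq, chi_eq, if_pos h]
  simp

end Pool.Agent.TwoSqPow
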