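import Mathlib

set_option autoImplicit false

/-!
The large sieve inequality in dual form, by the Fejér kernel.
-/

namespace Pool.Agent.TwoSqPow

open Finset Complex

/-- `e(t) = exp(2πit)` -/
noncomputable def ex (t : ℝ) : ℂ := Complex.exp (((2 * Real.pi * t : ℝ) : ℂ) * I)

lemma ex_add (s t : ℝ) : ex (s + t) = ex s * ex t := by
  unfold ex
  rw [← Complex.exp_add]
  congr 1
  push_cast
  ring

lemma norm_ex (t : ℝ) : ‖ex t‖ = 1 := by
  unfold ex
  exact Complex.norm_exp_ofReal_mul_I _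

lemma ex_zero : ex 0 = 1 := by
  unfold ex
  simp

lemma ex_int (n : ℤ) : ex n = 1 := by
  unfold ex
  rw [Complex.exp_eq_one_iff]
  exact ⟨n, by push_cast; ring⟩

lemma ex_add_int (t : ℝ) (n : ℤ) : ex (t + n) = ex t := by
  rw [ex_add, ex_int, mul_one]

lemma ex_neg (t : ℝ) : ex (-t) = (starRingEnd ℂ) (ex t) := by
  unfold ex
  rw [← Complex.exp_conj, map_mul, Complex.conj_ofReal, Complex.conj_I]
  congr 1
  push_cast
  ring

lemma ex_nat_mul (n : ℕ) (t : ℝ) : ex (n * t) = ex t ^ n := by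
  unfold ex
  rw [← Complex.exp_nat_mul]
  congr 1
  push_cast
  ring

lemma ex_sub_one (t : ℝ) (ht : |t| ≤ 1 / 2) : 4 * |t| ≤ ‖ex t - 1‖ := by
  unfold ex
  have h1 : Complex.exp (((2 * Real.pi * t : ℝ) : ℂ) * I) - 1 =
      Complex.exp (I * ((2 * Real.pi * t : ℝ) : ℂ)) - 1 := by rw [mul_comm]
  rw [h1, Complex.norm_exp_I_mul_ofReal_sub_one, Real.norm_eq_abs, abs_mul, abs_two]
  have h2 : 2 * Real.pi * t / 2 = Real.pi * t := by ring
  rw [h2]
  have hpi := Real.pi_pos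
  have h3 : |Real.pi * t| ≤ Real.pi / 2 := by
    rw [abs_mul, abs_of_pos hpi]
    nlinarith
  have h4 := Real.mul_abs_le_abs_sin h3
  rw [abs_mul, abs_of_pos hpi] at h4
  have h5 : 2 / Real.pi * (Real.pi * |t|) = 2 * |t| := by
    field_simp
  rw [h5] at h4
  linarith

/-- Dirichlet kernel -/
noncomputable def Dk (K : ℕ) (t : ℝ) : ℂ := ∑ i ∈ range K, ex (i * t)

lemma Dk_norm_le (K : ℕ) (t : ℝ) : ‖Dk K t‖ ≤ K := by
  unfold Dk
  calc ‖∑ i ∈ range K, ex (i * t)‖ ≤ ∑ i ∈ range K, ‖ex (i * t)‖ := norm_sum_le _ _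
    _ = K := by simp [norm_ex]

lemma Dk_add_int (K : ℕ) (t : ℝ) (n : ℤ) : Dk K (t + n) = Dk K t := by
  unfold Dk
  apply sum_congr rfl
  intro i _
  rw [mul_add]
  have : (i : ℝ) * (n : ℝ) = (((i : ℤ) * n : ℤ) : ℝ) := by push_cast; ring
  rw [this, ex_add_int]

lemma Dk_norm_le' (K : ℕ) (t : ℝ) (ht : |t| ≤ 1 / 2) (ht0 : t ≠ 0) :
    ‖Dk K t‖ ^ 2 ≤ 1 / (4 * t ^ 2) := by
  have h1 : Dk K t * (ex t - 1) = ex t ^ K - 1 := by
    unfold Dk
    simp_rw [ex_nat_mul]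
    exact geom_sum_mul _ _
  have h2 := ex_sub_one t ht
  have htp : 0 < |t| := abs_pos.mpr ht0
  have h3 : ‖Dk K t‖ * ‖ex t - 1‖ ≤ 2 := by
    rw [← norm_mul, h1]
    calc ‖ex t ^ K - 1‖ ≤ ‖ex t ^ K‖ + ‖(1 : ℂ)‖ := norm_sub_le _ _
      _ = 2 := by rw [norm_pow, norm_ex, one_pow, norm_one]; norm_num
  have h4 : ‖Dk K t‖ * (4 * |t|) ≤ 2 := by
    calc ‖Dk K t‖ * (4 * |t|) ≤ ‖Dk K t‖ * ‖ex t - 1‖ :=
          mul_le_mul_of_nonneg_left h2 (norm_nonneg _)
      _ ≤ 2 := h3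
  have h5 : ‖Dk K t‖ * (2 * |t|) ≤ 1 := by linarith
  have h6 : (‖Dk K t‖ * (2 * |t|)) ^ 2 ≤ 1 := by
    apply pow_le_one₀ (by positivity) h5
  rw [le_div_iff₀ (by positivity)]
  calc ‖Dk K t‖ ^ 2 * (4 * t ^ 2) = (‖Dk K t‖ * (2 * |t|)) ^ 2 := by
        rw [mul_pow, mul_pow, sq_abs]; ring
    _ ≤ 1 := h6

/-- the weight `1 / max(1, |j| - 1)²` -/
noncomputable def wt (j : ℤ) : ℝ := 1 / (max 1 (|(j : ℝ)| - 1)) ^ 2

lemma wt_nonneg (j : ℤ) : 0 ≤ wt j := by unfold wt; positivity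

lemma wt_sum_nat (n : ℕ) : ∑ j ∈ range n, wt (j : ℤ) ≤ 4 - 1 / (n + 1) := by
  -- stronger statement for n ≥ 3
  have key : ∀ n : ℕ, ∑ j ∈ range (n + 3), wt (j : ℤ) ≤ 4 - 1 / (n + 1) := by
    intro n
    induction n with
    | zero =>
      simp only [zero_add]
      rw [sum_range_succ, sum_range_succ, sum_range_succ]
      unfold wt
      norm_num
    | succ n ih =>
      rw [show n + 1 + 3 = (n + 3) + 1 by ring, sum_range_succ]
      have hw : wt ((n + 3 : ℕ) : ℤ) = 1 / (n + 2) ^ 2 := by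
        unfold wt
        push_cast
        have hn : (0 : ℝ) ≤ n := Nat.cast_nonneg n
        rw [abs_of_nonneg (by positivity), max_eq_right (by linarith)]
        congr 2
        ring
      rw [hw]
      have hn : (0 : ℝ) ≤ n := Nat.cast_nonneg n
      have h1 : (1 : ℝ) / (n + 2) ^ 2 ≤ 1 / (n + 1) - 1 / (((n + 1 : ℕ) : ℝ) + 1) := by
        push_cast
        rw [div_sub_div _ _ (by positivity) (by positivity), div_le_div_iff₀ (by positivity)
          (by positivity)]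
        nlinarith
      linarith
  have hmono : ∑ j ∈ range n, wt (j : ℤ) ≤ ∑ j ∈ range (n + 3), wt (j : ℤ) :=
    sum_le_sum_of_subset_of_nonneg (range_subset_range.mpr (by omega)) (fun i _ _ => wt_nonneg _)
  exact hmono.trans (key n)

lemma wt_sum (J : Finset ℤ) : ∑ j ∈ J, wt j ≤ 8 := by
  obtain ⟨n, hn⟩ : ∃ n : ℕ, ∀ j ∈ J, |j| < n := by
    refine ⟨J.sup (fun j => j.natAbs) + 1, fun j hj => ?_⟩
    have h1 : j.natAbs ≤ J.sup (fun j => j.natAbs) := le_sup (f := fun j : ℤ => j.natAbs) hj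
    rw [Int.abs_eq_natAbs]
    omega
  have hsub : J ⊆ (range n).image (fun i : ℕ => (i : ℤ)) ∪ (range n).image (fun i : ℕ => -(i : ℤ)) := by
    intro j hj
    have h1 := hn j hj
    rw [mem_union, mem_image, mem_image]
    rcases le_total 0 j with h | h
    · left
      exact ⟨j.toNat, mem_range.mpr (by rw [abs_of_nonneg h] at h1; omega), by omega⟩
    · right
      exact ⟨(-j).toNat, mem_range.mpr (by rw [abs_of_nonpos h] at h1; omega), by omega⟩
  have h1 := sum_le_sum_of_subset_of_nonneg (f := wt) hsub (fun i _ _ => wt_nonneg i)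
  have h2 : ∑ j ∈ (range n).image (fun i : ℕ => (i : ℤ)) ∪ (range n).image (fun i : ℕ => -(i : ℤ)),
      wt j ≤ ∑ j ∈ (range n).image (fun i : ℕ => (i : ℤ)), wt j +
        ∑ j ∈ (range n).image (fun i : ℕ => -(i : ℤ)), wt j := by
    rw [← sum_union_inter]
    have : 0 ≤ ∑ j ∈ (range n).image (fun i : ℕ => (i : ℤ)) ∩
      (range n).image (fun i : ℕ => -(i : ℤ)), wt j := sum_nonneg (fun i _ => wt_nonneg i)
    linarith
  have h3 : ∑ j ∈ (range n).image (fun i : ℕ => (i : ℤ)), wt j ≤ ∑ j ∈ range n, wt (j : ℤ) :=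
    sum_image_le_of_nonneg (fun i _ => wt_nonneg _)
  have h4 : ∑ j ∈ (range n).image (fun i : ℕ => -(i : ℤ)), wt j ≤ ∑ j ∈ range n, wt (-(j : ℤ)) :=
    sum_image_le_of_nonneg (fun i _ => wt_nonneg _)
  have h5 : ∑ j ∈ range n, wt (-(j : ℤ)) = ∑ j ∈ range n, wt (j : ℤ) := by
    apply sum_congr rfl
    intro j _
    unfold wt
    push_cast
    rw [abs_neg]
  have h6 := wt_sum_nat n
  have h7 : (0 : ℝ) ≤ 1 / (n + 1) := by positivity
  linarith

/-- Sum of the Fejér kernel over spaced points. -/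
lemma sum_Dk {R : Finset ℝ} {δ : ℝ} (hδ : 0 < δ)
    (hsp : ∀ x ∈ R, ∀ y ∈ R, x ≠ y → ∀ n : ℤ, δ ≤ |x - y + n|) (K : ℕ) {x : ℝ} (hx : x ∈ R) :
    ∑ y ∈ R, ‖Dk K (x - y)‖ ^ 2 ≤ (K : ℝ) ^ 2 + 2 / δ ^ 2 := by
  classical
  rw [← add_sum_erase R _ hx]
  have h0 : ‖Dk K (x - x)‖ ^ 2 ≤ (K : ℝ) ^ 2 := pow_le_pow_left₀ (norm_nonneg _) (Dk_norm_le _ _) 2
  -- representatives
  set θ : ℝ → ℝ := fun y => (x - y) - round (x - y) with hθ
  have hθ1 : ∀ y, |θ y| ≤ 1 / 2 := fun y => abs_sub_round _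
  have hθ2 : ∀ y ∈ R.erase x, δ ≤ |θ y| := by
    intro y hy
    rw [mem_erase] at hy
    have := hsp x hx y hy.2 hy.1.symm (-round (x - y))
    push_cast at this
    rw [← sub_eq_add_neg] at this
    exact this
  have hD : ∀ y, Dk K (x - y) = Dk K (θ y) := by
    intro y
    have : x - y = θ y + (round (x - y) : ℤ) := by rw [hθ]; ring
    rw [this, Dk_add_int]
  set idx : ℝ → ℤ := fun y => ⌊θ y / δ⌋ with hidx
  have hbound : ∀ y ∈ R.erase x, ‖Dk K (x - y)‖ ^ 2 ≤ 1 / (4 * δ ^ 2) * wt (idx y) := by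
    intro y hy
    rw [hD]
    have h1 := hθ2 y hy
    have h2 : θ y ≠ 0 := by
      intro h
      rw [h, abs_zero] at h1
      linarith
    have h3 := Dk_norm_le' K (θ y) (hθ1 y) h2
    have h4 : δ * max 1 (|(idx y : ℝ)| - 1) ≤ |θ y| := by
      have h5 : (idx y : ℝ) ≤ θ y / δ := Int.floor_le _
      have h6 : θ y / δ < idx y + 1 := Int.lt_floor_add_one _
      have h7 : |(idx y : ℝ)| - 1 ≤ |θ y / δ| := by
        rcases le_total 0 (idx y : ℝ) with h | h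
        · rw [abs_of_nonneg h]
          have := le_abs_self (θ y / δ)
          linarith
        · rw [abs_of_nonpos h]
          have := neg_abs_le (θ y / δ)
          linarith [neg_le_abs (θ y / δ)]
      rw [abs_div, abs_of_pos hδ] at h7
      rcases max_choice 1 (|(idx y : ℝ)| - 1) with h | h
      · rw [h]; linarith
      · rw [h]
        rw [le_div_iff₀ hδ] at h7
        linarith
    have h5 : (δ * max 1 (|(idx y : ℝ)| - 1)) ^ 2 ≤ (θ y) ^ 2 := by
      rw [← sq_abs (θ y)]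
      apply pow_le_pow_left₀ _ h4
      positivity
    calc ‖Dk K (θ y)‖ ^ 2 ≤ 1 / (4 * (θ y) ^ 2) := h3
      _ ≤ 1 / (4 * (δ * max 1 (|(idx y : ℝ)| - 1)) ^ 2) := by
          apply one_div_le_one_div_of_le (by positivity)
          linarith
      _ = 1 / (4 * δ ^ 2) * wt (idx y) := by
          unfold wt
          rw [mul_pow]
          field_simp
  have hinj : Set.InjOn idx (R.erase x) := by
    intro y hy y' hy' h
    by_contra hne
    rw [mem_coe, mem_erase] at hy hy'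
    have h1 := hsp y hy.2 y' hy'.2 hne (round (x - y) - round (x - y'))
    have h2 : |θ y' - θ y| < δ := by
      have h3 : (idx y : ℝ) ≤ θ y / δ := Int.floor_le _
      have h4 : θ y / δ < idx y + 1 := Int.lt_floor_add_one _
      have h5 : (idx y' : ℝ) ≤ θ y' / δ := Int.floor_le _
      have h6 : θ y' / δ < idx y' + 1 := Int.lt_floor_add_one _
      rw [h] at h3 h4
      rw [le_div_iff₀ hδ] at h3 h5
      rw [div_lt_iff₀ hδ] at h4 h6
      rw [abs_lt]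
      constructor <;> linarith
    have h3 : θ y' - θ y = y - y' + ((round (x - y) - round (x - y') : ℤ) : ℝ) := by
      rw [hθ]
      push_cast
      ring
    rw [h3] at h2
    linarith
  have hsum : ∑ y ∈ R.erase x, ‖Dk K (x - y)‖ ^ 2 ≤ 2 / δ ^ 2 := by
    calc ∑ y ∈ R.erase x, ‖Dk K (x - y)‖ ^ 2 ≤ ∑ y ∈ R.erase x, 1 / (4 * δ ^ 2) * wt (idx y) :=
          sum_le_sum hbound
      _ = 1 / (4 * δ ^ 2) * ∑ j ∈ (R.erase x).image idx, wt j := by
          rw [← mul_sum, sum_image hinj]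
      _ ≤ 1 / (4 * δ ^ 2) * 8 := mul_le_mul_of_nonneg_left (wt_sum _) (by positivity)
      _ = 2 / δ ^ 2 := by field_simp; norm_num
  linarith

/-- The large sieve inequality, dual form. -/
theorem large_sieve {R : Finset ℝ} {δ : ℝ} (hδ : 0 < δ)
    (hsp : ∀ x ∈ R, ∀ y ∈ R, x ≠ y → ∀ n : ℤ, δ ≤ |x - y + n|) (c : ℝ → ℂ) {H : ℕ} (hH : 0 < H) :
    ∑ N ∈ range H, ‖∑ x ∈ R, c x * ex (N * x)‖ ^ 2 ≤
      (4 * H + 2 / (δ ^ 2 * H)) * ∑ x ∈ R, ‖c x‖ ^ 2 := by
  set A : ℝ → ℂ := fun t => ∑ x ∈ R, c x * ex (t * x) with hA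
  set K := 2 * H with hK
  -- lower bound of the double sum
  have h1 : (H : ℝ) * ∑ N ∈ range H, ‖A N‖ ^ 2 ≤
      ∑ i ∈ range K, ∑ j ∈ range K, ‖A ((i : ℝ) - j)‖ ^ 2 := by
    rw [sum_comm]
    calc (H : ℝ) * ∑ N ∈ range H, ‖A N‖ ^ 2 = ∑ j ∈ range H, ∑ N ∈ range H, ‖A N‖ ^ 2 := by simp
      _ ≤ ∑ j ∈ range H, ∑ i ∈ range K, ‖A ((i : ℝ) - j)‖ ^ 2 := by
          apply sum_le_sum
          intro j hj
          rw [mem_range] at hj
          have h2 : ∑ N ∈ range H, ‖A N‖ ^ 2 =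
              ∑ i ∈ (range H).image (fun N => N + j), ‖A ((i : ℝ) - j)‖ ^ 2 := by
            rw [sum_image (by intro a _ b _ h; simpa using h)]
            apply sum_congr rfl
            intro N _
            push_cast
            rw [add_sub_cancel_right]
          rw [h2]
          apply sum_le_sum_of_subset_of_nonneg
          · intro i hi
            rw [mem_image] at hi
            obtain ⟨N, hN, rfl⟩ := hi
            rw [mem_range] at hN ⊢
            omega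
          · intro i _ _; positivity
      _ ≤ ∑ j ∈ range K, ∑ i ∈ range K, ‖A ((i : ℝ) - j)‖ ^ 2 := by
          apply sum_le_sum_of_subset_of_nonneg (range_subset_range.mpr (by omega))
          intro i _ _
          positivity
  -- expansion
  have h2 : ((∑ i ∈ range K, ∑ j ∈ range K, ‖A ((i : ℝ) - j)‖ ^ 2 : ℝ) : ℂ) =
      ∑ x ∈ R, ∑ y ∈ R, c x * (starRingEnd ℂ) (c y) * ((‖Dk K (x - y)‖ ^ 2 : ℝ) : ℂ) := by
    have e1 : ∀ i j : ℕ, ((‖A ((i : ℝ) - j)‖ ^ 2 : ℝ) : ℂ) =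
        ∑ x ∈ R, ∑ y ∈ R, c x * (starRingEnd ℂ) (c y) * (ex (i * (x - y)) * ex (-(j * (x - y)))) := by
      intro i j
      have e2 : ((‖A ((i : ℝ) - j)‖ ^ 2 : ℝ) : ℂ) = A ((i : ℝ) - j) * (starRingEnd ℂ) (A ((i : ℝ) - j)) := by
        rw [Complex.mul_conj, Complex.normSq_eq_norm_sq]
      rw [e2, hA]
      simp only
      rw [map_sum, sum_mul_sum]
      apply sum_congr rfl
      intro x _
      apply sum_congr rfl
      intro y _
      rw [map_mul, ← ex_neg]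
      have e3 : ex (((i : ℝ) - j) * x) * ex (-(((i : ℝ) - j) * y)) =
          ex (i * (x - y)) * ex (-(j * (x - y))) := by
        rw [← ex_add, ← ex_add]
        congr 1
        ring
      calc c x * ex (((i : ℝ) - j) * x) * ((starRingEnd ℂ) (c y) * ex (-(((i : ℝ) - j) * y)))
          = c x * (starRingEnd ℂ) (c y) * (ex (((i : ℝ) - j) * x) * ex (-(((i : ℝ) - j) * y))) := by
            ring
        _ = _ := by rw [e3]
    push_cast
    have e4 : ∀ i j : ℕ, ((‖A ((i : ℝ) - j)‖ : ℂ)) ^ 2 =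
        ∑ x ∈ R, ∑ y ∈ R, c x * (starRingEnd ℂ) (c y) * (ex (i * (x - y)) * ex (-(j * (x - y)))) := by
      intro i j
      rw [← e1]; push_cast; rfl
    simp_rw [e4]
    -- move the sums over i j inside
    calc ∑ i ∈ range K, ∑ j ∈ range K, ∑ x ∈ R, ∑ y ∈ R,
          c x * (starRingEnd ℂ) (c y) * (ex (i * (x - y)) * ex (-(j * (x - y))))
        = ∑ x ∈ R, ∑ y ∈ R, ∑ i ∈ range K, ∑ j ∈ range K,
          c x * (starRingEnd ℂ) (c y) * (ex (i * (x - y)) * ex (-(j * (x - y)))) := by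
          rw [sum_congr rfl (fun i _ => sum_comm), sum_comm]
          apply sum_congr rfl
          intro x _
          rw [sum_congr rfl (fun i _ => sum_comm), sum_comm]
      _ = _ := by
          apply sum_congr rfl
          intro x _
          apply sum_congr rfl
          intro y _
          have e5 : ((‖Dk K (x - y)‖ : ℂ)) ^ 2 = Dk K (x - y) * (starRingEnd ℂ) (Dk K (x - y)) := by
            rw [Complex.mul_conj, Complex.normSq_eq_norm_sq]
            push_cast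
            rfl
          rw [e5]
          unfold Dk
          rw [map_sum, sum_mul_sum, mul_sum]
          apply sum_congr rfl
          intro i _
          rw [mul_sum]
          apply sum_congr rfl
          intro j _
          rw [← ex_neg]
  -- upper bound
  have h3 : ∑ i ∈ range K, ∑ j ∈ range K, ‖A ((i : ℝ) - j)‖ ^ 2 ≤
      ∑ x ∈ R, ‖c x‖ ^ 2 * ((K : ℝ) ^ 2 + 2 / δ ^ 2) := by
    have h4 : ∑ i ∈ range K, ∑ j ∈ range K, ‖A ((i : ℝ) - j)‖ ^ 2 ≤
        ∑ x ∈ R, ∑ y ∈ R, ‖c x‖ * ‖c y‖ * ‖Dk K (x - y)‖ ^ 2 := by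
      have h5 : (0 : ℝ) ≤ ∑ i ∈ range K, ∑ j ∈ range K, ‖A ((i : ℝ) - j)‖ ^ 2 :=
        sum_nonneg (fun i _ => sum_nonneg (fun j _ => by positivity))
      calc ∑ i ∈ range K, ∑ j ∈ range K, ‖A ((i : ℝ) - j)‖ ^ 2
          = ‖((∑ i ∈ range K, ∑ j ∈ range K, ‖A ((i : ℝ) - j)‖ ^ 2 : ℝ) : ℂ)‖ := by
            rw [Complex.norm_real, Real.norm_eq_abs, abs_of_nonneg h5]
        _ = ‖∑ x ∈ R, ∑ y ∈ R, c x * (starRingEnd ℂ) (c y) * ((‖Dk K (x - y)‖ ^ 2 : ℝ) : ℂ)‖ := by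
            rw [h2]
        _ ≤ ∑ x ∈ R, ‖∑ y ∈ R, c x * (starRingEnd ℂ) (c y) * ((‖Dk K (x - y)‖ ^ 2 : ℝ) : ℂ)‖ :=
            norm_sum_le _ _
        _ ≤ ∑ x ∈ R, ∑ y ∈ R, ‖c x * (starRingEnd ℂ) (c y) * ((‖Dk K (x - y)‖ ^ 2 : ℝ) : ℂ)‖ :=
            sum_le_sum (fun x _ => norm_sum_le _ _)
        _ = _ := by
            apply sum_congr rfl
            intro x _
            apply sum_congr rfl
            intro y _
            rw [norm_mul, norm_mul, RCLike.norm_conj, Complex.norm_real, Real.norm_eq_abs,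
              abs_of_nonneg (by positivity)]
    have hsymm : ∀ x y : ℝ, ‖Dk K (x - y)‖ = ‖Dk K (y - x)‖ := by
      intro x y
      have : Dk K (y - x) = (starRingEnd ℂ) (Dk K (x - y)) := by
        unfold Dk
        rw [map_sum]
        apply sum_congr rfl
        intro i _
        rw [← ex_neg]
        congr 1
        ring
      rw [this, RCLike.norm_conj]
    have h5 : ∑ x ∈ R, ∑ y ∈ R, ‖c x‖ * ‖c y‖ * ‖Dk K (x - y)‖ ^ 2 ≤
        ∑ x ∈ R, ∑ y ∈ R, ‖c x‖ ^ 2 * ‖Dk K (x - y)‖ ^ 2 := by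
      have h6 : ∑ x ∈ R, ∑ y ∈ R, ‖c y‖ ^ 2 * ‖Dk K (x - y)‖ ^ 2 =
          ∑ x ∈ R, ∑ y ∈ R, ‖c x‖ ^ 2 * ‖Dk K (x - y)‖ ^ 2 := by
        rw [sum_comm]
        apply sum_congr rfl
        intro x _
        apply sum_congr rfl
        intro y _
        rw [hsymm]
      have h7 : ∑ x ∈ R, ∑ y ∈ R, ‖c x‖ * ‖c y‖ * ‖Dk K (x - y)‖ ^ 2 ≤
          ∑ x ∈ R, ∑ y ∈ R, (‖c x‖ ^ 2 * ‖Dk K (x - y)‖ ^ 2 / 2 +
            ‖c y‖ ^ 2 * ‖Dk K (x - y)‖ ^ 2 / 2) := by
        apply sum_le_sum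
        intro x _
        apply sum_le_sum
        intro y _
        have h8 : ‖c x‖ * ‖c y‖ ≤ ‖c x‖ ^ 2 / 2 + ‖c y‖ ^ 2 / 2 := by
          nlinarith [sq_nonneg (‖c x‖ - ‖c y‖)]
        have h9 := mul_le_mul_of_nonneg_right h8 (show 0 ≤ ‖Dk K (x - y)‖ ^ 2 by positivity)
        linarith
      simp_rw [sum_add_distrib, ← sum_div] at h7
      rw [h6] at h7
      linarith
    refine (h4.trans h5).trans (sum_le_sum ?_)
    intro x hx
    rw [← mul_sum]
    exact mul_le_mul_of_nonneg_left (sum_Dk hδ hsp K hx) (by positivity)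
  have hHpos : (0 : ℝ) < H := by exact_mod_cast hH
  have h6 : (H : ℝ) * ∑ N ∈ range H, ‖A N‖ ^ 2 ≤
      H * ((4 * H + 2 / (δ ^ 2 * H)) * ∑ x ∈ R, ‖c x‖ ^ 2) := by
    calc (H : ℝ) * ∑ N ∈ range H, ‖A N‖ ^ 2 ≤ ∑ x ∈ R, ‖c x‖ ^ 2 * ((K : ℝ) ^ 2 + 2 / δ ^ 2) :=
          h1.trans h3
      _ = H * ((4 * H + 2 / (δ ^ 2 * H)) * ∑ x ∈ R, ‖c x‖ ^ 2) := by
          rw [← sum_mul, hK]
          push_cast
          field_simp
          ring
  exact le_of_mul_le_mul_left h6 hHpos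

end Pool.Agent.TwoSqPow
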