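import Mathlib
import Pool.Agent.TwoSqPow.LargeSieve

set_option autoImplicit false

/-!
Exponential sums over powers of two.
-/

namespace Pool.Agent.TwoSqPow

open Finset Complex

lemma pow_add_pow_eq {a b c d : ℕ} (h : 2 ^ a + 2 ^ b = 2 ^ c + 2 ^ d) :
    (c = a ∧ d = b) ∨ (c = b ∧ d = a) := by
  -- WLOG argument with a ≤ b, c ≤ d
  have key : ∀ a b c d : ℕ, a ≤ b → c ≤ d → 2 ^ a + 2 ^ b = 2 ^ c + 2 ^ d → c = a ∧ d = b := by
    intro a b c d hab hcd h
    have hac : a = c := by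
      have aux : ∀ a b c d : ℕ, a ≤ b → c ≤ d → 2 ^ a + 2 ^ b = 2 ^ c + 2 ^ d → ¬ a < c := by
        intro a b c d hab hcd h hlt
        obtain ⟨u, rfl⟩ := Nat.exists_eq_add_of_le hab
        obtain ⟨v, rfl⟩ := Nat.exists_eq_add_of_lt hlt
        obtain ⟨w, rfl⟩ := Nat.exists_eq_add_of_le hcd
        have h1 : 2 ^ a * (1 + 2 ^ u) = 2 ^ a * (2 ^ (v + 1) + 2 ^ (v + 1 + w)) := by
          rw [mul_add, mul_one, ← pow_add, h]
          ring
        have h2 : 1 + 2 ^ u = 2 ^ (v + 1) + 2 ^ (v + 1 + w) :=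
          Nat.eq_of_mul_eq_mul_left (by positivity) h1
        have h3 : 2 ^ (v + 1) + 2 ^ (v + 1 + w) = 2 * (2 ^ v + 2 ^ (v + w)) := by ring
        rw [h3] at h2
        rcases u with _ | u
        · have p1 : 0 < 2 ^ v := by positivity
          have p2 : 0 < 2 ^ (v + w) := by positivity
          simp only [pow_zero] at h2
          omega
        · rw [pow_succ] at h2
          omega
      rcases lt_trichotomy a c with h1 | h1 | h1
      · exact absurd h1 (aux a b c d hab hcd h)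
      · exact h1
      · exact absurd h1 (aux c d a b hcd hab h.symm)
    subst hac
    refine ⟨rfl, ?_⟩
    have h2 : 2 ^ b = 2 ^ d := by omega
    exact (Nat.pow_right_injective (le_refl 2) h2).symm
  rcases le_total a b with h1 | h1 <;> rcases le_total c d with h2 | h2
  · left; exact key a b c d h1 h2 h
  · right
    have := key a b d c h1 h2 (by rw [h]; ring)
    exact ⟨this.2, this.1⟩
  · right
    have := key b a c d h1 h2 (by rw [← h]; ring)
    exact ⟨this.1, this.2⟩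
  · left
    have := key b a d c h1 h2 (by rw [add_comm, h]; ring)
    exact ⟨this.2, this.1⟩

lemma ex_sum_range {d : ℕ} (hd : 0 < d) (m : ℤ) :
    ∑ r ∈ range d, ex ((r : ℝ) / d * m) = if (d : ℤ) ∣ m then (d : ℂ) else 0 := by
  have hd0 : (d : ℝ) ≠ 0 := by exact_mod_cast hd.ne'
  have h1 : ∀ r : ℕ, ex ((r : ℝ) / d * m) = (ex ((m : ℝ) / d)) ^ r := by
    intro r
    rw [← ex_nat_mul]
    congr 1
    field_simp
  simp_rw [h1]
  split_ifs with h
  · obtain ⟨c, rfl⟩ := h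
    have : (((d : ℤ) * c : ℤ) : ℝ) / d = (c : ℤ) := by
      push_cast
      field_simp
    rw [this, ex_int]
    simp
  · have hne : ex ((m : ℝ) / d) ≠ 1 := by
      intro heq
      apply h
      unfold ex at heq
      rw [Complex.exp_eq_one_iff] at heq
      obtain ⟨n, hn⟩ := heq
      have hI : (2 * Real.pi * I : ℂ) ≠ 0 := Complex.two_pi_I_ne_zero
      have h2 : (((m : ℝ) / d : ℝ) : ℂ) * (2 * Real.pi * I) = n * (2 * Real.pi * I) := by
        rw [← hn]
        push_cast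
        ring
      have h3 := mul_right_cancel₀ hI h2
      have h4 : ((m : ℝ) / d) = n := by exact_mod_cast h3
      rw [div_eq_iff hd0] at h4
      have h5 : m = n * d := by exact_mod_cast h4
      exact ⟨n, by rw [h5]; ring⟩
    have h2 := geom_sum_mul (ex ((m : ℝ) / d)) d
    have h3 : (ex ((m : ℝ) / d)) ^ d = 1 := by
      rw [← ex_nat_mul]
      have : (d : ℝ) * ((m : ℝ) / d) = (m : ℤ) := by field_simp
      rw [this, ex_int]
    rw [h3, sub_self] at h2
    exact (mul_eq_zero.mp h2).resolve_right (sub_ne_zero.mpr hne)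

/-- Fourth moment of a short sum. -/
lemma fourth_moment {q : ℕ} (hq1 : 1 < q) (hodd : q % 2 = 1) {l : ℕ} (hl : 2 ^ l ≤ q)
    (D : Finset ℕ) (hD : ∀ j ∈ D, j < l) (s : ℕ) :
    ∑ r ∈ range q, ‖∑ j ∈ D, ex ((r : ℝ) / q * (2 ^ (j + s) : ℕ))‖ ^ 4 ≤
      2 * q * (l : ℝ) ^ 2 := by
  set Q := D ×ˢ D with hQ
  -- the value h of a quadruple
  set hh : (ℕ × ℕ) → (ℕ × ℕ) → ℤ := fun x y =>
    (2 : ℤ) ^ (x.1 + s) + 2 ^ (x.2 + s) - 2 ^ (y.1 + s) - 2 ^ (y.2 + s) with hhh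
  have e1 : ∀ r : ℕ, ((‖∑ j ∈ D, ex ((r : ℝ) / q * (2 ^ (j + s) : ℕ))‖ ^ 4 : ℝ) : ℂ) =
      ∑ x ∈ Q, ∑ y ∈ Q, ex ((r : ℝ) / q * (hh x y : ℤ)) := by
    intro r
    set T := ∑ j ∈ D, ex ((r : ℝ) / q * (2 ^ (j + s) : ℕ)) with hT
    have e2 : ((‖T‖ ^ 4 : ℝ) : ℂ) = (T * T) * ((starRingEnd ℂ) T * (starRingEnd ℂ) T) := by
      have e3 : ((‖T‖ ^ 2 : ℝ) : ℂ) = T * (starRingEnd ℂ) T := by
        rw [Complex.mul_conj, Complex.normSq_eq_norm_sq]
      calc ((‖T‖ ^ 4 : ℝ) : ℂ) = ((‖T‖ ^ 2 : ℝ) : ℂ) * ((‖T‖ ^ 2 : ℝ) : ℂ) := by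
            push_cast; ring
        _ = _ := by rw [e3]; ring
    have e4 : T * T = ∑ x ∈ Q, ex ((r : ℝ) / q * ((2 : ℝ) ^ (x.1 + s) + 2 ^ (x.2 + s))) := by
      rw [hT, sum_mul_sum, hQ, sum_product]
      apply sum_congr rfl
      intro i _
      apply sum_congr rfl
      intro j _
      rw [← ex_add]
      congr 1
      push_cast
      ring
    have e5 : (starRingEnd ℂ) T * (starRingEnd ℂ) T =
        ∑ y ∈ Q, ex (-((r : ℝ) / q * ((2 : ℝ) ^ (y.1 + s) + 2 ^ (y.2 + s)))) := by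
      rw [← map_mul, e4, map_sum]
      apply sum_congr rfl
      intro y _
      rw [ex_neg]
    rw [e2, e5, e4, sum_mul_sum]
    apply sum_congr rfl
    intro x _
    apply sum_congr rfl
    intro y _
    rw [← ex_add]
    congr 1
    rw [hhh]
    push_cast
    ring
  have e2 : ((∑ r ∈ range q, ‖∑ j ∈ D, ex ((r : ℝ) / q * (2 ^ (j + s) : ℕ))‖ ^ 4 : ℝ) : ℂ) =
      ∑ x ∈ Q, ∑ y ∈ Q, (if (q : ℤ) ∣ hh x y then (q : ℂ) else 0) := by
    rw [Complex.ofReal_sum]
    simp_rw [e1]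
    rw [sum_comm]
    apply sum_congr rfl
    intro x _
    rw [sum_comm]
    apply sum_congr rfl
    intro y _
    exact ex_sum_range (by omega) _
  have e3 : ∑ r ∈ range q, ‖∑ j ∈ D, ex ((r : ℝ) / q * (2 ^ (j + s) : ℕ))‖ ^ 4 =
      ∑ x ∈ Q, ∑ y ∈ Q, (if (q : ℤ) ∣ hh x y then (q : ℝ) else 0) := by
    apply Complex.ofReal_injective
    rw [e2]
    push_cast
    apply sum_congr rfl
    intro x _
    apply sum_congr rfl
    intro y _
    split_ifs <;> simp
  rw [e3]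
  have hDcard : D.card ≤ l := by
    have : D ⊆ range l := fun j hj => mem_range.mpr (hD j hj)
    simpa using card_le_card this
  have e4 : ∀ x ∈ Q, ∑ y ∈ Q, (if (q : ℤ) ∣ hh x y then (q : ℝ) else 0) ≤ 2 * q := by
    intro x hx
    rw [← sum_filter, sum_const, nsmul_eq_mul]
    have hsub : Q.filter (fun y => (q : ℤ) ∣ hh x y) ⊆ {x, (x.2, x.1)} := by
      intro y hy
      rw [mem_filter] at hy
      rw [hQ, mem_product] at hx
      have hy1 := hy.1
      rw [hQ, mem_product] at hy1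
      have hx1 := hD _ hx.1
      have hx2 := hD _ hx.2
      have hy11 := hD _ hy1.1
      have hy12 := hD _ hy1.2
      -- remove the factor 2^s
      have h1 : hh x y = 2 ^ s * ((2 : ℤ) ^ x.1 + 2 ^ x.2 - 2 ^ y.1 - 2 ^ y.2) := by
        rw [hhh]
        simp only [pow_add]
        ring
      have hcop : IsCoprime (q : ℤ) (2 ^ s) := by
        apply IsCoprime.pow_right
        rw [Int.isCoprime_iff_gcd_eq_one]
        have : Nat.Coprime q 2 := by
          rw [Nat.coprime_two_right]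
          exact Nat.odd_iff.mpr hodd
        exact_mod_cast this
      have h2 : (q : ℤ) ∣ (2 : ℤ) ^ x.1 + 2 ^ x.2 - 2 ^ y.1 - 2 ^ y.2 := by
        have := hy.2
        rw [h1] at this
        exact hcop.dvd_of_dvd_mul_left this
      have hb : ∀ a b : ℕ, a < l → b < l → (2 : ℤ) ≤ 2 ^ a + 2 ^ b ∧ (2 : ℤ) ^ a + 2 ^ b ≤ 2 ^ l := by
        intro a b ha hb
        have p1 : (1 : ℤ) ≤ 2 ^ a := one_le_pow₀ (by norm_num)
        have p2 : (1 : ℤ) ≤ 2 ^ b := one_le_pow₀ (by norm_num)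
        have p3 : (2 : ℤ) ^ a ≤ 2 ^ (l - 1) := pow_le_pow_right₀ (by norm_num) (by omega)
        have p4 : (2 : ℤ) ^ b ≤ 2 ^ (l - 1) := pow_le_pow_right₀ (by norm_num) (by omega)
        have p5 : (2 : ℤ) ^ l = 2 * 2 ^ (l - 1) := by
          rw [← pow_succ']
          congr 1
          omega
        constructor <;> linarith
      have hx3 := hb _ _ hx1 hx2
      have hy3 := hb _ _ hy11 hy12
      have hlq : (2 : ℤ) ^ l ≤ q := by exact_mod_cast hl
      have h3 : (2 : ℤ) ^ x.1 + 2 ^ x.2 - 2 ^ y.1 - 2 ^ y.2 = 0 := by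
        apply Int.eq_zero_of_abs_lt_dvd h2
        rw [abs_lt]
        constructor <;> linarith
      have h4 : 2 ^ x.1 + 2 ^ x.2 = 2 ^ y.1 + 2 ^ y.2 := by
        have : (2 : ℤ) ^ x.1 + 2 ^ x.2 = 2 ^ y.1 + 2 ^ y.2 := by linarith
        exact_mod_cast this
      rw [mem_insert, mem_singleton]
      rcases pow_add_pow_eq h4 with h | h
      · left; exact Prod.ext h.1 h.2
      · right; exact Prod.ext h.1 h.2
    have h5 : ((Q.filter (fun y => (q : ℤ) ∣ hh x y)).card : ℝ) ≤ 2 := by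
      exact_mod_cast (card_le_card hsub).trans card_le_two
    exact mul_le_mul_of_nonneg_right h5 (Nat.cast_nonneg _)
  calc ∑ x ∈ Q, ∑ y ∈ Q, (if (q : ℤ) ∣ hh x y then (q : ℝ) else 0) ≤ ∑ x ∈ Q, 2 * (q : ℝ) :=
        sum_le_sum e4
    _ = (Q.card : ℝ) * (2 * q) := by rw [sum_const, nsmul_eq_mul]
    _ ≤ (l : ℝ) ^ 2 * (2 * q) := by
        apply mul_le_mul_of_nonneg_right _ (by positivity)
        rw [hQ, card_product]
        push_cast
        have : (D.card : ℝ) ≤ l := by exact_mod_cast hDcard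
        nlinarith [Nat.cast_nonneg (α := ℝ) D.card]
    _ = 2 * q * (l : ℝ) ^ 2 := by ring

/-- the exponential sum -/
noncomputable def TT (B : ℕ) (x : ℝ) : ℂ := ∑ j ∈ range B, ex (x * (2 ^ (j + 2) : ℕ))

lemma TT_norm_le (B : ℕ) (x : ℝ) : ‖TT B x‖ ≤ B := by
  unfold TT
  calc ‖∑ j ∈ range B, ex (x * (2 ^ (j + 2) : ℕ))‖ ≤ ∑ j ∈ range B, ‖ex (x * (2 ^ (j + 2) : ℕ))‖ :=
        norm_sum_le _ _
    _ = B := by simp [norm_ex]

lemma pow4_sum_le {ι : Type*} (s : Finset ι) (f : ι → ℝ) :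
    (∑ i ∈ s, f i) ^ 4 ≤ (s.card : ℝ) ^ 3 * ∑ i ∈ s, f i ^ 4 := by
  have h1 : (∑ i ∈ s, f i) ^ 2 ≤ s.card * ∑ i ∈ s, f i ^ 2 := sq_sum_le_card_mul_sum_sq
  have h2 : (∑ i ∈ s, f i ^ 2) ^ 2 ≤ s.card * ∑ i ∈ s, (f i ^ 2) ^ 2 := sq_sum_le_card_mul_sum_sq
  have h3 : 0 ≤ (∑ i ∈ s, f i) ^ 2 := sq_nonneg _
  calc (∑ i ∈ s, f i) ^ 4 = ((∑ i ∈ s, f i) ^ 2) ^ 2 := by ring
    _ ≤ (s.card * ∑ i ∈ s, f i ^ 2) ^ 2 := pow_le_pow_left₀ h3 h1 2
    _ = (s.card : ℝ) ^ 2 * (∑ i ∈ s, f i ^ 2) ^ 2 := by ring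
    _ ≤ (s.card : ℝ) ^ 2 * (s.card * ∑ i ∈ s, (f i ^ 2) ^ 2) :=
        mul_le_mul_of_nonneg_left h2 (by positivity)
    _ = (s.card : ℝ) ^ 3 * ∑ i ∈ s, (f i ^ 2) ^ 2 := by ring
    _ = _ := by
        congr 1
        apply sum_congr rfl
        intro i _
        ring

/-- Fourth moment over all fractions with a given odd denominator. -/
lemma TT_fourth {q : ℕ} (hq1 : 1 < q) (hodd : q % 2 = 1) (B : ℕ) :
    ∑ r ∈ range q, ‖TT B ((r : ℝ) / q)‖ ^ 4 ≤
      ((B / Nat.log 2 q + 1 : ℕ) : ℝ) ^ 4 * (2 * q * (Nat.log 2 q : ℝ) ^ 2) := by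
  set l := Nat.log 2 q with hl
  have hl1 : 1 ≤ l := Nat.log_pos (by norm_num) (by omega)
  have hlq : 2 ^ l ≤ q := Nat.pow_log_le_self 2 (by omega)
  set J := B / l + 1 with hJ
  set D : ℕ → Finset ℕ := fun i => (range l).filter (fun j => i * l + j < B) with hD
  have hsplit : ∀ x : ℝ, TT B x = ∑ i ∈ range J, ∑ j ∈ D i, ex (x * (2 ^ (j + (i * l + 2)) : ℕ)) := by
    intro x
    unfold TT
    rw [sum_sigma']
    symm
    apply sum_nbij' (fun y : (_ : ℕ) × ℕ => y.1 * l + y.2) (fun j => ⟨j / l, j % l⟩)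
    · intro y hy
      rw [mem_sigma, hD] at hy
      simp only [mem_filter, mem_range] at hy
      exact mem_range.mpr hy.2.2
    · intro j hj
      rw [mem_range] at hj
      rw [mem_sigma, hD]
      simp only [mem_filter, mem_range]
      refine ⟨?_, Nat.mod_lt _ hl1, ?_⟩
      · rw [hJ]
        have := Nat.div_le_div_right (c := l) hj.le
        omega
      · have := Nat.div_add_mod j l
        rw [mul_comm] at this
        omega
    · intro y hy
      rw [mem_sigma, hD] at hy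
      simp only [mem_filter, mem_range] at hy
      obtain ⟨i, j⟩ := y
      simp only at hy ⊢
      have h1 : (i * l + j) / l = i := by
        rw [mul_comm, Nat.mul_add_div hl1, Nat.div_eq_of_lt hy.2.1, add_zero]
      have h2 : (i * l + j) % l = j := by
        rw [mul_comm, Nat.mul_add_mod, Nat.mod_eq_of_lt hy.2.1]
      rw [h1, h2]
    · intro j _
      simp only
      rw [mul_comm]
      exact Nat.div_add_mod j l
    · intro y _
      congr 3
      ring
  calc ∑ r ∈ range q, ‖TT B ((r : ℝ) / q)‖ ^ 4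
      ≤ ∑ r ∈ range q, (J : ℝ) ^ 3 * ∑ i ∈ range J,
          ‖∑ j ∈ D i, ex ((r : ℝ) / q * (2 ^ (j + (i * l + 2)) : ℕ))‖ ^ 4 := by
        apply sum_le_sum
        intro r _
        rw [hsplit]
        calc ‖∑ i ∈ range J, ∑ j ∈ D i, ex ((r : ℝ) / q * (2 ^ (j + (i * l + 2)) : ℕ))‖ ^ 4
            ≤ (∑ i ∈ range J, ‖∑ j ∈ D i, ex ((r : ℝ) / q * (2 ^ (j + (i * l + 2)) : ℕ))‖) ^ 4 :=
              pow_le_pow_left₀ (norm_nonneg _) (norm_sum_le _ _) 4
          _ ≤ _ := by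
              have := pow4_sum_le (range J)
                (fun i => ‖∑ j ∈ D i, ex ((r : ℝ) / q * (2 ^ (j + (i * l + 2)) : ℕ))‖)
              rw [card_range] at this
              exact this
    _ = (J : ℝ) ^ 3 * ∑ i ∈ range J, ∑ r ∈ range q,
          ‖∑ j ∈ D i, ex ((r : ℝ) / q * (2 ^ (j + (i * l + 2)) : ℕ))‖ ^ 4 := by
        rw [← mul_sum, sum_comm]
    _ ≤ (J : ℝ) ^ 3 * ∑ i ∈ range J, (2 * q * (l : ℝ) ^ 2) := by
        apply mul_le_mul_of_nonneg_left _ (by positivity)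
        apply sum_le_sum
        intro i _
        apply fourth_moment hq1 hodd hlq
        intro j hj
        rw [hD] at hj
        simp only [mem_filter, mem_range] at hj
        exact hj.1
    _ = (J : ℝ) ^ 4 * (2 * q * (l : ℝ) ^ 2) := by
        rw [sum_const, card_range, nsmul_eq_mul]
        ring

/-- For small denominators there is a fixed saving. -/
lemma TT_small {q r : ℕ} (hq1 : 1 < q) (hodd : q % 2 = 1) (hr : ¬ q ∣ r) (B : ℕ) :
    ‖TT B ((r : ℝ) / q)‖ ≤ B - 4 / (q : ℝ) ^ 2 * (B / 2 : ℕ) := by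
  have hq0 : (0 : ℝ) < q := by exact_mod_cast (show 0 < q by omega)
  -- the saving for two consecutive terms
  have hpair : ∀ j : ℕ, ‖ex ((r : ℝ) / q * (2 ^ (j + 2) : ℕ)) + ex ((r : ℝ) / q * (2 ^ (j + 1 + 2) : ℕ))‖
      ≤ 2 - 4 / (q : ℝ) ^ 2 := by
    intro j
    set t : ℝ := (r : ℝ) / q * (2 ^ (j + 2) : ℕ) with ht
    have e1 : ex ((r : ℝ) / q * (2 ^ (j + 1 + 2) : ℕ)) = ex t * ex t := by
      rw [← ex_add]
      congr 1
      rw [ht]
      push_cast
      ring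
    rw [e1]
    have e2 : ex t + ex t * ex t = ex t * (1 + ex t) := by ring
    rw [e2, norm_mul, norm_ex, one_mul]
    -- distance of t to the integers
    have hdist : 1 / (q : ℝ) ≤ |t - round t| := by
      have h1 : (t - round t) * q = ((r * 2 ^ (j + 2) : ℕ) : ℤ) - (round t) * q := by
        rw [ht]
        push_cast
        field_simp
      have h2 : (((r * 2 ^ (j + 2) : ℕ) : ℤ) - (round t) * q) ≠ 0 := by
        intro h
        have h3 : (q : ℤ) ∣ ((r * 2 ^ (j + 2) : ℕ) : ℤ) := ⟨round t, by linarith⟩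
        have h4 : q ∣ r * 2 ^ (j + 2) := by exact_mod_cast h3
        have hcop : Nat.Coprime q (2 ^ (j + 2)) := by
          apply Nat.Coprime.pow_right
          rw [Nat.coprime_two_right]
          exact Nat.odd_iff.mpr hodd
        exact hr (hcop.dvd_of_dvd_mul_right h4)
      have h3 : (1 : ℝ) ≤ |(t - round t) * q| := by
        have h4 : (1 : ℤ) ≤ |((r * 2 ^ (j + 2) : ℕ) : ℤ) - (round t) * q| := Int.one_le_abs h2
        have h5 : ((1 : ℤ) : ℝ) ≤ ((|((r * 2 ^ (j + 2) : ℕ) : ℤ) - (round t) * q| : ℤ) : ℝ) := by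
          exact_mod_cast h4
        rw [h1]
        push_cast at h5 ⊢
        exact h5
      rw [abs_mul, abs_of_pos hq0] at h3
      rw [div_le_iff₀ hq0]
      exact h3
    have h1 : 4 / (q : ℝ) ≤ ‖ex t - 1‖ := by
      have h2 : ex t = ex (t - round t) := by
        have : t = (t - round t) + (round t : ℤ) := by ring
        conv_lhs => rw [this]
        rw [ex_add_int]
      rw [h2]
      have h3 := ex_sub_one (t - round t) (abs_sub_round t)
      calc 4 / (q : ℝ) = 4 * (1 / q) := by ring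
        _ ≤ 4 * |t - round t| := by linarith
        _ ≤ _ := h3
    have hpar : ‖1 + ex t‖ ^ 2 + ‖ex t - 1‖ ^ 2 = 4 := by
      have h2 := parallelogram_law_with_norm ℂ (ex t) 1
      rw [norm_ex, norm_one] at h2
      rw [add_comm 1 (ex t)]
      nlinarith
    have h2 : (4 / (q : ℝ)) ^ 2 ≤ ‖ex t - 1‖ ^ 2 := pow_le_pow_left₀ (by positivity) h1 2
    have hq4 : 4 / (q : ℝ) ^ 2 ≤ 1 := by
      rw [div_le_one (by positivity)]
      have : (2 : ℝ) ≤ q := by exact_mod_cast hq1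
      nlinarith
    have h3 : ‖1 + ex t‖ ^ 2 ≤ (2 - 4 / (q : ℝ) ^ 2) ^ 2 := by
      have h4 : (4 / (q : ℝ)) ^ 2 = 16 / (q : ℝ) ^ 2 := by rw [div_pow]; norm_num
      rw [h4] at h2
      have h5 : (2 - 4 / (q : ℝ) ^ 2) ^ 2 = 4 - 16 / (q : ℝ) ^ 2 + (4 / (q : ℝ) ^ 2) ^ 2 := by ring
      rw [h5]
      have : 0 ≤ (4 / (q : ℝ) ^ 2) ^ 2 := by positivity
      linarith
    exact (pow_le_pow_iff_left₀ (norm_nonneg _) (by linarith) two_ne_zero).mp h3
  -- two-step induction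
  have key : ∀ B : ℕ, ‖TT B ((r : ℝ) / q)‖ ≤ B - 4 / (q : ℝ) ^ 2 * (B / 2 : ℕ) ∧
      ‖TT (B + 1) ((r : ℝ) / q)‖ ≤ (B + 1 : ℕ) - 4 / (q : ℝ) ^ 2 * ((B + 1) / 2 : ℕ) := by
    intro B
    induction B with
    | zero =>
      constructor
      · have := TT_norm_le 0 ((r : ℝ) / q)
        simpa using this
      · have := TT_norm_le 1 ((r : ℝ) / q)
        simpa using this
    | succ B ih =>
      refine ⟨ih.2, ?_⟩
      have h1 : TT (B + 1 + 1) ((r : ℝ) / q) = TT B ((r : ℝ) / q) +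
          (ex ((r : ℝ) / q * (2 ^ (B + 2) : ℕ)) + ex ((r : ℝ) / q * (2 ^ (B + 1 + 2) : ℕ))) := by
        unfold TT
        rw [sum_range_succ, sum_range_succ]
        ring
      rw [h1]
      have h2 : ((B + 1 + 1) / 2 : ℕ) = B / 2 + 1 := by omega
      rw [h2]
      push_cast
      have h3 := norm_add_le (TT B ((r : ℝ) / q))
        (ex ((r : ℝ) / q * (2 ^ (B + 2) : ℕ)) + ex ((r : ℝ) / q * (2 ^ (B + 1 + 2) : ℕ)))
      have h4 := hpair B
      have h5 := ih.1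
      push_cast at h3 h4 h5
      linarith
  exact (key B).1

end Pool.Agent.TwoSqPow
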