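import Mathlib
import Pool.Agent.TwoSqPow.PowSum
import Pool.Agent.TwoSqPow.Hyperbola

set_option autoImplicit false

/-!
Expansion of the counting function into additive characters, and its mean square.
-/

namespace Pool.Agent.TwoSqPow

open Finset Complex

/-- pairs `(d, r)` with `1 ≤ d ≤ Z`, `r < d` -/
def PR (Z : ℕ) : Finset ((_ : ℕ) × ℕ) := (Icc 1 Z).sigma (fun d => range d)

/-- the fraction of a pair -/
def frac (y : (_ : ℕ) × ℕ) : ℚ := (y.2 : ℚ) / y.1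

/-- the rationals in `[0,1)` with denominator `≤ Z` -/
def RQ (Z : ℕ) : Finset ℚ := (PR Z).image frac

lemma mem_PR {Z : ℕ} {y : (_ : ℕ) × ℕ} : y ∈ PR Z ↔ (1 ≤ y.1 ∧ y.1 ≤ Z) ∧ y.2 < y.1 := by
  unfold PR
  rw [mem_sigma, mem_Icc, mem_range]

lemma frac_den_dvd (y : (_ : ℕ) × ℕ) : (frac y).den ∣ y.1 := by
  unfold frac
  have := Rat.den_dvd (y.2 : ℤ) (y.1 : ℤ)
  rw [Rat.divInt_eq_div] at this
  simp only [Int.cast_natCast] at this
  exact Int.natCast_dvd_natCast.mp this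

lemma RQ_spec {Z : ℕ} {x : ℚ} (hx : x ∈ RQ Z) : 0 ≤ x ∧ x < 1 ∧ x.den ≤ Z := by
  unfold RQ at hx
  rw [mem_image] at hx
  obtain ⟨y, hy, rfl⟩ := hx
  rw [mem_PR] at hy
  have h0 : (0 : ℚ) < y.1 := by exact_mod_cast hy.1.1
  refine ⟨by unfold frac; positivity, ?_, ?_⟩
  · unfold frac
    rw [div_lt_one h0]
    exact_mod_cast hy.2
  · exact (Nat.le_of_dvd hy.1.1 (frac_den_dvd y)).trans hy.1.2

lemma RQ_num {Z : ℕ} {x : ℚ} (hx : x ∈ RQ Z) : (x.num.toNat : ℤ) = x.num ∧ x.num.toNat < x.den := by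
  obtain ⟨h0, h1, _⟩ := RQ_spec hx
  have h2 : 0 ≤ x.num := Rat.num_nonneg.mpr h0
  have h3 : (x.num.toNat : ℤ) = x.num := Int.toNat_of_nonneg h2
  refine ⟨h3, ?_⟩
  have h4 : x.num < x.den := by
    exact Rat.num_lt_denom_iff.mpr h1
  omega

lemma RQ_eq {Z : ℕ} {x : ℚ} (hx : x ∈ RQ Z) : (x.num.toNat : ℚ) / x.den = x := by
  have h := (RQ_num hx).1
  have h2 : ((x.num.toNat : ℕ) : ℚ) = (x.num : ℚ) := by exact_mod_cast congrArg (fun z : ℤ => (z : ℚ)) h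
  rw [h2]
  exact Rat.num_div_den x

lemma regroup (Z : ℕ) (φ : ℕ → ℂ) (Ψ : ℚ → ℂ) :
    ∑ d ∈ Icc 1 Z, ∑ r ∈ range d, φ d * Ψ ((r : ℚ) / d) =
      ∑ x ∈ RQ Z, (∑ d ∈ (Icc 1 Z).filter (fun d => x.den ∣ d), φ d) * Ψ x := by
  have h1 : ∑ d ∈ Icc 1 Z, ∑ r ∈ range d, φ d * Ψ ((r : ℚ) / d) =
      ∑ y ∈ PR Z, φ y.1 * Ψ (frac y) := by
    unfold PR
    rw [sum_sigma]
    rfl
  have h2 : ∀ y ∈ PR Z, frac y ∈ RQ Z := fun y hy => mem_image_of_mem _ hy
  rw [h1, ← sum_fiberwise_of_maps_to h2]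
  apply sum_congr rfl
  intro x hx
  have h3 : ∑ y ∈ PR Z with frac y = x, φ y.1 * Ψ (frac y) =
      (∑ y ∈ PR Z with frac y = x, φ y.1) * Ψ x := by
    rw [sum_mul]
    apply sum_congr rfl
    intro y hy
    rw [mem_filter] at hy
    rw [hy.2]
  rw [h3]
  congr 1
  have hx1 := RQ_num hx
  have hx2 := RQ_eq hx
  have hden : 0 < x.den := x.den_pos
  have hfr : ∀ d, 0 < d → x.den ∣ d → ((x.num.toNat * (d / x.den) : ℕ) : ℚ) / d = x := by
    intro d hd hdvd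
    obtain ⟨m, rfl⟩ := hdvd
    rw [Nat.mul_div_cancel_left _ hden]
    have hm : 0 < m := Nat.pos_of_ne_zero (by rintro rfl; simp at hd)
    have hm' : (m : ℚ) ≠ 0 := by exact_mod_cast hm.ne'
    push_cast
    rw [mul_div_mul_right _ _ hm']
    exact hx2
  apply sum_nbij' (fun y : (_ : ℕ) × ℕ => y.1) (fun d => ⟨d, x.num.toNat * (d / x.den)⟩)
  · intro y hy
    rw [mem_filter, mem_PR] at hy
    rw [mem_filter, mem_Icc]
    exact ⟨hy.1.1, hy.2 ▸ frac_den_dvd y⟩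
  · intro d hd
    rw [mem_filter, mem_Icc] at hd
    rw [mem_filter, mem_PR]
    refine ⟨⟨hd.1, ?_⟩, ?_⟩
    · obtain ⟨m, hm⟩ := hd.2
      have hm0 : 0 < m := Nat.pos_of_ne_zero (by rintro rfl; simp at hm; omega)
      simp only
      rw [hm, Nat.mul_div_cancel_left _ hden]
      exact Nat.mul_lt_mul_of_pos_right hx1.2 hm0
    · exact hfr d hd.1.1 hd.2
  · intro y hy
    rw [mem_filter, mem_PR] at hy
    obtain ⟨d, r⟩ := y
    simp only at hy ⊢
    have hdvd : x.den ∣ d := hy.2 ▸ frac_den_dvd ⟨d, r⟩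
    have h4 := hfr d hy.1.1.1 hdvd
    have h5 : ((x.num.toNat * (d / x.den) : ℕ) : ℚ) / d = (r : ℚ) / d := by
      rw [h4, ← hy.2]
      rfl
    have hd0 : (d : ℚ) ≠ 0 := by exact_mod_cast (show d ≠ 0 by omega)
    rw [div_left_inj' hd0] at h5
    have h6 : x.num.toNat * (d / x.den) = r := by exact_mod_cast h5
    rw [h6]
  · intro d _
    rfl
  · intro y _
    rfl

/-- the shift belonging to a tuple of exponents -/
def hs {k : ℕ} (b : Fin k → ℕ) : ℕ := ∑ i, 2 ^ (b i + 2)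

/-- the exponent tuples -/
def BB (k B : ℕ) : Finset (Fin k → ℕ) := Fintype.piFinset (fun _ => range B)

lemma card_BB (k B : ℕ) : (BB k B).card = B ^ k := by
  unfold BB
  simp

/-- the weighted counting function -/
noncomputable def GG (k B Z : ℕ) (N : ℤ) : ℝ :=
  ∑ b ∈ BB k B, ∑ d ∈ Icc 1 Z, if (d : ℤ) ∣ N - hs b then chi d else 0

lemma GG_expand (k B Z : ℕ) (N : ℤ) : ((GG k B Z N : ℝ) : ℂ) =
    ∑ x ∈ RQ Z, ((cq Z x.den : ℝ) : ℂ) * ((starRingEnd ℂ) (TT B x)) ^ k * ex (N * x) := by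
  have h1 : ∀ (m : ℤ) (d : ℕ), d ∈ Icc 1 Z →
      (((if (d : ℤ) ∣ m then chi d else 0 : ℝ)) : ℂ) =
        ∑ r ∈ range d, (((chi d / d : ℝ)) : ℂ) * ex ((r : ℝ) / d * m) := by
    intro m d hd
    rw [mem_Icc] at hd
    rw [← mul_sum, ex_sum_range hd.1]
    have hd0 : (d : ℂ) ≠ 0 := by exact_mod_cast (show d ≠ 0 by omega)
    split_ifs
    · push_cast
      field_simp
    · simp
  have h2 : ∀ (x : ℝ), ∑ b ∈ BB k B, ex (-(x * (hs b : ℕ))) = ((starRingEnd ℂ) (TT B x)) ^ k := by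
    intro x
    have e1 : ∀ b ∈ BB k B, ex (-(x * (hs b : ℕ))) = ∏ i, ex (-(x * (2 ^ (b i + 2) : ℕ))) := by
      intro b _
      unfold hs ex
      rw [← Complex.exp_sum]
      congr 1
      rw [← sum_mul]
      congr 1
      push_cast
      rw [mul_sum, ← sum_neg_distrib, mul_sum]
    rw [sum_congr rfl e1]
    unfold BB
    rw [← prod_univ_sum (fun _ : Fin k => range B) (fun _ j => ex (-(x * (2 ^ (j + 2) : ℕ))))]
    rw [prod_const, card_univ, Fintype.card_fin]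
    congr 1
    unfold TT
    rw [map_sum]
    apply sum_congr rfl
    intro j _
    rw [ex_neg]
  unfold GG
  rw [Complex.ofReal_sum]
  have h3 : ∀ b ∈ BB k B, (((∑ d ∈ Icc 1 Z, if (d : ℤ) ∣ N - hs b then chi d else 0 : ℝ)) : ℂ) =
      ∑ d ∈ Icc 1 Z, ∑ r ∈ range d, (((chi d / d : ℝ)) : ℂ) *
        (ex ((r : ℝ) / d * N) * ex (-((r : ℝ) / d * (hs b : ℕ)))) := by
    intro b _
    rw [Complex.ofReal_sum]
    apply sum_congr rfl
    intro d hd
    rw [h1 _ d hd]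
    apply sum_congr rfl
    intro r _
    rw [← ex_add]
    congr 2
    push_cast
    ring
  rw [sum_congr rfl h3, sum_comm]
  have h4 : ∀ d ∈ Icc 1 Z, ∑ b ∈ BB k B, ∑ r ∈ range d, (((chi d / d : ℝ)) : ℂ) *
        (ex ((r : ℝ) / d * N) * ex (-((r : ℝ) / d * (hs b : ℕ)))) =
      ∑ r ∈ range d, (((chi d / d : ℝ)) : ℂ) *
        (((starRingEnd ℂ) (TT B (((r : ℚ) / d : ℚ) : ℝ))) ^ k * ex (N * (((r : ℚ) / d : ℚ) : ℝ))) := by
    intro d _
    rw [sum_comm]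
    apply sum_congr rfl
    intro r _
    rw [← mul_sum, ← mul_sum]
    have := h2 ((r : ℝ) / d)
    rw [this]
    push_cast
    rw [mul_comm ((r : ℝ) / d) (N : ℝ)]
    ring
  rw [sum_congr rfl h4]
  rw [regroup Z (fun d => (((chi d / d : ℝ)) : ℂ))
    (fun x : ℚ => ((starRingEnd ℂ) (TT B (x : ℝ))) ^ k * ex (N * (x : ℝ)))]
  apply sum_congr rfl
  intro x _
  unfold cq
  push_cast
  ring

/-- `GG` minus its main term -/
noncomputable def EE (k B Z : ℕ) (N : ℤ) : ℝ := GG k B Z N - cq Z 1 * (B : ℝ) ^ k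

lemma zero_mem_RQ {Z : ℕ} (hZ : 1 ≤ Z) : (0 : ℚ) ∈ RQ Z := by
  unfold RQ
  rw [mem_image]
  refine ⟨⟨1, 0⟩, mem_PR.mpr ⟨⟨le_refl 1, hZ⟩, by simp⟩, by simp [frac]⟩

lemma EE_expand {k B Z : ℕ} (hZ : 1 ≤ Z) (N : ℤ) : ((EE k B Z N : ℝ) : ℂ) =
    ∑ x ∈ (RQ Z).erase 0, ((cq Z x.den : ℝ) : ℂ) * ((starRingEnd ℂ) (TT B x)) ^ k * ex (N * x) := by
  unfold EE
  rw [Complex.ofReal_sub, GG_expand, ← add_sum_erase _ _ (zero_mem_RQ hZ)]
  have h0 : TT B ((0 : ℚ) : ℝ) = B := by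
    unfold TT
    simp [ex_zero]
  rw [h0]
  have h1 : ex ((N : ℝ) * ((0 : ℚ) : ℝ)) = 1 := by
    simp [ex_zero]
  rw [h1]
  simp

/-- the mean square weight -/
noncomputable def WW (k B Z : ℕ) : ℝ := ∑ x ∈ (RQ Z).erase 0, (cq Z x.den) ^ 2 * ‖TT B x‖ ^ (2 * k)

theorem mean_square {k B Z H : ℕ} (hZ : 1 ≤ Z) (hH : Z ^ 2 ≤ H) :
    ∑ N ∈ range H, (EE k B Z N) ^ 2 ≤ 6 * H * WW k B Z := by
  classical
  have hH0 : 0 < H := by nlinarith
  set R : Finset ℝ := ((RQ Z).erase 0).image (fun x : ℚ => (x : ℝ)) with hR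
  set c₀ : ℚ → ℂ := fun x => ((cq Z x.den : ℝ) : ℂ) * ((starRingEnd ℂ) (TT B x)) ^ k with hc₀
  set c : ℝ → ℂ := fun t => if h : ∃ x : ℚ, (x : ℝ) = t then c₀ h.choose else 0 with hc
  have hcc : ∀ x : ℚ, c x = c₀ x := by
    intro x
    have h : ∃ y : ℚ, (y : ℝ) = (x : ℝ) := ⟨x, rfl⟩
    have h2 : h.choose = x := Rat.cast_injective (h.choose_spec)
    rw [hc]
    simp only [h, dif_pos]
    rw [h2]
  have hinj : Set.InjOn (fun x : ℚ => (x : ℝ)) ((RQ Z).erase 0) :=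
    fun x _ y _ h => Rat.cast_injective h
  have hZ0 : (0 : ℝ) < Z := by exact_mod_cast hZ
  have hsp : ∀ x ∈ R, ∀ y ∈ R, x ≠ y → ∀ n : ℤ, 1 / (Z : ℝ) ^ 2 ≤ |x - y + n| := by
    intro x hx y hy hne n
    rw [hR, mem_image] at hx hy
    obtain ⟨x, hx, rfl⟩ := hx
    obtain ⟨y, hy, rfl⟩ := hy
    have hx' := RQ_spec (mem_of_mem_erase hx)
    have hy' := RQ_spec (mem_of_mem_erase hy)
    have hz : x - y + n ≠ 0 := by
      intro h
      have h1 : (n : ℚ) = y - x := by linarith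
      have h2 : (n : ℚ) < 1 := by rw [h1]; linarith [hx'.1, hy'.2.1]
      have h3 : (-1 : ℚ) < n := by rw [h1]; linarith [hy'.1, hx'.2.1]
      have h4 : n < 1 := by exact_mod_cast h2
      have h5 : -1 < n := by exact_mod_cast h3
      have h6 : n = 0 := by omega
      rw [h6] at h1
      apply hne
      have : x = y := by
        push_cast at h1
        linarith
      rw [this]
    -- clear denominators
    have hint : (x - y + n) * ((x.den : ℚ) * y.den) =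
        ((x.num * y.den - y.num * x.den + n * (x.den * y.den) : ℤ) : ℚ) := by
      have e1 : x * x.den = x.num := Rat.mul_den_eq_num x
      have e2 : y * y.den = y.num := Rat.mul_den_eq_num y
      push_cast
      rw [← e1, ← e2]
      ring
    have hdx : (0 : ℚ) < x.den := by exact_mod_cast x.den_pos
    have hdy : (0 : ℚ) < y.den := by exact_mod_cast y.den_pos
    have hne' : (x.num * y.den - y.num * x.den + n * (x.den * y.den) : ℤ) ≠ 0 := by
      intro h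
      rw [h] at hint
      push_cast at hint
      have := mul_pos hdx hdy
      rcases mul_eq_zero.mp hint with h' | h'
      · exact hz h'
      · linarith
    have h1 : (1 : ℤ) ≤ |(x.num * y.den - y.num * x.den + n * (x.den * y.den) : ℤ)| :=
      Int.one_le_abs hne'
    have h2 : (1 : ℚ) ≤ |x - y + n| * ((x.den : ℚ) * y.den) := by
      have h3 : (1 : ℚ) ≤ |((x.num * y.den - y.num * x.den + n * (x.den * y.den) : ℤ) : ℚ)| := by
        exact_mod_cast h1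
      rw [← hint, abs_mul, abs_of_pos (mul_pos hdx hdy)] at h3
      exact h3
    have h4 : (x.den : ℚ) * y.den ≤ (Z : ℚ) ^ 2 := by
      have a1 : (x.den : ℚ) ≤ Z := by exact_mod_cast hx'.2.2
      have a2 : (y.den : ℚ) ≤ Z := by exact_mod_cast hy'.2.2
      nlinarith
    have h5 : (1 : ℚ) ≤ |x - y + n| * (Z : ℚ) ^ 2 :=
      h2.trans (mul_le_mul_of_nonneg_left h4 (abs_nonneg _))
    have h6 : (1 : ℝ) ≤ |(x : ℝ) - y + n| * (Z : ℝ) ^ 2 := by exact_mod_cast h5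
    rw [div_le_iff₀ (by positivity)]
    exact h6
  have hls := large_sieve (R := R) (δ := 1 / (Z : ℝ) ^ 2) (by positivity) hsp c hH0
  have h1 : ∑ N ∈ range H, ‖∑ x ∈ R, c x * ex (N * x)‖ ^ 2 = ∑ N ∈ range H, (EE k B Z N) ^ 2 := by
    apply sum_congr rfl
    intro N _
    have e1 : ∑ x ∈ R, c x * ex (N * x) = ((EE k B Z N : ℝ) : ℂ) := by
      rw [EE_expand hZ, hR, sum_image hinj]
      apply sum_congr rfl
      intro x _
      rw [hcc, hc₀]
      push_cast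
      rfl
    rw [e1, Complex.norm_real, Real.norm_eq_abs, sq_abs]
  have h2 : ∑ x ∈ R, ‖c x‖ ^ 2 = WW k B Z := by
    unfold WW
    rw [hR, sum_image hinj]
    apply sum_congr rfl
    intro x _
    rw [hcc, hc₀]
    simp only
    rw [norm_mul, norm_pow, RCLike.norm_conj, Complex.norm_real, Real.norm_eq_abs, mul_pow, sq_abs,
      ← pow_mul, mul_comm k 2]
  rw [h1, h2] at hls
  have hW : 0 ≤ WW k B Z := by
    unfold WW
    exact sum_nonneg (fun x _ => by positivity)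
  refine hls.trans (mul_le_mul_of_nonneg_right ?_ hW)
  have hH' : (0 : ℝ) < H := by exact_mod_cast hH0
  have h3 : (Z : ℝ) ^ 2 ≤ H := by exact_mod_cast hH
  have h4 : 2 / ((1 / (Z : ℝ) ^ 2) ^ 2 * H) ≤ 2 * H := by
    rw [div_le_iff₀ (by positivity), div_pow, one_pow]
    have : 2 * (H : ℝ) * (1 / ((Z : ℝ) ^ 2) ^ 2 * H) = 2 * ((H : ℝ) / (Z : ℝ) ^ 2) ^ 2 := by
      field_simp
    rw [this]
    have h5 : 1 ≤ (H : ℝ) / (Z : ℝ) ^ 2 := by rw [le_div_iff₀ (by positivity)]; linarith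
    nlinarith
  linarith

end Pool.Agent.TwoSqPow
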