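import Mathlib
import Pool.Agent.TwoSqPow.Expand

set_option autoImplicit false

/-!
The mean square weight is small compared with the square of the main term.
-/

namespace Pool.Agent.TwoSqPow

open Finset Complex

lemma fiber_sum (Z q : ℕ) (g : ℚ → ℝ) (hg : ∀ x, 0 ≤ g x) :
    ∑ x ∈ (RQ Z).filter (fun x => x.den = q), g x ≤
      ∑ r ∈ (range q).filter (fun r => Nat.Coprime r q), g ((r : ℚ) / q) := by
  have hsub : (RQ Z).filter (fun x => x.den = q) ⊆
      ((range q).filter (fun r => Nat.Coprime r q)).image (fun r : ℕ => (r : ℚ) / q) := by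
    intro x hx
    rw [mem_filter] at hx
    obtain ⟨hx, rfl⟩ := hx
    have h1 := RQ_num hx
    have h2 := RQ_eq hx
    rw [mem_image]
    refine ⟨x.num.toNat, ?_, h2⟩
    rw [mem_filter, mem_range]
    refine ⟨h1.2, ?_⟩
    have h3 := x.reduced
    have h4 : x.num.natAbs = x.num.toNat := by omega
    rw [h4] at h3
    exact h3
  exact (sum_le_sum_of_subset_of_nonneg hsub (fun i _ _ => hg i)).trans
    (sum_image_le_of_nonneg (fun i _ => hg _))

lemma dyadic_sum {i₀ : ℕ} (hi : 2 ≤ i₀) (n : ℕ) (hn : i₀ ≤ n) :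
    ∑ q ∈ Ico (2 ^ i₀) (2 ^ n), (1 : ℝ) / (q * (Nat.log 2 q : ℝ) ^ 2) ≤
      1 / ((i₀ : ℝ) - 1) - 1 / ((n : ℝ) - 1) := by
  induction n, hn using Nat.le_induction with
  | base => simp
  | succ n hn ih =>
    have h1 : Ico (2 ^ i₀) (2 ^ (n + 1)) = Ico (2 ^ i₀) (2 ^ n) ∪ Ico (2 ^ n) (2 ^ (n + 1)) := by
      rw [Ico_union_Ico_eq_Ico]
      · exact Nat.pow_le_pow_right (by norm_num) hn
      · exact Nat.pow_le_pow_right (by norm_num) (by omega)
    have hdisj : Disjoint (Ico (2 ^ i₀) (2 ^ n)) (Ico (2 ^ n) (2 ^ (n + 1))) := by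
      rw [disjoint_left]
      intro x h2 h3
      rw [mem_Ico] at h2 h3
      omega
    rw [h1, sum_union hdisj]
    have hn2 : (2 : ℝ) ≤ n := by exact_mod_cast hi.trans hn
    have h2 : ∑ q ∈ Ico (2 ^ n) (2 ^ (n + 1)), (1 : ℝ) / (q * (Nat.log 2 q : ℝ) ^ 2) ≤
        1 / (n : ℝ) ^ 2 := by
      calc ∑ q ∈ Ico (2 ^ n) (2 ^ (n + 1)), (1 : ℝ) / (q * (Nat.log 2 q : ℝ) ^ 2)
          ≤ ∑ q ∈ Ico (2 ^ n) (2 ^ (n + 1)), (1 : ℝ) / (2 ^ n * (n : ℝ) ^ 2) := by
            apply sum_le_sum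
            intro q hq
            rw [mem_Ico] at hq
            have hlog : Nat.log 2 q = n := by
              rw [Nat.log_eq_iff (by right; exact ⟨by norm_num, by have := Nat.one_le_two_pow (n := n); omega⟩)]
              exact hq
            rw [hlog]
            apply one_div_le_one_div_of_le (by positivity)
            apply mul_le_mul_of_nonneg_right _ (by positivity)
            exact_mod_cast hq.1
        _ = 1 / (n : ℝ) ^ 2 := by
            rw [sum_const, Nat.card_Ico, nsmul_eq_mul]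
            have : 2 ^ (n + 1) - 2 ^ n = 2 ^ n := by rw [pow_succ]; omega
            rw [this]
            push_cast
            field_simp
    have h3 : 1 / (n : ℝ) ^ 2 ≤ 1 / ((n : ℝ) - 1) - 1 / (((n + 1 : ℕ) : ℝ) - 1) := by
      push_cast
      rw [add_sub_cancel_right, div_sub_div _ _ (by linarith) (by linarith),
        div_le_div_iff₀ (by positivity) (by nlinarith)]
      nlinarith
    linarith

theorem WW_bound {k B Z i₀ : ℕ} (hk : 2 ≤ k) (hi : 2 ≤ i₀) (hB : i₀ ≤ B) (hZB : Z ≤ 2 ^ B) :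
    WW k B Z ≤ (B : ℝ) ^ (2 * k) *
      (2 ^ i₀ * (1 - 1 / (2 ^ i₀ : ℝ) ^ 2) ^ (2 * k) + 32 / ((i₀ : ℝ) - 1)) := by
  classical
  set Q₀ : ℕ := 2 ^ i₀ with hQ₀
  have hQ₀R : ((Q₀ : ℕ) : ℝ) = 2 ^ i₀ := by rw [hQ₀]; push_cast; rfl
  have hQ₀1 : (1 : ℝ) ≤ Q₀ := by rw [hQ₀R]; exact one_le_pow₀ (by norm_num)
  rw [← hQ₀R]
  set ρ : ℝ := 1 - 1 / (Q₀ : ℝ) ^ 2 with hρ
  have hρ0 : 0 ≤ ρ := by
    rw [hρ, sub_nonneg, div_le_one (by positivity)]
    exact one_le_pow₀ hQ₀1
  have hB2 : 2 ≤ B := hi.trans hB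
  have hB0 : (0 : ℝ) < B := by exact_mod_cast (show 0 < B by omega)
  set F : ℚ → ℝ := fun x => (cq Z x.den) ^ 2 * ‖TT B x‖ ^ (2 * k) with hF
  have hF0 : ∀ x, 0 ≤ F x := fun x => by rw [hF]; positivity
  have hmaps : ∀ x ∈ (RQ Z).erase 0, x.den ∈ Icc 2 Z := by
    intro x hx
    have hx1 := RQ_spec (mem_of_mem_erase hx)
    have hx0 := (mem_erase.mp hx).1
    rw [mem_Icc]
    refine ⟨?_, hx1.2.2⟩
    by_contra hcon
    push Not at hcon
    have hd := x.den_pos
    have hd1 : x.den = 1 := by omega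
    have h2 := RQ_num (mem_of_mem_erase hx)
    rw [hd1] at h2
    have h3 : x.num = 0 := by omega
    exact hx0 (Rat.num_eq_zero.mp h3)
  -- bound for one denominator
  have hden : ∀ q ∈ Icc 2 Z, ∑ x ∈ ((RQ Z).erase 0).filter (fun x => x.den = q), F x ≤
      (if q < Q₀ then (B : ℝ) ^ (2 * k) * ρ ^ (2 * k) else 0) +
      (if Q₀ ≤ q then 32 * (B : ℝ) ^ (2 * k) * (1 / (q * (Nat.log 2 q : ℝ) ^ 2)) else 0) := by
    intro q hq
    rw [mem_Icc] at hq
    have hq0 : (0 : ℝ) < q := by exact_mod_cast (show 0 < q by omega)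
    have hle : ∑ x ∈ ((RQ Z).erase 0).filter (fun x => x.den = q), F x ≤
        ∑ x ∈ (RQ Z).filter (fun x => x.den = q), F x := by
      apply sum_le_sum_of_subset_of_nonneg
      · intro x hx
        rw [mem_filter] at hx ⊢
        exact ⟨mem_of_mem_erase hx.1, hx.2⟩
      · intro i _ _; exact hF0 i
    have hnn : 0 ≤ (if q < Q₀ then (B : ℝ) ^ (2 * k) * ρ ^ (2 * k) else 0) +
      (if Q₀ ≤ q then 32 * (B : ℝ) ^ (2 * k) * (1 / (q * (Nat.log 2 q : ℝ) ^ 2)) else 0) := by
      split_ifs <;> positivity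
    by_cases hodd : q % 2 = 0
    · refine hle.trans (le_trans (le_of_eq ?_) hnn)
      apply sum_eq_zero
      intro x hx
      rw [mem_filter] at hx
      rw [hF]
      simp only
      rw [hx.2, cq_even (by omega) hodd]
      simp
    · have hodd' : q % 2 = 1 := by omega
      have hcq : (cq Z q) ^ 2 ≤ 1 / (q : ℝ) ^ 2 := by
        have h1 := abs_cq_le (Z := Z) (q := q) (by omega)
        rw [← sq_abs]
        calc |cq Z q| ^ 2 ≤ (1 / (q : ℝ)) ^ 2 := pow_le_pow_left₀ (abs_nonneg _) h1 2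
          _ = 1 / (q : ℝ) ^ 2 := by rw [div_pow, one_pow]
      have h2 : ∑ x ∈ (RQ Z).filter (fun x => x.den = q), F x ≤
          1 / (q : ℝ) ^ 2 * ∑ r ∈ (range q).filter (fun r => Nat.Coprime r q),
            ‖TT B ((r : ℝ) / q)‖ ^ (2 * k) := by
        have h3 : ∑ x ∈ (RQ Z).filter (fun x => x.den = q), F x ≤
            ∑ x ∈ (RQ Z).filter (fun x => x.den = q), 1 / (q : ℝ) ^ 2 * ‖TT B (x : ℝ)‖ ^ (2 * k) := by
          apply sum_le_sum
          intro x hx
          rw [mem_filter] at hx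
          rw [hF]
          simp only
          rw [hx.2]
          exact mul_le_mul_of_nonneg_right hcq (by positivity)
        rw [← mul_sum] at h3
        refine h3.trans (mul_le_mul_of_nonneg_left ?_ (by positivity))
        have := fiber_sum Z q (fun x => ‖TT B (x : ℝ)‖ ^ (2 * k)) (fun x => by positivity)
        push_cast at this
        exact this
      refine (hle.trans h2).trans ?_
      by_cases hqQ : q < Q₀
      · rw [if_pos hqQ, if_neg (by omega), add_zero]
        have h3 : ∀ r ∈ (range q).filter (fun r => Nat.Coprime r q),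
            ‖TT B ((r : ℝ) / q)‖ ^ (2 * k) ≤ (B * ρ) ^ (2 * k) := by
          intro r hr
          rw [mem_filter] at hr
          have hnd : ¬ q ∣ r := by
            intro h
            have := Nat.Coprime.eq_one_of_dvd hr.2.symm h
            omega
          have h4 := TT_small (show 1 < q by omega) hodd' hnd B
          apply pow_le_pow_left₀ (norm_nonneg _)
          refine h4.trans ?_
          have h5 : (B : ℝ) / 4 ≤ ((B / 2 : ℕ) : ℝ) := by
            have h6 : B ≤ 2 * (B / 2) + 1 := by omega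
            have h7 : (B : ℝ) ≤ 2 * ((B / 2 : ℕ) : ℝ) + 1 := by exact_mod_cast h6
            have h8 : (2 : ℝ) ≤ B := by exact_mod_cast hB2
            linarith
          have h9 : 1 / (Q₀ : ℝ) ^ 2 ≤ 1 / (q : ℝ) ^ 2 := by
            apply one_div_le_one_div_of_le (by positivity)
            apply pow_le_pow_left₀ hq0.le
            exact_mod_cast hqQ.le
          have h10 : (B : ℝ) * (1 / (Q₀ : ℝ) ^ 2) ≤ 4 / (q : ℝ) ^ 2 * ((B / 2 : ℕ) : ℝ) := by
            calc (B : ℝ) * (1 / (Q₀ : ℝ) ^ 2) ≤ B * (1 / (q : ℝ) ^ 2) :=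
                  mul_le_mul_of_nonneg_left h9 hB0.le
              _ = 4 / (q : ℝ) ^ 2 * (B / 4) := by ring
              _ ≤ 4 / (q : ℝ) ^ 2 * ((B / 2 : ℕ) : ℝ) :=
                  mul_le_mul_of_nonneg_left h5 (by positivity)
          rw [hρ]
          linarith
        have h4 := sum_le_sum h3
        rw [sum_const, nsmul_eq_mul] at h4
        have hcard : (((range q).filter (fun r => Nat.Coprime r q)).card : ℝ) ≤ q := by
          have := card_filter_le (range q) (fun r => Nat.Coprime r q)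
          rw [card_range] at this
          exact_mod_cast this
        have hBρ : 0 ≤ (B * ρ) ^ (2 * k) := by positivity
        calc 1 / (q : ℝ) ^ 2 * ∑ r ∈ (range q).filter (fun r => Nat.Coprime r q),
            ‖TT B ((r : ℝ) / q)‖ ^ (2 * k) ≤ 1 / (q : ℝ) ^ 2 * (q * (B * ρ) ^ (2 * k)) := by
              apply mul_le_mul_of_nonneg_left _ (by positivity)
              exact h4.trans (mul_le_mul_of_nonneg_right hcard hBρ)
          _ = 1 / (q : ℝ) * ((B : ℝ) ^ (2 * k) * ρ ^ (2 * k)) := by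
              rw [mul_pow]
              field_simp
          _ ≤ 1 * ((B : ℝ) ^ (2 * k) * ρ ^ (2 * k)) := by
              apply mul_le_mul_of_nonneg_right _ (by positivity)
              rw [div_le_one hq0]
              exact_mod_cast (show 1 ≤ q by omega)
          _ = _ := one_mul _
      · rw [if_neg hqQ, if_pos (by omega), zero_add]
        set l := Nat.log 2 q with hl
        have hl1 : 1 ≤ l := Nat.log_pos (by norm_num) hq.1
        have hlB : l ≤ B := by
          rw [hl]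
          calc Nat.log 2 q ≤ Nat.log 2 (2 ^ B) := Nat.log_mono_right (hq.2.trans hZB)
            _ = B := Nat.log_pow (by norm_num) B
        have hl0 : (0 : ℝ) < l := by exact_mod_cast hl1
        have h3 : ∑ r ∈ (range q).filter (fun r => Nat.Coprime r q), ‖TT B ((r : ℝ) / q)‖ ^ (2 * k)
            ≤ (B : ℝ) ^ (2 * k - 4) * ∑ r ∈ range q, ‖TT B ((r : ℝ) / q)‖ ^ 4 := by
          rw [mul_sum]
          calc ∑ r ∈ (range q).filter (fun r => Nat.Coprime r q), ‖TT B ((r : ℝ) / q)‖ ^ (2 * k)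
              ≤ ∑ r ∈ range q, ‖TT B ((r : ℝ) / q)‖ ^ (2 * k) :=
                sum_le_sum_of_subset_of_nonneg (filter_subset _ _) (fun i _ _ => by positivity)
            _ ≤ _ := by
                apply sum_le_sum
                intro r _
                have e1 : 2 * k = (2 * k - 4) + 4 := by omega
                conv_lhs => rw [e1, pow_add]
                exact mul_le_mul_of_nonneg_right
                  (pow_le_pow_left₀ (norm_nonneg _) (TT_norm_le _ _) _) (by positivity)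
        have h4 := TT_fourth (show 1 < q by omega) hodd' B
        rw [← hl] at h4
        have h5 : ((B / l + 1 : ℕ) : ℝ) ≤ 2 * B / l := by
          push_cast
          have h6 : ((B / l : ℕ) : ℝ) ≤ (B : ℝ) / l := Nat.cast_div_le
          have h7 : (1 : ℝ) ≤ (B : ℝ) / l := by
            rw [le_div_iff₀ hl0, one_mul]
            exact_mod_cast hlB
          have h8 : 2 * (B : ℝ) / l = B / l + B / l := by ring
          rw [h8]
          linarith
        have h6 : ((B / l + 1 : ℕ) : ℝ) ^ 4 ≤ (2 * B / l) ^ 4 :=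
          pow_le_pow_left₀ (Nat.cast_nonneg _) h5 4
        calc 1 / (q : ℝ) ^ 2 * ∑ r ∈ (range q).filter (fun r => Nat.Coprime r q),
            ‖TT B ((r : ℝ) / q)‖ ^ (2 * k)
            ≤ 1 / (q : ℝ) ^ 2 * ((B : ℝ) ^ (2 * k - 4) *
              ((2 * B / l) ^ 4 * (2 * q * (l : ℝ) ^ 2))) := by
              apply mul_le_mul_of_nonneg_left _ (by positivity)
              refine h3.trans (mul_le_mul_of_nonneg_left ?_ (by positivity))
              exact h4.trans (mul_le_mul_of_nonneg_right h6 (by positivity))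
          _ = 32 * ((B : ℝ) ^ (2 * k - 4) * (B : ℝ) ^ 4) * (1 / (q * (l : ℝ) ^ 2)) := by
              field_simp
              ring
          _ = _ := by
              rw [← pow_add]
              congr 3
              omega
  have h1 : WW k B Z ≤ ∑ q ∈ Icc 2 Z,
      ((if q < Q₀ then (B : ℝ) ^ (2 * k) * ρ ^ (2 * k) else 0) +
      (if Q₀ ≤ q then 32 * (B : ℝ) ^ (2 * k) * (1 / (q * (Nat.log 2 q : ℝ) ^ 2)) else 0)) := by
    have h2 : WW k B Z = ∑ q ∈ Icc 2 Z, ∑ x ∈ ((RQ Z).erase 0).filter (fun x => x.den = q), F x := by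
      unfold WW
      rw [sum_fiberwise_of_maps_to hmaps]
    rw [h2]
    exact sum_le_sum hden
  rw [sum_add_distrib, ← sum_filter, ← sum_filter, sum_const, nsmul_eq_mul, ← mul_sum] at h1
  have hc : ((((Icc 2 Z).filter (fun q => q < Q₀)).card : ℕ) : ℝ) ≤ Q₀ := by
    have : (Icc 2 Z).filter (fun q => q < Q₀) ⊆ range Q₀ := by
      intro q hq
      rw [mem_filter] at hq
      exact mem_range.mpr hq.2
    have := card_le_card this
    rw [card_range] at this
    exact_mod_cast this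
  have hd : ∑ q ∈ (Icc 2 Z).filter (fun q => Q₀ ≤ q), (1 : ℝ) / (q * (Nat.log 2 q : ℝ) ^ 2) ≤
      1 / ((i₀ : ℝ) - 1) := by
    have hsub : (Icc 2 Z).filter (fun q => Q₀ ≤ q) ⊆ Ico (2 ^ i₀) (2 ^ (B + 1)) := by
      intro q hq
      rw [mem_filter, mem_Icc] at hq
      rw [mem_Ico]
      have : 2 ^ B < 2 ^ (B + 1) := Nat.pow_lt_pow_right (by norm_num) (by omega)
      exact ⟨hq.2, by omega⟩
    have h2 := dyadic_sum hi (B + 1) (by omega)
    have h3 : (0 : ℝ) ≤ 1 / (((B + 1 : ℕ) : ℝ) - 1) := by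
      push_cast
      rw [add_sub_cancel_right]
      positivity
    have h4 := sum_le_sum_of_subset_of_nonneg
      (f := fun q : ℕ => (1 : ℝ) / (q * (Nat.log 2 q : ℝ) ^ 2)) hsub (fun i _ _ => by positivity)
    linarith
  have hBρ : 0 ≤ (B : ℝ) ^ (2 * k) * ρ ^ (2 * k) := by positivity
  have h3 := mul_le_mul_of_nonneg_right hc hBρ
  have h4 := mul_le_mul_of_nonneg_left hd (show 0 ≤ 32 * (B : ℝ) ^ (2 * k) by positivity)
  calc WW k B Z ≤ Q₀ * ((B : ℝ) ^ (2 * k) * ρ ^ (2 * k)) +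
        32 * (B : ℝ) ^ (2 * k) * (1 / ((i₀ : ℝ) - 1)) := by linarith
    _ = _ := by ring

/-- The weight `WW` is at most `τ B^{2k}` for suitable `k` and all large `B`. -/
theorem WW_small {τ : ℝ} (hτ : 0 < τ) : ∃ k B₀ : ℕ, 2 ≤ k ∧ 2 ≤ B₀ ∧ ∀ B ≥ B₀, ∀ Z, Z ≤ 2 ^ B →
    WW k B Z ≤ τ * (B : ℝ) ^ (2 * k) := by
  obtain ⟨m, hm⟩ := exists_nat_ge (64 / τ)
  set i₀ := m + 2 with hi₀
  have hi1 : 32 / ((i₀ : ℝ) - 1) ≤ τ / 2 := by
    rw [hi₀]
    push_cast
    have h0 : 0 < 64 / τ := by positivity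
    have h1 : (0 : ℝ) < m + 2 - 1 := by linarith
    rw [div_le_iff₀ h1]
    rw [div_le_iff₀ hτ] at hm
    nlinarith
  set ρ : ℝ := 1 - 1 / (2 ^ i₀ : ℝ) ^ 2 with hρ
  have hp : (1 : ℝ) ≤ 2 ^ i₀ := one_le_pow₀ (by norm_num)
  have hρ0 : 0 ≤ ρ := by
    rw [hρ, sub_nonneg, div_le_one (by positivity)]
    exact one_le_pow₀ hp
  have hρ1 : ρ < 1 := by
    rw [hρ]
    have : 0 < 1 / (2 ^ i₀ : ℝ) ^ 2 := by positivity
    linarith
  obtain ⟨n, hn⟩ := exists_pow_lt_of_lt_one (show 0 < τ / 2 / 2 ^ i₀ by positivity) hρ1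
  refine ⟨n + 2, max 2 i₀, by omega, le_max_left _ _, fun B hB Z hZ => ?_⟩
  have h1 := WW_bound (k := n + 2) (B := B) (Z := Z) (i₀ := i₀) (by omega) (by omega)
    ((le_max_right _ _).trans hB) hZ
  refine h1.trans ?_
  rw [mul_comm τ]
  apply mul_le_mul_of_nonneg_left _ (by positivity)
  have h2 : ρ ^ (2 * (n + 2)) ≤ ρ ^ n := pow_le_pow_of_le_one hρ0 hρ1.le (by omega)
  have h3 : (2 : ℝ) ^ i₀ * ρ ^ (2 * (n + 2)) ≤ τ / 2 := by
    calc (2 : ℝ) ^ i₀ * ρ ^ (2 * (n + 2)) ≤ 2 ^ i₀ * (τ / 2 / 2 ^ i₀) := by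
          apply mul_le_mul_of_nonneg_left _ (by positivity)
          exact h2.trans hn.le
      _ = τ / 2 := by field_simp
  linarith

end Pool.Agent.TwoSqPow
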