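import Mathlib
import Pool.Agent.TwoSqPow.Defs
import Pool.Agent.TwoSqPow.WBound

set_option autoImplicit false

/-!
Most `N ≡ 1 mod 4` in a short interval are sums of two squares and `k` powers of `2`.
-/

namespace Pool.Agent.TwoSqPow

open Finset

lemma card_modEq (a Y d v : ℕ) :
    #{N ∈ Ioc a (a + Y) | N ≡ v [MOD d]} ≤ Y / d + 1 := by
  have h : #{N ∈ Ioc a (a + Y) | N ≡ v [MOD d]} ≤ #(range (Y / d + 1)) := by
    apply card_le_card_of_injOn (fun N => (N - (a + 1)) / d)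
    · intro N hN
      rw [mem_coe, mem_filter, mem_Ioc] at hN
      rw [mem_coe, mem_range]
      have : (N - (a + 1)) / d ≤ Y / d := Nat.div_le_div_right (by omega)
      show (N - (a + 1)) / d < Y / d + 1
      omega
    · intro N hN N' hN' h
      rw [mem_coe, mem_filter, mem_Ioc] at hN hN'
      simp only at h
      have hc : N ≡ N' [MOD d] := hN.2.trans hN'.2.symm
      have hc' : N - (a + 1) ≡ N' - (a + 1) [MOD d] := by
        apply Nat.ModEq.add_right_cancel' (a + 1)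
        rwa [Nat.sub_add_cancel (by omega), Nat.sub_add_cancel (by omega)]
      have e1 := Nat.div_add_mod (N - (a + 1)) d
      have e2 := Nat.div_add_mod (N' - (a + 1)) d
      rw [h] at e1
      have e3 : (N - (a + 1)) % d = (N' - (a + 1)) % d := hc'
      omega
  rwa [card_range] at h

lemma dvd_sub_iff_modEq {N h d : ℕ} (hN : h ≤ N) : d ∣ N - h ↔ N ≡ h [MOD d] := by
  rw [Nat.ModEq.comm]
  exact (Nat.modEq_iff_dvd' hN).symm

/-- the total number of middle divisors in a short interval -/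
lemma mid_count {m Y Z h : ℕ} (hm : 2 ≤ m) (hY : 1 ≤ Y) (hZ : Z = Nat.sqrt ((m - 1) * Y))
    (hZ2 : 2 ≤ Z) (hh : h ≤ Y) :
    (∑ N ∈ Ioc (m * Y) ((m + 1) * Y), ((mid Z (N - h)).card : ℝ)) ≤
      9 * Y / ((m : ℝ) - 1) + 4 := by
  classical
  have hz0 : (0 : ℝ) < Z := by exact_mod_cast (show 0 < Z by omega)
  have hz2 : (2 : ℝ) ≤ Z := by exact_mod_cast hZ2
  have hm1 : ((m - 1 : ℕ) : ℝ) = (m : ℝ) - 1 := by
    rw [Nat.cast_sub (by omega)]; simp
  have hm0 : (0 : ℝ) < (m : ℝ) - 1 := by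
    rw [← hm1]; exact_mod_cast (show 0 < m - 1 by omega)
  have hs1 : (Z : ℝ) ^ 2 ≤ ((m : ℝ) - 1) * Y := by
    have : Z * Z ≤ (m - 1) * Y := by rw [hZ]; exact Nat.sqrt_le _
    have h2 : ((Z * Z : ℕ) : ℝ) ≤ (((m - 1) * Y : ℕ) : ℝ) := by exact_mod_cast this
    push_cast [hm1] at h2
    rw [sq]
    rw [← hm1]
    rw [hm1]
    exact h2
  have hs2 : ((m : ℝ) - 1) * Y < ((Z : ℝ) + 1) ^ 2 := by
    have : (m - 1) * Y < (Z + 1) * (Z + 1) := by rw [hZ]; exact Nat.lt_succ_sqrt _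
    have h2 : (((m - 1) * Y : ℕ) : ℝ) < (((Z + 1) * (Z + 1) : ℕ) : ℝ) := by exact_mod_cast this
    push_cast at h2
    rw [hm1] at h2
    rw [sq]
    exact h2
  -- the range of d
  set D : Finset ℕ := (Ioc Z (2 * Z + (m + 1) * Y)).filter (fun d => Z * d < (m + 1) * Y) with hD
  have hswap : (∑ N ∈ Ioc (m * Y) ((m + 1) * Y), ((mid Z (N - h)).card : ℝ)) ≤
      ∑ d ∈ D, ((Y / d + 1 : ℕ) : ℝ) := by
    have h1 : ∀ N ∈ Ioc (m * Y) ((m + 1) * Y), (mid Z (N - h)).card ≤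
        #{d ∈ D | d ∣ N - h} := by
      intro N hN
      rw [mem_Ioc] at hN
      apply card_le_card
      intro d hd
      unfold mid at hd
      rw [mem_filter, Nat.mem_divisors] at hd
      rw [mem_filter, hD, mem_filter, mem_Ioc]
      have h2 : Z * d < (m + 1) * Y := lt_of_lt_of_le hd.2.2 (by omega)
      refine ⟨⟨⟨hd.2.1, ?_⟩, h2⟩, hd.1.1⟩
      have : d ≤ Z * d := Nat.le_mul_of_pos_left d (by omega)
      omega
    have h2 : ∑ N ∈ Ioc (m * Y) ((m + 1) * Y), #{d ∈ D | d ∣ N - h} =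
        ∑ d ∈ D, #{N ∈ Ioc (m * Y) ((m + 1) * Y) | d ∣ N - h} := by
      simp_rw [card_filter]
      rw [sum_comm]
    have h3 : ∀ d ∈ D, #{N ∈ Ioc (m * Y) ((m + 1) * Y) | d ∣ N - h} ≤ Y / d + 1 := by
      intro d hd
      rw [hD, mem_filter, mem_Ioc] at hd
      have e1 : (m + 1) * Y = m * Y + Y := by ring
      have h4 : (Ioc (m * Y) ((m + 1) * Y)).filter (fun N => d ∣ N - h) ⊆
          (Ioc (m * Y) (m * Y + Y)).filter (fun N => N ≡ h [MOD d]) := by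
        intro N hN
        rw [mem_filter, mem_Ioc] at hN
        rw [mem_filter, mem_Ioc]
        refine ⟨⟨hN.1.1, by omega⟩, ?_⟩
        have h5 : h ≤ N := by nlinarith
        exact (dvd_sub_iff_modEq h5).mp hN.2
      exact (card_le_card h4).trans (card_modEq _ _ _ _)
    calc (∑ N ∈ Ioc (m * Y) ((m + 1) * Y), ((mid Z (N - h)).card : ℝ))
        = ((∑ N ∈ Ioc (m * Y) ((m + 1) * Y), (mid Z (N - h)).card : ℕ) : ℝ) := by push_cast; rfl
      _ ≤ ((∑ d ∈ D, (Y / d + 1) : ℕ) : ℝ) := by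
          exact_mod_cast (sum_le_sum h1).trans (h2.le.trans (sum_le_sum h3))
      _ = _ := by push_cast; rfl
  have hterm : ∀ d ∈ D, ((Y / d + 1 : ℕ) : ℝ) ≤ (Y : ℝ) / Z + 1 := by
    intro d hd
    rw [hD, mem_filter, mem_Ioc] at hd
    push_cast
    have h1 : ((Y / d : ℕ) : ℝ) ≤ (Y : ℝ) / d := Nat.cast_div_le
    have h2 : (Y : ℝ) / d ≤ Y / Z := by
      apply div_le_div_of_nonneg_left (Nat.cast_nonneg _) hz0
      exact_mod_cast hd.1.1.le
    linarith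
  have hDcard : (D.card : ℝ) ≤ 2 * ((Y : ℝ) / Z + 1) := by
    -- D ⊆ Ioc Z ⌊(m+1)Y/Z⌋
    have h1 : D ⊆ Ioc Z ((m + 1) * Y / Z) := by
      intro d hd
      rw [hD, mem_filter, mem_Ioc] at hd
      rw [mem_Ioc]
      refine ⟨hd.1.1, ?_⟩
      rw [Nat.le_div_iff_mul_le (by omega), mul_comm]
      exact hd.2.le
    have h2 := card_le_card h1
    rw [Nat.card_Ioc] at h2
    have h3 : (D.card : ℝ) ≤ max 0 ((((m + 1) * Y / Z : ℕ) : ℝ) - Z) := by
      have h4 : (D.card : ℝ) ≤ (((m + 1) * Y / Z - Z : ℕ) : ℝ) := by exact_mod_cast h2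
      refine h4.trans ?_
      rcases le_total Z ((m + 1) * Y / Z) with h5 | h5
      · rw [Nat.cast_sub h5]; exact le_max_right _ _
      · rw [Nat.sub_eq_zero_of_le h5]; simp
    refine h3.trans (max_le (by positivity) ?_)
    have h4 : (((m + 1) * Y / Z : ℕ) : ℝ) ≤ (((m + 1) * Y : ℕ) : ℝ) / Z := Nat.cast_div_le
    have h5 : (((m + 1) * Y : ℕ) : ℝ) / Z - Z ≤ 2 * ((Y : ℝ) / Z + 1) := by
      rw [sub_le_iff_le_add, div_le_iff₀ hz0]
      push_cast
      have h6 : (2 * ((Y : ℝ) / Z + 1) + Z) * Z = 2 * Y + 2 * Z + Z ^ 2 := by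
        field_simp
      rw [h6]
      -- (m+1) Y ≤ 2 Y + 2 Z + Z²
      have h7 : (m - 1) * Y < (Z + 1) * (Z + 1) := by rw [hZ]; exact Nat.lt_succ_sqrt _
      have h8 : (m - 1) * Y ≤ Z * Z + 2 * Z := by nlinarith
      have h9 : (((m - 1) * Y : ℕ) : ℝ) ≤ ((Z * Z + 2 * Z : ℕ) : ℝ) := by exact_mod_cast h8
      push_cast at h9
      rw [hm1] at h9
      nlinarith
    linarith
  have hfin : ∑ d ∈ D, ((Y / d + 1 : ℕ) : ℝ) ≤ 2 * ((Y : ℝ) / Z + 1) * ((Y : ℝ) / Z + 1) := by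
    calc ∑ d ∈ D, ((Y / d + 1 : ℕ) : ℝ) ≤ ∑ d ∈ D, ((Y : ℝ) / Z + 1) := sum_le_sum hterm
      _ = D.card * ((Y : ℝ) / Z + 1) := by rw [sum_const, nsmul_eq_mul]
      _ ≤ _ := mul_le_mul_of_nonneg_right hDcard (by positivity)
  refine (hswap.trans hfin).trans ?_
  have h1 : ((Y : ℝ) / Z) ^ 2 ≤ 9 / 4 * Y / ((m : ℝ) - 1) := by
    rw [div_pow, div_le_div_iff₀ (by positivity) hm0]
    have h2 : ((Z : ℝ) + 1) ^ 2 ≤ 9 / 4 * Z ^ 2 := by nlinarith
    have hYpos : (0 : ℝ) ≤ Y := Nat.cast_nonneg _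
    calc (Y : ℝ) ^ 2 * ((m : ℝ) - 1) = Y * (((m : ℝ) - 1) * Y) := by ring
      _ ≤ Y * (9 / 4 * Z ^ 2) := by
          apply mul_le_mul_of_nonneg_left _ hYpos
          linarith
      _ = 9 / 4 * Y * Z ^ 2 := by ring
  have h2 : 9 / 4 * (Y : ℝ) / ((m : ℝ) - 1) * 4 = 9 * Y / ((m : ℝ) - 1) := by ring
  nlinarith [sq_nonneg ((Y : ℝ) / Z - 1)]

lemma four_dvd_hs {k : ℕ} (b : Fin k → ℕ) : 4 ∣ hs b := by
  unfold hs
  apply dvd_sum
  intro i _
  rw [pow_add]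
  exact dvd_mul_left _ _

lemma hs_le {k B : ℕ} {b : Fin k → ℕ} (hb : b ∈ BB k B) : hs b ≤ k * 2 ^ (B + 1) := by
  unfold hs
  unfold BB at hb
  rw [Fintype.mem_piFinset] at hb
  calc ∑ i, 2 ^ (b i + 2) ≤ ∑ _i : Fin k, 2 ^ (B + 1) := by
        apply sum_le_sum
        intro i _
        have := mem_range.mp (hb i)
        exact Nat.pow_le_pow_right (by norm_num) (by omega)
    _ = k * 2 ^ (B + 1) := by simp

lemma representable_of_sub {k N : ℕ} (b : Fin k → ℕ) (hle : hs b ≤ N)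
    (h : ∃ x y : ℕ, N - hs b = x ^ 2 + y ^ 2) : Representable k N := by
  obtain ⟨x, y, hxy⟩ := h
  refine ⟨x, y, List.ofFn (fun i => b i + 2), by simp, ?_⟩
  have h1 : N = x ^ 2 + y ^ 2 + hs b := by omega
  rw [List.map_ofFn, List.sum_ofFn, h1]
  unfold hs
  push_cast
  rfl

lemma GG_eq {k B Z N : ℕ} (hN : ∀ b ∈ BB k B, hs b < N) :
    GG k B Z N = ∑ b ∈ BB k B, gdiv Z (N - hs b) := by
  unfold GG gdiv
  apply sum_congr rfl
  intro b hb
  have hb' := hN b hb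
  rw [← sum_filter]
  apply sum_congr _ (fun _ _ => rfl)
  ext d
  rw [mem_filter, mem_filter, mem_Icc, Nat.mem_divisors]
  have hdvd : (d : ℤ) ∣ (N : ℤ) - hs b ↔ d ∣ N - hs b := by
    have : ((N : ℤ) - hs b) = ((N - hs b : ℕ) : ℤ) := by
      rw [Nat.cast_sub hb'.le]
    rw [this]
    exact Int.natCast_dvd_natCast
  constructor
  · rintro ⟨h1, h2⟩
    exact ⟨⟨hdvd.mp h2, by omega⟩, h1.2⟩
  · rintro ⟨h1, h2⟩
    refine ⟨⟨?_, h2⟩, hdvd.mpr h1.1⟩
    exact Nat.pos_of_dvd_of_pos h1.1 (by omega)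

open Classical in
/-- Most `N ≡ 1 mod 4` in `(mY, (m+1)Y]` are `k`-representable. -/
theorem core {η : ℝ} (hη : 0 < η) : ∃ k m Y₀ : ℕ, 1 ≤ m ∧ ∀ Y ≥ Y₀,
    (#{N ∈ Ioc (m * Y) ((m + 1) * Y) | N % 4 = 1 ∧ ¬ Representable k N} : ℝ) ≤ η * Y := by
  -- choice of m
  obtain ⟨m₀, hm₀⟩ := exists_nat_ge (54 / η)
  set m := m₀ + 2 with hm
  have hmR : (m : ℝ) - 1 = m₀ + 1 := by rw [hm]; push_cast; ring
  have hm27 : 27 / 2 / ((m : ℝ) - 1) ≤ η / 4 := by
    rw [hmR]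
    rw [div_le_iff₀ hη] at hm₀
    rw [div_le_iff₀ (by positivity)]
    nlinarith
  set τ : ℝ := η / (108 * (m + 2)) with hτ
  have hτ0 : 0 < τ := by positivity
  have hτm : τ * (108 * ((m : ℝ) + 2)) = η := div_mul_cancel₀ η (by positivity)
  obtain ⟨k, B₀, hk2, hB₀, hW⟩ := WW_small hτ0
  obtain ⟨Y₁, hY₁⟩ := exists_nat_ge (24 / η)
  set Y₀ : ℕ := max (max Y₁ 16) (max (16 * k ^ 2 * m) (4 * k * 2 ^ B₀)) with hY₀
  refine ⟨k, m, Y₀, by omega, fun Y hY => ?_⟩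
  have hYa : Y₁ ≤ Y := ((le_max_left _ _).trans (le_max_left _ _)).trans hY
  have hY16 : 16 ≤ Y := ((le_max_right _ _).trans (le_max_left _ _)).trans hY
  have hYb : 16 * k ^ 2 * m ≤ Y := ((le_max_left _ _).trans (le_max_right _ _)).trans hY
  have hYc : 4 * k * 2 ^ B₀ ≤ Y := ((le_max_right _ _).trans (le_max_right _ _)).trans hY
  have hYpos : (0 : ℝ) < Y := by exact_mod_cast (show 0 < Y by omega)
  have h24 : 6 ≤ η / 4 * Y := by
    have h1 : 24 / η ≤ Y := hY₁.trans (by exact_mod_cast hYa)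
    rw [div_le_iff₀ hη] at h1
    linarith
  -- choice of B
  set B := Nat.log 2 (Y / (2 * k)) with hB
  have hk0 : 0 < k := by omega
  have hdiv : 1 ≤ Y / (2 * k) := by
    rw [Nat.le_div_iff_mul_le (by omega)]
    have : 1 ≤ 2 ^ B₀ := Nat.one_le_two_pow
    nlinarith
  have hB1 : k * 2 ^ (B + 1) ≤ Y := by
    have h1 : 2 ^ B ≤ Y / (2 * k) := Nat.pow_log_le_self 2 (by omega)
    have h2 : 2 ^ B * (2 * k) ≤ Y := by
      calc 2 ^ B * (2 * k) ≤ Y / (2 * k) * (2 * k) := Nat.mul_le_mul_right _ h1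
        _ ≤ Y := Nat.div_mul_le_self _ _
    calc k * 2 ^ (B + 1) = 2 ^ B * (2 * k) := by ring
      _ ≤ Y := h2
  have hB2 : Y < 4 * k * 2 ^ B := by
    have h1 : Y / (2 * k) < 2 ^ (B + 1) := Nat.lt_pow_succ_log_self (by norm_num) _
    have h2 : Y < (Y / (2 * k) + 1) * (2 * k) := by
      have h3 := Nat.div_add_mod Y (2 * k)
      have h4 := Nat.mod_lt Y (show 0 < 2 * k by omega)
      nlinarith
    calc Y < (Y / (2 * k) + 1) * (2 * k) := h2
      _ ≤ 2 ^ (B + 1) * (2 * k) := Nat.mul_le_mul_right _ h1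
      _ = 4 * k * 2 ^ B := by ring
  have hBB₀ : B₀ ≤ B := by
    by_contra hcon
    push Not at hcon
    have : 2 ^ B ≤ 2 ^ B₀ := Nat.pow_le_pow_right (by norm_num) hcon.le
    have : 4 * k * 2 ^ B ≤ 4 * k * 2 ^ B₀ := Nat.mul_le_mul_left _ this
    omega
  have hBpos : (0 : ℝ) < B := by exact_mod_cast (show 0 < B by omega)
  -- choice of Z
  set Z := Nat.sqrt ((m - 1) * Y) with hZ
  have hZZ : Z * Z ≤ (m - 1) * Y := Nat.sqrt_le _
  have hZ2 : 2 ≤ Z := by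
    rw [hZ, Nat.le_sqrt]
    have : 1 * Y ≤ (m - 1) * Y := Nat.mul_le_mul_right _ (by omega)
    omega
  have hZB : Z ≤ 2 ^ B := by
    by_contra hcon
    push Not at hcon
    have h1 : 2 ^ B * 2 ^ B < Z * Z := Nat.mul_self_lt_mul_self hcon
    have h2 : (m - 1) * Y ≤ m * Y := Nat.mul_le_mul_right _ (by omega)
    have h3 : 2 ^ B * 2 ^ B < m * Y := by omega
    have h4 : Y * Y < (4 * k * 2 ^ B) * (4 * k * 2 ^ B) := Nat.mul_self_lt_mul_self hB2
    have h5 : (4 * k * 2 ^ B) * (4 * k * 2 ^ B) = 16 * k ^ 2 * (2 ^ B * 2 ^ B) := by ring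
    have h6 : 16 * k ^ 2 * (2 ^ B * 2 ^ B) ≤ 16 * k ^ 2 * (m * Y) :=
      Nat.mul_le_mul_left _ h3.le
    have h7 : 16 * k ^ 2 * (m * Y) = (16 * k ^ 2 * m) * Y := by ring
    have h8 : (16 * k ^ 2 * m) * Y ≤ Y * Y := Nat.mul_le_mul_right _ hYb
    omega
  have hW' := hW B hBB₀ Z hZB
  set H := (m + 1) * Y + 1 with hH
  have hZH : Z ^ 2 ≤ H := by
    have h2 : (m - 1) * Y ≤ (m + 1) * Y := Nat.mul_le_mul_right _ (by omega)
    rw [sq]
    omega
  have hms := mean_square (k := k) (B := B) (Z := Z) (H := H) (by omega) hZH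
  have hHpos : (0 : ℝ) < H := by positivity
  have hms' : ∑ N ∈ range H, (EE k B Z N) ^ 2 ≤ 6 * H * (τ * (B : ℝ) ^ (2 * k)) :=
    hms.trans (mul_le_mul_of_nonneg_left hW' (by positivity))
  have hcq1 : 2 / 3 ≤ cq Z 1 := by
    rw [cq_eq (le_refl 1), chi_one, Nat.div_one]
    have := (A1_le_one Z).2.2 (by omega)
    simpa using this
  -- shifts
  have hshift : ∀ b ∈ BB k B, hs b ≤ Y := fun b hb => (hs_le hb).trans hB1
  have hm2 : 2 ≤ m := by omega
  -- the two exceptional sets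
  set I := Ioc (m * Y) ((m + 1) * Y) with hI
  set S1 : Finset ℕ := I.filter (fun N : ℕ => (B : ℝ) ^ k / 3 ≤ |EE k B Z (N : ℤ)|) with hS1
  set S2 : Finset ℕ := I.filter (fun N => 2 / 3 * (B : ℝ) ^ k ≤ ∑ b ∈ BB k B, ((mid Z (N - hs b)).card : ℝ))
    with hS2
  have hsub : I.filter (fun N => N % 4 = 1 ∧ ¬ Representable k N) ⊆ S1 ∪ S2 := by
    intro N hN
    rw [mem_filter] at hN
    obtain ⟨hNI, hN4, hNr⟩ := hN
    rw [mem_union, hS1, hS2, mem_filter, mem_filter]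
    by_contra hcon
    push Not at hcon
    have hc1 := hcon.1 hNI
    have hc2 := hcon.2 hNI
    have hNI' := mem_Ioc.mp hNI
    have hlt : ∀ b ∈ BB k B, hs b < N := by
      intro b hb
      have h1 := hshift b hb
      have h2 : 1 * Y ≤ m * Y := Nat.mul_le_mul_right _ (by omega)
      omega
    have hG : |GG k B Z N| ≤ ∑ b ∈ BB k B, ((mid Z (N - hs b)).card : ℝ) / 2 := by
      rw [GG_eq hlt]
      refine (abs_sum_le_sum_abs _ _).trans (sum_le_sum ?_)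
      intro b hb
      have h1 := hlt b hb
      have h2 := hshift b hb
      apply gdiv_bound
      · obtain ⟨c, hc⟩ := four_dvd_hs b
        omega
      · have h3 : (m - 1) * Y + Y = m * Y := by
          obtain ⟨m', hm'⟩ : ∃ m', m = m' + 1 := ⟨m - 1, by omega⟩
          rw [hm', Nat.add_sub_cancel]; ring
        omega
      · intro h3
        exact hNr (representable_of_sub b h1.le h3)
    have hE : EE k B Z N = GG k B Z N - cq Z 1 * (B : ℝ) ^ k := rfl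
    have hBk : (0 : ℝ) ≤ (B : ℝ) ^ k := by positivity
    have h4 : cq Z 1 * (B : ℝ) ^ k ≤ |GG k B Z N| + |EE k B Z N| := by
      have h5 := le_abs_self (GG k B Z N)
      have h6 := neg_abs_le (EE k B Z N)
      linarith
    have h5 : 2 / 3 * (B : ℝ) ^ k ≤ cq Z 1 * (B : ℝ) ^ k := mul_le_mul_of_nonneg_right hcq1 hBk
    rw [← sum_div] at hG
    linarith
  -- first set
  have hS1card : (#S1 : ℝ) ≤ 54 * H * τ := by
    have h1 : (#S1 : ℝ) * ((B : ℝ) ^ k / 3) ^ 2 ≤ ∑ N ∈ range H, (EE k B Z N) ^ 2 := by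
      have h2 : ∑ N ∈ S1, ((B : ℝ) ^ k / 3) ^ 2 ≤ ∑ N ∈ S1, (EE k B Z N) ^ 2 := by
        apply sum_le_sum
        intro N hN
        rw [hS1, mem_filter] at hN
        rw [← sq_abs (EE k B Z N)]
        exact pow_le_pow_left₀ (by positivity) hN.2 2
      rw [sum_const, nsmul_eq_mul] at h2
      refine h2.trans ?_
      apply sum_le_sum_of_subset_of_nonneg
      · intro N hN
        rw [hS1, mem_filter, hI, mem_Ioc] at hN
        rw [mem_range]
        omega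
      · intro i _ _; positivity
    have h2 : (#S1 : ℝ) * ((B : ℝ) ^ k / 3) ^ 2 ≤ 54 * H * τ * ((B : ℝ) ^ k / 3) ^ 2 := by
      refine (h1.trans hms').trans (le_of_eq ?_)
      rw [div_pow, ← pow_mul, mul_comm k 2]
      ring
    exact le_of_mul_le_mul_right h2 (by positivity)
  -- second set
  have hS2card : (#S2 : ℝ) ≤ 27 / 2 / ((m : ℝ) - 1) * Y + 6 := by
    have h1 : (#S2 : ℝ) * (2 / 3 * (B : ℝ) ^ k) ≤
        ∑ N ∈ I, ∑ b ∈ BB k B, ((mid Z (N - hs b)).card : ℝ) := by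
      have h2 : ∑ N ∈ S2, (2 / 3 * (B : ℝ) ^ k) ≤
          ∑ N ∈ S2, ∑ b ∈ BB k B, ((mid Z (N - hs b)).card : ℝ) := by
        apply sum_le_sum
        intro N hN
        rw [hS2, mem_filter] at hN
        exact hN.2
      rw [sum_const, nsmul_eq_mul] at h2
      refine h2.trans ?_
      apply sum_le_sum_of_subset_of_nonneg (filter_subset _ _)
      intro i _ _
      exact sum_nonneg (fun b _ => Nat.cast_nonneg _)
    rw [sum_comm] at h1
    have h3 : ∑ b ∈ BB k B, ∑ N ∈ I, ((mid Z (N - hs b)).card : ℝ) ≤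
        (B : ℝ) ^ k * (9 * Y / ((m : ℝ) - 1) + 4) := by
      calc ∑ b ∈ BB k B, ∑ N ∈ I, ((mid Z (N - hs b)).card : ℝ)
          ≤ ∑ b ∈ BB k B, (9 * Y / ((m : ℝ) - 1) + 4) := by
            apply sum_le_sum
            intro b hb
            exact mid_count hm2 (by omega) hZ hZ2 (hshift b hb)
        _ = (B : ℝ) ^ k * (9 * Y / ((m : ℝ) - 1) + 4) := by
            rw [sum_const, nsmul_eq_mul, card_BB]
            push_cast
            rfl
    have hBk : (0 : ℝ) < (B : ℝ) ^ k := by positivity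
    have h4 : (#S2 : ℝ) * (B : ℝ) ^ k ≤ (27 / 2 / ((m : ℝ) - 1) * Y + 6) * (B : ℝ) ^ k := by
      have h5 := h1.trans h3
      have h6 : (27 / 2 / ((m : ℝ) - 1) * Y + 6) * (B : ℝ) ^ k =
          3 / 2 * ((B : ℝ) ^ k * (9 * Y / ((m : ℝ) - 1) + 4)) := by ring
      rw [h6]
      linarith
    exact le_of_mul_le_mul_right h4 hBk
  have hfin : (#(I.filter (fun N => N % 4 = 1 ∧ ¬ Representable k N)) : ℝ) ≤ #S1 + #S2 := by
    exact_mod_cast (card_le_card hsub).trans (card_union_le _ _)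
  have h54 : 54 * (H : ℝ) * τ ≤ η / 2 * Y := by
    have h1 : (H : ℝ) ≤ (m + 2) * Y := by
      rw [hH]
      push_cast
      have : (1 : ℝ) ≤ Y := by exact_mod_cast (show 1 ≤ Y by omega)
      linarith
    calc 54 * (H : ℝ) * τ ≤ 54 * ((m + 2) * Y) * τ := by
          apply mul_le_mul_of_nonneg_right _ hτ0.le
          linarith
      _ = (τ * (108 * ((m : ℝ) + 2))) / 2 * Y := by ring
      _ = η / 2 * Y := by rw [hτm]
  have h27 : 27 / 2 / ((m : ℝ) - 1) * Y ≤ η / 4 * Y := mul_le_mul_of_nonneg_right hm27 hYpos.le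
  linarith

end Pool.Agent.TwoSqPow
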