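import Mathlib
import Pool.Agent.TwoSqPow.Core

set_option autoImplicit false

/-!
For every `ε > 0` there is a `C` such that all but `ε X` of the `N ≤ X` are `C`-representable.
-/

namespace Pool.Agent.TwoSqPow

open Finset Filter

lemma Representable.mono {k k' N : ℕ} (h : Representable k N) (hk : k ≤ k') :
    Representable k' N := by
  obtain ⟨x, y, l, hl, he⟩ := h
  exact ⟨x, y, l, hl.trans hk, he⟩

lemma Representable.add_pow {k N : ℕ} (h : Representable k N) (a : ℕ) :
    Representable (k + 1) (N + 2 ^ a) := by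
  obtain ⟨x, y, l, hl, he⟩ := h
  refine ⟨x, y, a :: l, by simpa using hl, ?_⟩
  rw [List.map_cons, List.sum_cons]
  push_cast
  linarith

lemma Representable.four_mul {k N : ℕ} (h : Representable k N) : Representable k (4 * N) := by
  obtain ⟨x, y, l, hl, he⟩ := h
  refine ⟨2 * x, 2 * y, l.map (fun a => a + 2), by simpa using hl, ?_⟩
  have h1 : ((l.map (fun a => a + 2)).map (fun a => (2 : ℤ) ^ a)).sum =
      4 * (l.map (fun a => (2 : ℤ) ^ a)).sum := by
    rw [List.map_map, ← List.sum_map_mul_left]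
    congr 1
    apply List.map_congr_left
    intro a _
    simp only [Function.comp_apply]
    rw [pow_add]
    ring
  rw [h1]
  push_cast
  rw [he]
  ring

open Classical in
/-- the number of `N ≤ x`, `N ≡ 1 mod 4`, that are not `k`-representable -/
noncomputable def b1 (k x : ℕ) : ℕ := #{N ∈ Icc 1 x | N % 4 = 1 ∧ ¬ Representable k N}

open Classical in
/-- the number of `N ≤ x` that are not `k`-representable -/
noncomputable def b0 (k x : ℕ) : ℕ := #{N ∈ Icc 1 x | ¬ Representable k N}

lemma b1_le (k x : ℕ) : b1 k x ≤ x := by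
  classical
  unfold b1
  exact (card_filter_le _ _).trans (by simp)

lemma b0_le (k x : ℕ) : b0 k x ≤ x := by
  classical
  unfold b0
  exact (card_filter_le _ _).trans (by simp)

lemma b1_bound {η : ℝ} (hη : 0 < η) : ∃ k K : ℕ, ∀ x : ℕ, (b1 k x : ℝ) ≤ η * x + K := by
  classical
  obtain ⟨k, m, Y₀, hm, hcore⟩ := core (half_pos hη)
  obtain ⟨Y₁, hY₁⟩ := exists_nat_ge (2 * ((m : ℝ) + 1) / η)
  set Y₂ := max 1 (max Y₀ Y₁) with hY₂
  refine ⟨k, (m + 1) * (Y₂ + 1), fun x => ?_⟩
  induction x using Nat.strong_induction_on with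
  | _ x ih =>
    set Y := x / (m + 1) with hY
    have hm1 : 0 < m + 1 := by omega
    have e1 := Nat.div_add_mod x (m + 1)
    have e2 := Nat.mod_lt x hm1
    rw [← hY] at e1
    by_cases hsmall : Y < Y₂
    · have h1 : x ≤ (m + 1) * (Y₂ + 1) := by nlinarith
      have h2 : (b1 k x : ℝ) ≤ x := by exact_mod_cast b1_le k x
      have h3 : (x : ℝ) ≤ (((m + 1) * (Y₂ + 1) : ℕ) : ℝ) := by exact_mod_cast h1
      have h4 : 0 ≤ η * x := by positivity
      linarith
    · push Not at hsmall
      have hY0 : Y₀ ≤ Y := ((le_max_left _ _).trans (le_max_right _ _)).trans hsmall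
      have hY1 : Y₁ ≤ Y := ((le_max_right _ _).trans (le_max_right _ _)).trans hsmall
      have hYpos : 1 ≤ Y := (le_max_left _ _).trans hsmall
      have hlt : m * Y < x := by
        have e3 : (m + 1) * Y = m * Y + Y := by ring
        omega
      have h1 := ih (m * Y) hlt
      have h2 := hcore Y hY0
      have hsub : (Icc 1 x).filter (fun N => N % 4 = 1 ∧ ¬ Representable k N) ⊆
          (Icc 1 (m * Y)).filter (fun N => N % 4 = 1 ∧ ¬ Representable k N) ∪
          ((Ioc (m * Y) ((m + 1) * Y)).filter (fun N => N % 4 = 1 ∧ ¬ Representable k N) ∪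
            Ioc ((m + 1) * Y) x) := by
        intro N hN
        rw [mem_filter, mem_Icc] at hN
        rw [mem_union, mem_union, mem_filter, mem_filter, mem_Icc, mem_Ioc, mem_Ioc]
        by_cases h3 : N ≤ m * Y
        · left; exact ⟨⟨hN.1.1, h3⟩, hN.2⟩
        · right
          by_cases h4 : N ≤ (m + 1) * Y
          · left; exact ⟨⟨by omega, h4⟩, hN.2⟩
          · right; exact ⟨by omega, hN.1.2⟩
      have h3 : b1 k x ≤ b1 k (m * Y) +
          (#{N ∈ Ioc (m * Y) ((m + 1) * Y) | N % 4 = 1 ∧ ¬ Representable k N} +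
            (x - (m + 1) * Y)) := by
        unfold b1
        refine (card_le_card hsub).trans ((card_union_le _ _).trans ?_)
        apply Nat.add_le_add_left
        refine (card_union_le _ _).trans ?_
        rw [Nat.card_Ioc]
      have h4 : x - (m + 1) * Y ≤ m + 1 := by omega
      have h5 : (b1 k x : ℝ) ≤ b1 k (m * Y) +
          (#{N ∈ Ioc (m * Y) ((m + 1) * Y) | N % 4 = 1 ∧ ¬ Representable k N} + (m + 1)) := by
        have : b1 k x ≤ b1 k (m * Y) +
          (#{N ∈ Ioc (m * Y) ((m + 1) * Y) | N % 4 = 1 ∧ ¬ Representable k N} + (m + 1)) := by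
          omega
        exact_mod_cast this
      have h6 : ((m : ℝ) + 1) ≤ η / 2 * Y := by
        have h7 : 2 * ((m : ℝ) + 1) / η ≤ Y := hY₁.trans (by exact_mod_cast hY1)
        rw [div_le_iff₀ hη] at h7
        linarith
      have h7 : (((m + 1) * Y : ℕ) : ℝ) ≤ x := by
        have : (m + 1) * Y ≤ x := by omega
        exact_mod_cast this
      push_cast at h1 h7 ⊢
      nlinarith

lemma b0_step (k x : ℕ) : b0 (k + 1) x ≤ 3 * b1 k x + b0 (k + 1) (x / 4) := by
  classical
  set S := (Icc 1 x).filter (fun N => N % 4 = 1 ∧ ¬ Representable k N) with hS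
  set T := (Icc 1 (x / 4)).filter (fun N => ¬ Representable (k + 1) N) with hT
  have hsub : (Icc 1 x).filter (fun N => ¬ Representable (k + 1) N) ⊆
      S ∪ (S.image (fun N => N + 2 ^ 0) ∪ (S.image (fun N => N + 2 ^ 1) ∪
        T.image (fun N => 4 * N))) := by
    intro N hN
    rw [mem_filter, mem_Icc] at hN
    obtain ⟨⟨hN1, hNx⟩, hNr⟩ := hN
    rw [mem_union, mem_union, mem_union, mem_image, mem_image, mem_image]
    have h4 : N % 4 = 0 ∨ N % 4 = 1 ∨ N % 4 = 2 ∨ N % 4 = 3 := by omega
    rcases h4 with h | h | h | h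
    · right; right; right
      refine ⟨N / 4, ?_, by omega⟩
      rw [hT, mem_filter, mem_Icc]
      refine ⟨⟨by omega, by omega⟩, fun hr => hNr ?_⟩
      have := hr.four_mul
      have e : 4 * (N / 4) = N := by omega
      rwa [e] at this
    · left
      rw [hS, mem_filter, mem_Icc]
      exact ⟨⟨hN1, hNx⟩, h, fun hr => hNr (hr.mono (by omega))⟩
    · right; left
      refine ⟨N - 1, ?_, by simp; omega⟩
      rw [hS, mem_filter, mem_Icc]
      refine ⟨⟨by omega, by omega⟩, by omega, fun hr => hNr ?_⟩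
      have := hr.add_pow 0
      have e : N - 1 + 2 ^ 0 = N := by simp; omega
      rwa [e] at this
    · right; right; left
      refine ⟨N - 2, ?_, by simp; omega⟩
      rw [hS, mem_filter, mem_Icc]
      refine ⟨⟨by omega, by omega⟩, by omega, fun hr => hNr ?_⟩
      have := hr.add_pow 1
      have e : N - 2 + 2 ^ 1 = N := by simp; omega
      rwa [e] at this
  have h1 := card_le_card hsub
  have h2 := card_union_le S (S.image (fun N => N + 2 ^ 0) ∪ (S.image (fun N => N + 2 ^ 1) ∪
        T.image (fun N => 4 * N)))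
  have h3 := card_union_le (S.image (fun N => N + 2 ^ 0)) (S.image (fun N => N + 2 ^ 1) ∪
        T.image (fun N => 4 * N))
  have h4 := card_union_le (S.image (fun N => N + 2 ^ 1)) (T.image (fun N => 4 * N))
  have h5 : #(S.image (fun N => N + 2 ^ 0)) ≤ #S := card_image_le
  have h6 : #(S.image (fun N => N + 2 ^ 1)) ≤ #S := card_image_le
  have h7 : #(T.image (fun N => 4 * N)) ≤ #T := card_image_le
  have h8 : b0 (k + 1) x = #((Icc 1 x).filter (fun N => ¬ Representable (k + 1) N)) := rfl
  have h9 : b1 k x = #S := rfl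
  have h10 : b0 (k + 1) (x / 4) = #T := rfl
  omega

theorem density {ε : ℝ} (hε : 0 < ε) : ∃ C : ℕ, ∀ᶠ X : ℕ in atTop, (b0 C X : ℝ) ≤ ε * X := by
  set η := ε / 9 with hη
  have hη0 : 0 < η := by positivity
  obtain ⟨k, K, hb⟩ := b1_bound hη0
  refine ⟨k + 1, ?_⟩
  have key : ∀ x : ℕ, (b0 (k + 1) x : ℝ) ≤ 8 * η * x + K / η := by
    intro x
    induction x using Nat.strong_induction_on with
    | _ x ih =>
      have hKη : 0 ≤ (K : ℝ) / η := by positivity
      by_cases hx : (x : ℝ) ≤ K / η
      · have h1 : (b0 (k + 1) x : ℝ) ≤ x := by exact_mod_cast b0_le (k + 1) x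
        have h2 : 0 ≤ 8 * η * x := by positivity
        linarith
      · push Not at hx
        have hx0 : 0 < x := by
          have : (0 : ℝ) < x := lt_of_le_of_lt hKη hx
          exact_mod_cast this
        have h1 := ih (x / 4) (by omega)
        have h2 := b0_step k x
        have h3 : (b0 (k + 1) x : ℝ) ≤ 3 * b1 k x + b0 (k + 1) (x / 4) := by exact_mod_cast h2
        have h4 := hb x
        have h5 : ((x / 4 : ℕ) : ℝ) ≤ (x : ℝ) / 4 := Nat.cast_div_le
        have h6 : (K : ℝ) ≤ η * x := by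
          rw [div_lt_iff₀ hη0] at hx
          linarith
        have h7 : 8 * η * ((x / 4 : ℕ) : ℝ) ≤ 2 * η * x := by nlinarith
        nlinarith
  rw [eventually_atTop]
  obtain ⟨X₀, hX₀⟩ := exists_nat_ge (K / η / η)
  refine ⟨X₀, fun X hX => ?_⟩
  have h1 := key X
  have h2 : (K : ℝ) / η ≤ η * X := by
    have h3 : (K : ℝ) / η / η ≤ X := hX₀.trans (by exact_mod_cast hX)
    rw [div_le_iff₀ hη0] at h3
    linarith
  have h3 : ε = 9 * η := by rw [hη]; ring
  rw [h3]
  linarith

end Pool.Agent.TwoSqPow
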