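import Mathlib

set_option autoImplicit false

/-!
For squarefree `e ≥ 2`, up to few exceptions, there is a prime `q ≡ 3 mod 4` such that `2` has
order `e` modulo `q`.
-/

namespace Pool.Agent.TwoSqPow

open Polynomial

lemma exists_prime_three {m : ℕ} (h : m % 4 = 3) : ∃ p : ℕ, p.Prime ∧ p ∣ m ∧ p % 4 = 3 := by
  induction m using Nat.strong_induction_on with
  | _ m ih =>
    have hm1 : m ≠ 1 := by omega
    have hp := Nat.minFac_prime hm1
    obtain ⟨k, hk⟩ := Nat.minFac_dvd m
    set p := m.minFac with hpdef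
    have hm0 : m ≠ 0 := by omega
    have hk0 : k ≠ 0 := by rintro rfl; omega
    by_cases hp3 : p % 4 = 3
    · exact ⟨p, hp, Nat.minFac_dvd m, hp3⟩
    · have hodd : p % 2 = 1 := by
        rcases hp.eq_two_or_odd with h2 | h2
        · rw [h2] at hk; omega
        · exact h2
      have hp1 : p % 4 = 1 := by omega
      have hk3 : k % 4 = 3 := by
        have : (p * k) % 4 = 3 := by rw [← hk]; exact h
        rw [Nat.mul_mod, hp1, one_mul, Nat.mod_mod] at this
        exact this
      have hlt : k < m := by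
        rw [hk]
        have := hp.two_le
        nlinarith [Nat.pos_of_ne_zero hk0]
      obtain ⟨q, hq, hqk, hq3⟩ := ih k hlt hk3
      exact ⟨q, hq, hqk.trans ⟨p, by rw [hk]; ring⟩, hq3⟩

lemma even_card_divisors {n : ℕ} (hn : 2 ≤ n) (hs : Squarefree n) : Even n.divisors.card := by
  rw [Nat.card_divisors (by omega)]
  obtain ⟨p, hp, hpn⟩ := Nat.exists_prime_and_dvd (show n ≠ 1 by omega)
  have h1 : n.factorization p = 1 := by
    apply le_antisymm
    · exact (Nat.squarefree_iff_factorization_le_one (by omega)).mp hs p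
    · exact (hp.dvd_iff_one_le_factorization (by omega)).mp hpn
  have hmem : p ∈ n.primeFactors := Nat.mem_primeFactors.mpr ⟨hp, hpn, by omega⟩
  have h2 := Finset.dvd_prod_of_mem (fun x => n.factorization x + 1) hmem
  simp only [h1] at h2
  exact even_iff_two_dvd.mpr h2

lemma cyclo_mod_four {n : ℕ} (hn : 2 ≤ n) (hs : Squarefree n) :
    ((eval 2 (cyclotomic n ℤ) : ℤ) : ZMod 4) = -1 := by
  induction n using Nat.strong_induction_on with
  | _ n ih =>
    have hprod := prod_cyclotomic_eq_X_pow_sub_one (n := n) (by omega) ℤ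
    have h2 := congrArg (fun P : ℤ[X] => ((eval 2 P : ℤ) : ZMod 4)) hprod
    simp only [eval_prod, eval_sub, eval_pow, eval_X, eval_one] at h2
    push_cast at h2
    have h3 : ((2:ZMod 4)) ^ n = 0 := by
      obtain ⟨k, rfl⟩ : ∃ k, n = 2 + k := ⟨n - 2, by omega⟩
      rw [pow_add]
      have : (2 : ZMod 4) ^ 2 = 0 := by decide
      rw [this, zero_mul]
    rw [h3, zero_sub] at h2
    -- split the divisors
    have hmem1 : 1 ∈ n.divisors := Nat.one_mem_divisors.mpr (by omega)
    have hmemn : n ∈ n.divisors.erase 1 := by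
      rw [Finset.mem_erase]
      exact ⟨by omega, Nat.mem_divisors_self n (by omega)⟩
    rw [← Finset.mul_prod_erase _ _ hmem1, ← Finset.mul_prod_erase _ _ hmemn] at h2
    have hrest : ∏ d ∈ (n.divisors.erase 1).erase n,
        ((eval 2 (cyclotomic d ℤ) : ℤ) : ZMod 4) = 1 := by
      have : ∀ d ∈ (n.divisors.erase 1).erase n,
          ((eval 2 (cyclotomic d ℤ) : ℤ) : ZMod 4) = -1 := by
        intro d hd
        rw [Finset.mem_erase, Finset.mem_erase, Nat.mem_divisors] at hd
        have hdn : d ∣ n := hd.2.2.1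
        have hd0 : d ≠ 0 := by rintro rfl; simp at hdn; omega
        have hdle := Nat.le_of_dvd (by omega) hdn
        apply ih d (by omega) (by omega) (hs.squarefree_of_dvd hdn)
      rw [Finset.prod_congr rfl this, Finset.prod_const]
      have hc : Even ((n.divisors.erase 1).erase n).card := by
        rw [Finset.card_erase_of_mem hmemn, Finset.card_erase_of_mem hmem1]
        have := even_card_divisors hn hs
        obtain ⟨k, hk⟩ := this
        exact ⟨k - 1, by omega⟩
      exact hc.neg_one_pow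
    rw [hrest, mul_one] at h2
    simpa using h2

/-- `e` is the order of `2` modulo a prime `q ≡ 3 mod 4`. -/
def Good (e : ℕ) : Prop := ∃ q : ℕ, q.Prime ∧ q % 4 = 3 ∧ orderOf (2 : ZMod q) = e

lemma lt_two_pow_orderOf {q : ℕ} (hq : q.Prime) (h2 : q ≠ 2) : q < 2 ^ orderOf (2 : ZMod q) := by
  have : Fact q.Prime := ⟨hq⟩
  have hne : (2 : ZMod q) ≠ 0 := by
    intro h
    have : ((2 : ℕ) : ZMod q) = 0 := by exact_mod_cast h
    rw [ZMod.natCast_eq_zero_iff] at this
    exact h2 ((Nat.prime_dvd_prime_iff_eq hq Nat.prime_two).mp this)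
  have hpos : 0 < orderOf (2 : ZMod q) := by
    rw [orderOf_pos_iff]
    have hu : IsOfFinOrder (Units.mk0 (2 : ZMod q) hne) := isOfFinOrder_of_finite _
    have := (Units.isOfFinOrder_val (u := Units.mk0 (2 : ZMod q) hne)).mpr hu
    simpa using this
  have h1 : (2 : ZMod q) ^ orderOf (2 : ZMod q) = 1 := pow_orderOf_eq_one _
  have h3 : q ∣ 2 ^ orderOf (2 : ZMod q) - 1 := by
    rw [← ZMod.natCast_eq_zero_iff, Nat.cast_sub Nat.one_le_two_pow]
    push_cast
    rw [h1]; simp
  have h4 : 0 < 2 ^ orderOf (2 : ZMod q) - 1 := by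
    have : 2 ^ 1 ≤ 2 ^ orderOf (2 : ZMod q) := Nat.pow_le_pow_right (by norm_num) hpos
    omega
  have := Nat.le_of_dvd h4 h3
  omega

lemma good_or_exceptional {e : ℕ} (he : 2 ≤ e) (hs : Squarefree e) :
    Good e ∨ ∃ q : ℕ, q.Prime ∧ q ≠ 2 ∧ e = orderOf (2 : ZMod q) * q := by
  have h4 := cyclo_mod_four he hs
  have hpos : 0 < eval 2 (cyclotomic e ℤ) := cyclotomic_pos' e (by norm_num)
  obtain ⟨c, hc⟩ := Int.eq_ofNat_of_zero_le hpos.le
  have hc3 : c % 4 = 3 := by
    have h5 : ((eval 2 (cyclotomic e ℤ) : ℤ) : ZMod 4) = ((-1 : ℤ) : ZMod 4) := by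
      rw [h4]; simp
    rw [ZMod.intCast_eq_intCast_iff, hc] at h5
    have := h5
    unfold Int.ModEq at this
    omega
  obtain ⟨q, hq, hqc, hq3⟩ := exists_prime_three hc3
  have : Fact q.Prime := ⟨hq⟩
  have hq2 : q ≠ 2 := by rintro rfl; omega
  have hroot : IsRoot (cyclotomic e (ZMod q)) 2 := by
    rw [IsRoot.def, ← map_cyclotomic_int, eval_map, eval₂_eq_eval_map]
    have h6 : eval (2 : ZMod q) (map (Int.castRingHom (ZMod q)) (cyclotomic e ℤ))
        = ((eval 2 (cyclotomic e ℤ) : ℤ) : ZMod q) := by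
      have := Polynomial.eval_intCast_map (Int.castRingHom (ZMod q)) (cyclotomic e ℤ) 2
      simpa using this
    rw [h6, hc]
    have : ((c : ℕ) : ZMod q) = 0 := (ZMod.natCast_eq_zero_iff _ _).mpr hqc
    exact_mod_cast this
  by_cases hqe : q ∣ e
  · right
    refine ⟨q, hq, hq2, ?_⟩
    obtain ⟨e', rfl⟩ := hqe
    have hq' : ¬ q ∣ e' := by
      intro h
      have h7 : q * q ∣ q * e' := mul_dvd_mul_left q h
      have := hs q h7
      exact hq.one_lt.ne' (Nat.isUnit_iff.mp this)
    rw [mul_comm q e', cyclotomic_mul_prime_eq_pow_of_not_dvd (ZMod q) hq', IsRoot.def,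
      eval_pow] at hroot
    have h8 : eval 2 (cyclotomic e' (ZMod q)) = 0 := by
      exact pow_eq_zero_iff (Nat.sub_ne_zero_of_lt hq.one_lt) |>.mp hroot
    have : NeZero (e' : ZMod q) := ⟨by rwa [Ne, ZMod.natCast_eq_zero_iff]⟩
    have h9 : IsPrimitiveRoot (2 : ZMod q) e' := isRoot_cyclotomic_iff.mp h8
    rw [← h9.eq_orderOf, mul_comm]
  · left
    have : NeZero (e : ZMod q) := ⟨by rwa [Ne, ZMod.natCast_eq_zero_iff]⟩
    have h9 : IsPrimitiveRoot (2 : ZMod q) e := isRoot_cyclotomic_iff.mp hroot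
    exact ⟨q, hq, hq3, h9.eq_orderOf.symm⟩

end Pool.Agent.TwoSqPow
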