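import Mathlib
import Pool.Agent.TwoSqPow.Order

set_option autoImplicit false

/-!
Many `e ∈ (n, 2n]` are orders of `2` modulo primes `q ≡ 3 mod 4`.
-/

namespace Pool.Agent.TwoSqPow

open Finset

lemma card_mult (n d : ℕ) (hd : 0 < d) : #{x ∈ Ioc n (2 * n) | d ∣ x} ≤ n / d + 1 := by
  have h1 : #{x ∈ Ioc n (2 * n) | d ∣ x} + #{x ∈ Ioc 0 n | d ∣ x} = #{x ∈ Ioc 0 (2 * n) | d ∣ x} := by
    rw [← card_union_of_disjoint]
    · congr 1
      ext x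
      simp only [mem_union, mem_filter, mem_Ioc]
      constructor
      · rintro (⟨h, h'⟩ | ⟨h, h'⟩)
        · exact ⟨by omega, h'⟩
        · exact ⟨by omega, h'⟩
      · rintro ⟨h, h'⟩
        by_cases hx : n < x
        · left; exact ⟨by omega, h'⟩
        · right; exact ⟨by omega, h'⟩
    · rw [disjoint_left]
      intro x hx hx'
      simp only [mem_filter, mem_Ioc] at hx hx'
      omega
  rw [Nat.Ioc_filter_dvd_card_eq_div, Nat.Ioc_filter_dvd_card_eq_div] at h1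
  have h2 : 2 * n / d ≤ 2 * (n / d) + 1 := by
    have h3 := Nat.div_add_mod n d
    have h4 := Nat.mod_lt n hd
    have h5 : 2 * n < d * (2 * (n / d) + 2) := by nlinarith
    have := Nat.div_lt_of_lt_mul h5
    omega
  omega

lemma card_mult_real (n d : ℕ) (hd : 0 < d) :
    (#{x ∈ Ioc n (2 * n) | d ∣ x} : ℝ) ≤ n / d + 1 := by
  have h1 := card_mult n d hd
  have h2 : ((n / d : ℕ) : ℝ) ≤ n / d := Nat.cast_div_le
  have h3 : (#{x ∈ Ioc n (2 * n) | d ∣ x} : ℝ) ≤ ((n / d : ℕ) : ℝ) + 1 := by exact_mod_cast h1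
  linarith

lemma sum_odd_sq (s : ℕ) : ∑ j ∈ Ico 2 (s + 2), (1 : ℝ) / ((2 * j + 1) ^ 2 : ℕ) ≤
    1 / 8 - 1 / (4 * (s + 2)) := by
  induction s with
  | zero => norm_num
  | succ s ih =>
    rw [show s + 1 + 2 = (s + 2) + 1 from by ring, sum_Ico_succ_top (by omega)]
    push_cast at ih ⊢
    have hs : (0 : ℝ) ≤ s := Nat.cast_nonneg s
    have h1 : (1 : ℝ) / (2 * ((s : ℝ) + 2) + 1) ^ 2 ≤ 1 / (4 * (s + 2)) - 1 / (4 * (s + 1 + 2)) := by
      rw [div_sub_div _ _ (by positivity) (by positivity), div_le_div_iff₀ (by positivity)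
        (by positivity)]
      nlinarith
    linarith

lemma card_nonsqfree (n : ℕ) :
    (#{x ∈ Ioc n (2 * n) | ¬ Squarefree x} : ℝ) ≤ 35 / 72 * n + Nat.sqrt (2 * n) + 2 := by
  set s := Nat.sqrt (2 * n) with hs
  have hsub : ({x ∈ Ioc n (2 * n) | ¬ Squarefree x} : Finset ℕ) ⊆
      {x ∈ Ioc n (2 * n) | 4 ∣ x} ∪ ({x ∈ Ioc n (2 * n) | 9 ∣ x} ∪
        (Ico 2 (s + 2)).biUnion fun j => {x ∈ Ioc n (2 * n) | (2 * j + 1) ^ 2 ∣ x}) := by
    intro x hx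
    rw [mem_filter, Nat.squarefree_iff_prime_squarefree] at hx
    push Not at hx
    obtain ⟨hx1, p, hp, hpx⟩ := hx
    rw [mem_union, mem_union, mem_biUnion]
    by_cases h2 : p = 2
    · left; subst h2; exact mem_filter.mpr ⟨hx1, hpx⟩
    by_cases h3 : p = 3
    · right; left; subst h3; exact mem_filter.mpr ⟨hx1, hpx⟩
    right; right
    have hodd := hp.eq_two_or_odd.resolve_left h2
    have hp2 := hp.two_le
    have hx1' := mem_Ioc.mp hx1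
    have hle : p * p ≤ 2 * n := le_trans (Nat.le_of_dvd (by omega) hpx) hx1'.2
    have hps : p ≤ s := by rw [hs]; exact Nat.le_sqrt.mpr hle
    refine ⟨p / 2, mem_Ico.mpr ⟨by omega, by omega⟩, mem_filter.mpr ⟨hx1, ?_⟩⟩
    have : 2 * (p / 2) + 1 = p := by omega
    rw [this, sq]
    exact hpx
  have h1 := card_le_card hsub
  have h2 := card_union_le ({x ∈ Ioc n (2 * n) | 4 ∣ x} : Finset ℕ)
    ({x ∈ Ioc n (2 * n) | 9 ∣ x} ∪
        (Ico 2 (s + 2)).biUnion fun j => {x ∈ Ioc n (2 * n) | (2 * j + 1) ^ 2 ∣ x})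
  have h3 := card_union_le ({x ∈ Ioc n (2 * n) | 9 ∣ x} : Finset ℕ)
    ((Ico 2 (s + 2)).biUnion fun j => {x ∈ Ioc n (2 * n) | (2 * j + 1) ^ 2 ∣ x})
  have h4 := card_biUnion_le (s := Ico 2 (s + 2))
    (t := fun j => ({x ∈ Ioc n (2 * n) | (2 * j + 1) ^ 2 ∣ x} : Finset ℕ))
  have h5 : (#({x ∈ Ioc n (2 * n) | ¬ Squarefree x}) : ℝ) ≤ #{x ∈ Ioc n (2 * n) | 4 ∣ x} +
      (#{x ∈ Ioc n (2 * n) | 9 ∣ x} +
        ∑ j ∈ Ico 2 (s + 2), #{x ∈ Ioc n (2 * n) | (2 * j + 1) ^ 2 ∣ x} : ℕ) := by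
    exact_mod_cast (h1.trans h2).trans (by omega)
  push_cast at h5
  have h6 := card_mult_real n 4 (by norm_num)
  have h7 := card_mult_real n 9 (by norm_num)
  have h8 : ∑ j ∈ Ico 2 (s + 2), (#{x ∈ Ioc n (2 * n) | (2 * j + 1) ^ 2 ∣ x} : ℝ) ≤
      n * (1 / 8) + s := by
    calc ∑ j ∈ Ico 2 (s + 2), (#{x ∈ Ioc n (2 * n) | (2 * j + 1) ^ 2 ∣ x} : ℝ)
        ≤ ∑ j ∈ Ico 2 (s + 2), (n * ((1 : ℝ) / ((2 * j + 1) ^ 2 : ℕ)) + 1) := by
          apply sum_le_sum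
          intro j _
          have := card_mult_real n ((2 * j + 1) ^ 2) (by positivity)
          rw [mul_one_div]
          exact this
      _ = n * ∑ j ∈ Ico 2 (s + 2), ((1 : ℝ) / ((2 * j + 1) ^ 2 : ℕ)) + s := by
          rw [sum_add_distrib, ← mul_sum]
          simp
      _ ≤ n * (1 / 8) + s := by
          have := sum_odd_sq s
          have h9 : (0 : ℝ) ≤ 1 / (4 * (s + 2)) := by positivity
          gcongr
          linarith
  push_cast at h6 h7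
  linarith

open Classical in
lemma card_exceptional (n k : ℕ) (hk : 0 < k) :
    #{x ∈ Ioc n (2 * n) | ∃ q : ℕ, q.Prime ∧ q ≠ 2 ∧ x = orderOf (2 : ZMod q) * q} ≤
      2 ^ k + 2 * n / k + 1 := by
  have hsub : ({x ∈ Ioc n (2 * n) | ∃ q : ℕ, q.Prime ∧ q ≠ 2 ∧ x = orderOf (2 : ZMod q) * q} :
      Finset ℕ) ⊆ (range (2 ^ k + 2 * n / k + 1)).image (fun q => orderOf (2 : ZMod q) * q) := by
    intro x hx
    rw [mem_filter, mem_Ioc] at hx
    obtain ⟨hx1, q, hq, hq2, rfl⟩ := hx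
    rw [mem_image]
    refine ⟨q, ?_, rfl⟩
    rw [mem_range]
    have h1 := lt_two_pow_orderOf hq hq2
    by_cases hkq : orderOf (2 : ZMod q) < k
    · have : 2 ^ orderOf (2 : ZMod q) ≤ 2 ^ k := Nat.pow_le_pow_right (by norm_num) hkq.le
      have h0 : 0 ≤ 2 * n / k := Nat.zero_le _
      omega
    · push Not at hkq
      have h2 : q ≤ 2 * n / k := by
        rw [Nat.le_div_iff_mul_le hk]
        nlinarith
      have h3 : 0 < 2 ^ k := by positivity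
      omega
  exact (card_le_card hsub).trans (card_image_le.trans (by simp))

open Classical in
lemma card_good (n : ℕ) (hn : 1 ≤ n) : (n : ℝ) ≤
    #{x ∈ Ioc n (2 * n) | Good x} + (35 / 72 * n + Nat.sqrt (2 * n) + 2) +
      (2 ^ 100 + n / 50 + 1) := by
  have hsub : Ioc n (2 * n) ⊆ {x ∈ Ioc n (2 * n) | Good x} ∪
      ({x ∈ Ioc n (2 * n) | ¬ Squarefree x} ∪
        {x ∈ Ioc n (2 * n) | ∃ q : ℕ, q.Prime ∧ q ≠ 2 ∧ x = orderOf (2 : ZMod q) * q}) := by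
    intro x hx
    rw [mem_union, mem_union, mem_filter, mem_filter, mem_filter]
    have hx' := mem_Ioc.mp hx
    by_cases hs : Squarefree x
    · rcases good_or_exceptional (by omega) hs with h | h
      · left; exact ⟨hx, h⟩
      · right; right; exact ⟨hx, h⟩
    · right; left; exact ⟨hx, hs⟩
  have h1 := card_le_card hsub
  rw [Nat.card_Ioc] at h1
  have h2 := card_union_le ({x ∈ Ioc n (2 * n) | Good x} : Finset ℕ)
      ({x ∈ Ioc n (2 * n) | ¬ Squarefree x} ∪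
        {x ∈ Ioc n (2 * n) | ∃ q : ℕ, q.Prime ∧ q ≠ 2 ∧ x = orderOf (2 : ZMod q) * q})
  have h3 := card_union_le ({x ∈ Ioc n (2 * n) | ¬ Squarefree x} : Finset ℕ)
        {x ∈ Ioc n (2 * n) | ∃ q : ℕ, q.Prime ∧ q ≠ 2 ∧ x = orderOf (2 : ZMod q) * q}
  have h4 := card_nonsqfree n
  have h5 := card_exceptional n 100 (by norm_num)
  have h6 : ((2 * n / 100 : ℕ) : ℝ) ≤ n / 50 := by
    have : ((2 * n / 100 : ℕ) : ℝ) ≤ ((2 * n : ℕ) : ℝ) / ((100 : ℕ) : ℝ) := Nat.cast_div_le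
    push_cast at this
    linarith
  have h7 : (n : ℝ) ≤ (#{x ∈ Ioc n (2 * n) | Good x} : ℝ) +
      (#{x ∈ Ioc n (2 * n) | ¬ Squarefree x} +
       #{x ∈ Ioc n (2 * n) | ∃ q : ℕ, q.Prime ∧ q ≠ 2 ∧ x = orderOf (2 : ZMod q) * q}) := by
    have : n ≤ #{x ∈ Ioc n (2 * n) | Good x} + (#{x ∈ Ioc n (2 * n) | ¬ Squarefree x} +
       #{x ∈ Ioc n (2 * n) | ∃ q : ℕ, q.Prime ∧ q ≠ 2 ∧ x = orderOf (2 : ZMod q) * q}) := by
      omega
    exact_mod_cast this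
  have h8 : (#{x ∈ Ioc n (2 * n) | ∃ q : ℕ, q.Prime ∧ q ≠ 2 ∧ x = orderOf (2 : ZMod q) * q} : ℝ)
      ≤ 2 ^ 100 + n / 50 + 1 := by
    have : (#{x ∈ Ioc n (2 * n) | ∃ q : ℕ, q.Prime ∧ q ≠ 2 ∧ x = orderOf (2 : ZMod q) * q} : ℝ)
      ≤ ((2 ^ 100 + 2 * n / 100 + 1 : ℕ) : ℝ) := by exact_mod_cast h5
    push_cast at this
    have h9 : (((2 * n / 100 : ℕ)) : ℝ) = ((2 * n / 100 : ℕ) : ℝ) := rfl
    push_cast at h6
    linarith
  linarith

open Classical in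
/-- For all large `n` at least `9n/20` of the numbers in `(n, 2n]` are good. -/
lemma card_good_ge : ∃ n₀ : ℕ, ∀ n ≥ n₀, (9 / 20 : ℝ) * n ≤ #{x ∈ Ioc n (2 * n) | Good x} := by
  refine ⟨2 ^ 110, fun n hn => ?_⟩
  have h1 := card_good n (le_trans (Nat.one_le_two_pow) hn)
  have hn' : (2 : ℝ) ^ 110 ≤ n := by exact_mod_cast hn
  have h2 : (Nat.sqrt (2 * n) : ℝ) ≤ n / 100 := by
    have h3 : Nat.sqrt (2 * n) * Nat.sqrt (2 * n) ≤ 2 * n := Nat.sqrt_le _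
    have h3' : (Nat.sqrt (2 * n) : ℝ) * Nat.sqrt (2 * n) ≤ 2 * n := by exact_mod_cast h3
    by_contra hcon
    push Not at hcon
    have h0 : (0 : ℝ) ≤ n / 100 := by positivity
    have h4 : (n / 100 : ℝ) * (n / 100) ≤ (Nat.sqrt (2 * n) : ℝ) * Nat.sqrt (2 * n) := by
      apply mul_le_mul hcon.le hcon.le h0 (by positivity)
    nlinarith
  have h5 : (2 : ℝ) ^ 100 ≤ n / 1000 := by
    have : (2 : ℝ) ^ 110 = 1024 * 2 ^ 100 := by norm_num
    linarith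
  have h6 : (3 : ℝ) ≤ n / 1000 := by
    have : (3000 : ℝ) ≤ 2 ^ 110 := by norm_num
    linarith
  linarith

end Pool.Agent.TwoSqPow
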