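import Mathlib

set_option autoImplicit false

/-!
Choosing residue classes modulo squares of primes `q ≡ 3 mod 4` such that many of the numbers
`N - 2 - 2^b` are exactly divisible by such a prime.
-/

namespace Pool.Agent.TwoSqPow

open Finset

/-- `N - h` is exactly divisible by some prime `q ≡ 3 mod 4`. -/
def Killed (N h : ℕ) : Prop :=
  ∃ q : ℕ, q.Prime ∧ q % 4 = 3 ∧ (q : ℤ) ∣ (N : ℤ) - h ∧ ¬ (q : ℤ) ^ 2 ∣ (N : ℤ) - h

lemma dvd_of_dvd_sq_add_sq {q : ℕ} (hq : q.Prime) (h3 : q % 4 = 3) {x y : ℤ}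
    (h : (q : ℤ) ∣ x ^ 2 + y ^ 2) : (q : ℤ) ∣ y := by
  have : Fact q.Prime := ⟨hq⟩
  by_contra hy
  have hy' : (y : ZMod q) ≠ 0 := by rwa [Ne, ZMod.intCast_zmod_eq_zero_iff_dvd]
  have h1 : (x : ZMod q) ^ 2 + (y : ZMod q) ^ 2 = 0 := by
    have := (ZMod.intCast_zmod_eq_zero_iff_dvd (x ^ 2 + y ^ 2) q).mpr h
    push_cast at this
    exact this
  have h2 : ((x : ZMod q) / y) ^ 2 = -1 := by
    rw [div_pow, div_eq_iff (pow_ne_zero 2 hy')]
    linear_combination h1
  exact ZMod.mod_four_ne_three_of_sq_eq_neg_one h2 h3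

lemma Killed.ne {N h : ℕ} (hk : Killed N h) (x y : ℤ) : (N : ℤ) - h ≠ x ^ 2 + y ^ 2 := by
  obtain ⟨q, hq, h3, h1, h2⟩ := hk
  intro he
  rw [he] at h1 h2
  have hy := dvd_of_dvd_sq_add_sq hq h3 h1
  have hx := dvd_of_dvd_sq_add_sq hq h3 (by rwa [add_comm] at h1)
  exact h2 (dvd_add (pow_dvd_pow_of_dvd hx 2) (pow_dvd_pow_of_dvd hy 2))

/-- `q` exactly divides `2^i + c q - 2^b`. -/
def KB (q i c b : ℕ) : Prop :=
  (q : ℤ) ∣ ((2 : ℤ) ^ i + c * q) - 2 ^ b ∧ ¬ (q : ℤ) ^ 2 ∣ ((2 : ℤ) ^ i + c * q) - 2 ^ b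

open Classical in
lemma card_KB {q e : ℕ} (hq : q.Prime) (he : orderOf (2 : ZMod q) = e) (he0 : 0 < e) (b : ℕ) :
    q - 1 ≤ #{x ∈ range e ×ˢ range q | KB q x.1 x.2 b} := by
  have : Fact q.Prime := ⟨hq⟩
  have hq0 : (q : ℤ) ≠ 0 := by exact_mod_cast hq.ne_zero
  have h1 : (q : ℤ) ∣ 2 ^ (b % e) - 2 ^ b := by
    rw [← ZMod.intCast_zmod_eq_zero_iff_dvd]
    push_cast
    rw [← he, pow_mod_orderOf, sub_self]
  obtain ⟨m, hm⟩ := h1
  have h2 : (range q).filter (fun c : ℕ => ¬ (q : ℤ) ∣ m + c) ⊆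
      (({x ∈ range e ×ˢ range q | KB q x.1 x.2 b}).image Prod.snd) := by
    intro c hc
    rw [mem_filter, mem_range] at hc
    rw [mem_image]
    refine ⟨(b % e, c), ?_, rfl⟩
    rw [mem_filter, mem_product, mem_range, mem_range]
    refine ⟨⟨Nat.mod_lt _ he0, hc.1⟩, ?_⟩
    have e1 : ((2 : ℤ) ^ (b % e) + c * q) - 2 ^ b = q * (m + c) := by linear_combination hm
    refine ⟨?_, ?_⟩
    · show (q : ℤ) ∣ ((2 : ℤ) ^ (b % e) + c * q) - 2 ^ b
      rw [e1]; exact dvd_mul_right _ _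
    · show ¬ (q : ℤ) ^ 2 ∣ ((2 : ℤ) ^ (b % e) + c * q) - 2 ^ b
      rw [e1, sq]
      intro h
      exact hc.2 ((mul_dvd_mul_iff_left hq0).mp h)
  have h3 : #((range q).filter (fun c : ℕ => (q : ℤ) ∣ m + c)) ≤ 1 := by
    rw [card_le_one]
    intro a ha c hc
    rw [mem_filter, mem_range] at ha hc
    have h4 : (q : ℤ) ∣ (a : ℤ) - c := by
      have := dvd_sub ha.2 hc.2
      have e2 : m + (a : ℤ) - (m + c) = a - c := by ring
      rwa [e2] at this
    have h5 : ((a : ℤ) - c) = 0 := by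
      apply Int.eq_zero_of_abs_lt_dvd h4
      rw [abs_lt]
      constructor <;> omega
    omega
  have h4 : #((range q).filter (fun c : ℕ => (q : ℤ) ∣ m + c)) +
      #((range q).filter (fun c : ℕ => ¬ (q : ℤ) ∣ m + c)) = q := by
    rw [card_filter_add_card_filter_not, card_range]
  have h5 := (card_le_card h2).trans card_image_le
  omega

open Classical in
lemma step {q e : ℕ} (hq : q.Prime) (he : orderOf (2 : ZMod q) = e) (he0 : 0 < e)
    (B : Finset ℕ) : ∃ i c : ℕ, #{b ∈ B | ¬ KB q i c b} * (e + 1) ≤ #B * e := by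
  have : Fact q.Prime := ⟨hq⟩
  have hqe : e + 1 ≤ q := by
    have h1 : e ≤ q - 1 := by
      have hne : (2 : ZMod q) ≠ 0 := by
        intro h
        rw [h] at he
        have : orderOf (0 : ZMod q) = 0 := by
          rw [orderOf_eq_zero_iff]
          intro hfin
          have hp := hfin.orderOf_pos
          have h2 := pow_orderOf_eq_one (0 : ZMod q)
          rw [zero_pow hp.ne'] at h2
          exact zero_ne_one h2
        omega
      have := ZMod.orderOf_dvd_card_sub_one hne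
      rw [he] at this
      exact Nat.le_of_dvd (Nat.sub_pos_of_lt hq.one_lt) this
    have := hq.two_le
    omega
  have hdc : ∑ x ∈ range e ×ˢ range q, #{b ∈ B | KB q x.1 x.2 b} =
      ∑ b ∈ B, #{x ∈ range e ×ˢ range q | KB q x.1 x.2 b} := by
    simp_rw [card_filter]
    rw [sum_comm]
  have hge : #B * (q - 1) ≤ ∑ x ∈ range e ×ˢ range q, #{b ∈ B | KB q x.1 x.2 b} := by
    rw [hdc, ← smul_eq_mul, ← sum_const]
    exact sum_le_sum (fun b _ => card_KB hq he he0 b)
  by_contra hcon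
  push Not at hcon
  have hlt : ∀ x ∈ range e ×ˢ range q, e * q * #{b ∈ B | KB q x.1 x.2 b} < #B * (q - 1) := by
    intro x _
    have h1 := hcon x.1 x.2
    have h2 : #{b ∈ B | KB q x.1 x.2 b} + #{b ∈ B | ¬ KB q x.1 x.2 b} = #B := by
      rw [card_filter_add_card_filter_not]
    set k := #{b ∈ B | KB q x.1 x.2 b} with hk
    set k' := #{b ∈ B | ¬ KB q x.1 x.2 b} with hk'
    obtain ⟨r, hr⟩ : ∃ r, q = e + 1 + r := ⟨q - (e + 1), by omega⟩
    have h3 : q - 1 = e + r := by omega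
    rw [h3, ← h2, hr]
    rw [← h2] at h1
    -- (k + k') * e < k' * (e + 1), i.e. k * e < k'
    have h4 : k * e < k' := by nlinarith
    nlinarith [Nat.zero_le (k' * r), Nat.zero_le (k * r), mul_lt_mul_of_pos_left h4 (show 0 < e + r by omega)]
  have hne : (range e ×ˢ range q).Nonempty := by
    rw [nonempty_product]
    exact ⟨nonempty_range_iff.mpr he0.ne', nonempty_range_iff.mpr hq.ne_zero⟩
  have hsum := sum_lt_sum_of_nonempty hne hlt
  rw [← mul_sum, sum_const, card_product, card_range, card_range, smul_eq_mul] at hsum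
  have hpos : 0 < e * q := Nat.mul_pos he0 hq.pos
  have := lt_of_mul_lt_mul_left hsum (Nat.zero_le _)
  omega

/-- transfer of exact divisibility modulo `q²` -/
lemma killed_of_modEq {q N N' h : ℕ} (hq : q.Prime) (h3 : q % 4 = 3)
    (hN : N ≡ N' [MOD q ^ 2]) (h1 : (q : ℤ) ∣ (N' : ℤ) - h) (h2 : ¬ (q : ℤ) ^ 2 ∣ (N' : ℤ) - h) :
    Killed N h := by
  have hd : (q : ℤ) ^ 2 ∣ (N : ℤ) - N' := by
    have := (Nat.modEq_iff_dvd.mp hN.symm)
    push_cast at this
    exact this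
  have hd1 : (q : ℤ) ∣ (N : ℤ) - N' := (dvd_pow_self _ two_ne_zero).trans hd
  refine ⟨q, hq, h3, ?_, ?_⟩
  · have := dvd_add hd1 h1
    have e : (N : ℤ) - N' + (N' - h) = N - h := by ring
    rwa [e] at this
  · intro h4
    apply h2
    have := dvd_sub h4 hd
    have e : (N : ℤ) - h - (N - N') = N' - h := by ring
    rwa [e] at this

/-- Greedy choice of classes. -/
lemma greedy (l : List (ℕ × ℕ)) : (∀ x ∈ l, x.2.Prime ∧ x.2 % 4 = 3 ∧ 0 < x.1 ∧
      orderOf (2 : ZMod x.2) = x.1) → (l.map Prod.snd).Nodup →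
    ∀ (M N₀ : ℕ) (B : Finset ℕ), (∀ x ∈ l, Nat.Coprime M x.2) →
    ∃ (N₁ : ℕ) (B' : Finset ℕ), B' ⊆ B ∧ N₁ ≡ N₀ [MOD M] ∧
      #B' * (l.map (fun x => x.1 + 1)).prod ≤ #B * (l.map Prod.fst).prod ∧
      ∀ b ∈ B, b ∉ B' → ∀ N, N ≡ N₁ [MOD M * (l.map (fun x => x.2 ^ 2)).prod] →
        Killed N (2 + 2 ^ b) := by
  classical
  induction l with
  | nil =>
    intro _ _ M N₀ B _
    exact ⟨N₀, B, Subset.refl _, rfl, by simp, fun b hb hb' => absurd hb hb'⟩
  | cons x l ih =>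
    intro hl hnd M N₀ B hM
    obtain ⟨e, q⟩ := x
    obtain ⟨hq, hq3, he0, he⟩ := hl (e, q) List.mem_cons_self
    simp only at hq hq3 he0 he
    obtain ⟨i, c, hic⟩ := step hq he he0 B
    have hMq : Nat.Coprime M (q ^ 2) := Nat.Coprime.pow_right 2 (hM (e, q) List.mem_cons_self)
    obtain ⟨N₀', h1, h2⟩ := Nat.chineseRemainder hMq N₀ (2 + 2 ^ i + c * q)
    rw [List.map_cons, List.nodup_cons] at hnd
    obtain ⟨N₁, B', hB', hN₁, hcard, hkill⟩ := ih (fun x hx => hl x (List.mem_cons_of_mem _ hx))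
      hnd.2 (M * q ^ 2) N₀' (B.filter (fun b => ¬ KB q i c b)) (by
        intro x hx
        apply Nat.Coprime.mul_left
        · exact hM x (List.mem_cons_of_mem _ hx)
        · apply Nat.Coprime.pow_left
          rw [Nat.coprime_primes hq (hl x (List.mem_cons_of_mem _ hx)).1]
          rintro rfl
          exact hnd.1 (List.mem_map.mpr ⟨x, hx, rfl⟩))
    refine ⟨N₁, B', hB'.trans (filter_subset _ _), ?_, ?_, ?_⟩
    · exact (hN₁.of_mul_right _).trans h1
    · rw [List.map_cons, List.prod_cons, List.map_cons, List.prod_cons]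
      calc #B' * ((e + 1) * (l.map (fun x => x.1 + 1)).prod)
          = (#B' * (l.map (fun x => x.1 + 1)).prod) * (e + 1) := by ring
        _ ≤ (#(B.filter (fun b => ¬ KB q i c b)) * (l.map Prod.fst).prod) * (e + 1) :=
            Nat.mul_le_mul_right _ hcard
        _ = (#(B.filter (fun b => ¬ KB q i c b)) * (e + 1)) * (l.map Prod.fst).prod := by ring
        _ ≤ (#B * e) * (l.map Prod.fst).prod := Nat.mul_le_mul_right _ hic
        _ = #B * (e * (l.map Prod.fst).prod) := by ring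
    · intro b hb hb' N hN
      have hmod : M * (((e, q) :: l).map (fun x => x.2 ^ 2)).prod =
          M * q ^ 2 * (l.map (fun x => x.2 ^ 2)).prod := by
        rw [List.map_cons, List.prod_cons]; ring
      rw [hmod] at hN
      by_cases hKB : KB q i c b
      · have h4 : N ≡ 2 + 2 ^ i + c * q [MOD q ^ 2] :=
          ((hN.of_mul_right _).of_mul_left _).trans ((hN₁.of_mul_left _).trans h2)
        have e1 : ((2 + 2 ^ i + c * q : ℕ) : ℤ) - ((2 + 2 ^ b : ℕ) : ℤ) =
            ((2 : ℤ) ^ i + c * q) - 2 ^ b := by push_cast; ring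
        apply killed_of_modEq hq hq3 h4
        · rw [e1]; exact hKB.1
        · rw [e1]; exact hKB.2
      · exact hkill b (mem_filter.mpr ⟨hb, hKB⟩) hb' N hN

/-- Killing finitely many numbers by one prime each. -/
lemma assign (l : List (ℕ × ℕ)) : (∀ x ∈ l, x.2.Prime ∧ x.2 % 4 = 3) → (l.map Prod.snd).Nodup →
    ∀ (M N₀ : ℕ), (∀ x ∈ l, Nat.Coprime M x.2) →
    ∃ N₁ : ℕ, N₁ ≡ N₀ [MOD M] ∧
      ∀ x ∈ l, ∀ N, N ≡ N₁ [MOD M * (l.map (fun x => x.2 ^ 2)).prod] → Killed N x.1 := by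
  induction l with
  | nil =>
    intro _ _ M N₀ _
    exact ⟨N₀, rfl, fun x hx => absurd hx (List.not_mem_nil)⟩
  | cons x l ih =>
    intro hl hnd M N₀ hM
    obtain ⟨h, r⟩ := x
    obtain ⟨hr, hr3⟩ := hl (h, r) List.mem_cons_self
    simp only at hr hr3
    have hMr : Nat.Coprime M (r ^ 2) := Nat.Coprime.pow_right 2 (hM (h, r) List.mem_cons_self)
    obtain ⟨N₀', h1, h2⟩ := Nat.chineseRemainder hMr N₀ (h + r)
    rw [List.map_cons, List.nodup_cons] at hnd
    obtain ⟨N₁, hN₁, hkill⟩ := ih (fun x hx => hl x (List.mem_cons_of_mem _ hx))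
      hnd.2 (M * r ^ 2) N₀' (by
        intro x hx
        apply Nat.Coprime.mul_left
        · exact hM x (List.mem_cons_of_mem _ hx)
        · apply Nat.Coprime.pow_left
          rw [Nat.coprime_primes hr (hl x (List.mem_cons_of_mem _ hx)).1]
          rintro rfl
          exact hnd.1 (List.mem_map.mpr ⟨x, hx, rfl⟩))
    have hmod : M * (((h, r) :: l).map (fun x => x.2 ^ 2)).prod =
        M * r ^ 2 * (l.map (fun x => x.2 ^ 2)).prod := by
      rw [List.map_cons, List.prod_cons]; ring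
    refine ⟨N₁, (hN₁.of_mul_right _).trans h1, ?_⟩
    intro x hx N hN
    rw [hmod] at hN
    rw [List.mem_cons] at hx
    rcases hx with rfl | hx
    · have h4 : N ≡ h + r [MOD r ^ 2] :=
        ((hN.of_mul_right _).of_mul_left _).trans ((hN₁.of_mul_left _).trans h2)
      have e1 : ((h + r : ℕ) : ℤ) - (h : ℤ) = r := by push_cast; ring
      apply killed_of_modEq hr hr3 h4
      · rw [e1]
      · rw [e1]
        intro hd
        have h5 : (r : ℤ) ^ 2 ≤ r := Int.le_of_dvd (by exact_mod_cast hr.pos) hd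
        have h6 : (2 : ℤ) ≤ r := by exact_mod_cast hr.two_le
        nlinarith
    · exact hkill x hx N hN

end Pool.Agent.TwoSqPow
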