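import Mathlib
import Pool.Agent.TwoSqPow.Defs
import Pool.Agent.TwoSqPow.Sieve

set_option autoImplicit false

/-!
For `N ≡ 15 mod 16` only the numbers `N - 2`, `N - 5`, `N - 2 - 2^b` matter.
-/

namespace Pool.Agent.TwoSqPow

lemma zmod16 : ∀ x y : ZMod 16, x ^ 2 + y ^ 2 ≠ 3 ∧ x ^ 2 + y ^ 2 ≠ 6 ∧ x ^ 2 + y ^ 2 ≠ 7 ∧
    x ^ 2 + y ^ 2 ≠ 11 ∧ x ^ 2 + y ^ 2 ≠ 12 ∧ x ^ 2 + y ^ 2 ≠ 14 ∧ x ^ 2 + y ^ 2 ≠ 15 := by
  decide

lemma two_pow16 {a : ℕ} (h : 4 ≤ a) : (2 : ZMod 16) ^ a = 0 := by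
  obtain ⟨k, rfl⟩ : ∃ k, a = 4 + k := ⟨a - 4, by omega⟩
  rw [pow_add]
  have : (2 : ZMod 16) ^ 4 = 0 := by decide
  rw [this, zero_mul]

lemma not_representable {N : ℕ} (hN : N % 16 = 15) (h2 : Killed N 2) (h5 : Killed N 5)
    (hb : ∀ b, 2 + 2 ^ b ≤ N → Killed N (2 + 2 ^ b)) : ¬ Representable 2 N := by
  rintro ⟨x, y, l, hl, he⟩
  have hN16 : (N : ZMod 16) = 15 := by
    have : ((N : ℕ) : ZMod 16) = ((15 : ℕ) : ZMod 16) := by
      rw [ZMod.natCast_eq_natCast_iff]
      unfold Nat.ModEq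
      omega
    exact_mod_cast this
  have hz := zmod16 (x : ZMod 16) (y : ZMod 16)
  have he' := congrArg (fun z : ℤ => (z : ZMod 16)) he
  have hnn : 0 ≤ x ^ 2 + y ^ 2 := by positivity
  match l, hl with
  | [], _ =>
    simp only [List.map_nil, List.sum_nil, add_zero] at he'
    push_cast at he'
    rw [hN16] at he'
    exact hz.2.2.2.2.2.2 he'.symm
  | [a], _ =>
    simp only [List.map_cons, List.map_nil, List.sum_cons, List.sum_nil, add_zero] at he' he
    push_cast at he'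
    rw [hN16] at he'
    have h : (x : ZMod 16) ^ 2 + (y : ZMod 16) ^ 2 = 15 - 2 ^ a := by
      rw [he']; ring
    rw [h] at hz
    match a with
    | 0 => exact absurd (by decide) hz.2.2.2.2.2.1
    | 1 => exact h2.ne x y (by push_cast; linarith)
    | 2 => exact absurd (by decide) hz.2.2.2.1
    | 3 => exact absurd (by decide) hz.2.2.1
    | (a + 4) =>
      rw [two_pow16 (by omega), sub_zero] at hz
      exact absurd rfl hz.2.2.2.2.2.2
  | [a, b], _ =>
    simp only [List.map_cons, List.map_nil, List.sum_cons, List.sum_nil, add_zero] at he' he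
    push_cast at he'
    rw [hN16] at he'
    have h : (x : ZMod 16) ^ 2 + (y : ZMod 16) ^ 2 = 15 - 2 ^ a - 2 ^ b := by
      rw [he']; ring
    rw [h] at hz
    match a, b with
    | 0, 0 => exact h2.ne x y (by push_cast; linarith)
    | 0, 1 => exact absurd (by decide) hz.2.2.2.2.1
    | 0, 2 => exact h5.ne x y (by push_cast; linarith)
    | 0, 3 => exact absurd (by decide) hz.2.1
    | 0, (b + 4) =>
      rw [two_pow16 (show 4 ≤ b + 4 by omega)] at hz
      exact absurd (by decide) hz.2.2.2.2.2.1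
    | 1, b =>
      have hpos : (2 : ℤ) + 2 ^ b ≤ N := by linarith
      exact (hb b (by exact_mod_cast hpos)).ne x y (by push_cast; linarith)
    | a, 1 =>
      have hpos : (2 : ℤ) + 2 ^ a ≤ N := by linarith
      exact (hb a (by exact_mod_cast hpos)).ne x y (by push_cast; linarith)
    | 2, 0 => exact h5.ne x y (by push_cast; linarith)
    | 2, 2 => exact absurd (by decide) hz.2.2.1
    | 2, 3 => exact absurd (by decide) hz.1
    | 2, (b + 4) =>
      rw [two_pow16 (show 4 ≤ b + 4 by omega)] at hz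
      exact absurd (by decide) hz.2.2.2.1
    | 3, 0 => exact absurd (by decide) hz.2.1
    | 3, 2 => exact absurd (by decide) hz.1
    | 3, 3 => exact absurd (by decide) hz.2.2.2.2.2.2
    | 3, (b + 4) =>
      rw [two_pow16 (show 4 ≤ b + 4 by omega)] at hz
      exact absurd (by decide) hz.2.2.1
    | (a + 4), 0 =>
      rw [two_pow16 (show 4 ≤ a + 4 by omega)] at hz
      exact absurd (by decide) hz.2.2.2.2.2.1
    | (a + 4), 2 =>
      rw [two_pow16 (show 4 ≤ a + 4 by omega)] at hz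
      exact absurd (by decide) hz.2.2.2.1
    | (a + 4), 3 =>
      rw [two_pow16 (show 4 ≤ a + 4 by omega)] at hz
      exact absurd (by decide) hz.2.2.1
    | (a + 4), (b + 4) =>
      rw [two_pow16 (show 4 ≤ a + 4 by omega), two_pow16 (show 4 ≤ b + 4 by omega)] at hz
      exact absurd (by decide) hz.2.2.2.2.2.2
  | (_ :: _ :: _ :: _), hl => simp at hl

end Pool.Agent.TwoSqPow
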