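import Mathlib
import Pool.Agent.TwoSqPow.Reduce
import Pool.Agent.TwoSqPow.Count
import Pool.Agent.TwoSqPow.PrimesThree

set_option autoImplicit false

/-!
A residue class of small modulus all of whose members `< 2^L` are not `2`-representable.
-/

namespace Pool.Agent.TwoSqPow

open Finset

open Classical in
/-- the good numbers in `(2^j₀, 2^J]` -/
noncomputable def GS (j₀ J : ℕ) : Finset ℕ := {x ∈ Ioc (2 ^ j₀) (2 ^ J) | Good x}

lemma mem_GS {j₀ J x : ℕ} : x ∈ GS j₀ J ↔ (2 ^ j₀ < x ∧ x ≤ 2 ^ J) ∧ Good x := by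
  classical
  unfold GS
  rw [mem_filter, mem_Ioc]

lemma sum_GS : ∃ j₀ : ℕ, 5 ≤ j₀ ∧ ∀ J ≥ j₀, (0.22 : ℝ) * (J - j₀) ≤
    ∑ e ∈ GS j₀ J, (1 : ℝ) / (e + 1) := by
  classical
  obtain ⟨n₀, hn₀⟩ := card_good_ge
  refine ⟨max 5 n₀, le_max_left _ _, ?_⟩
  set j₀ := max 5 n₀ with hj₀
  intro J hJ
  induction J, hJ using Nat.le_induction with
  | base =>
    simp only [sub_self, mul_zero]
    exact sum_nonneg (fun i _ => by positivity)
  | succ J hJ ih =>
    have h1 : GS j₀ J ∪ {x ∈ Ioc (2 ^ J) (2 * 2 ^ J) | Good x} ⊆ GS j₀ (J + 1) := by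
      intro x hx
      rw [mem_union, mem_filter, mem_Ioc, mem_GS] at hx
      rw [mem_GS]
      have h2 : 2 ^ j₀ ≤ 2 ^ J := Nat.pow_le_pow_right (by norm_num) hJ
      have h3 : 2 ^ (J + 1) = 2 * 2 ^ J := by rw [pow_succ]; ring
      rcases hx with ⟨h, h'⟩ | ⟨h, h'⟩
      · exact ⟨⟨h.1, by omega⟩, h'⟩
      · exact ⟨⟨by omega, by omega⟩, h'⟩
    have hdisj : Disjoint (GS j₀ J) {x ∈ Ioc (2 ^ J) (2 * 2 ^ J) | Good x} := by
      rw [disjoint_left]
      intro x hx hx'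
      rw [mem_GS] at hx
      rw [mem_filter, mem_Ioc] at hx'
      omega
    have h2 := sum_le_sum_of_subset_of_nonneg (f := fun e : ℕ => (1 : ℝ) / (e + 1)) h1
      (fun i _ _ => by positivity)
    rw [sum_union hdisj] at h2
    have hpow : (2 ^ 5 : ℕ) ≤ 2 ^ J := Nat.pow_le_pow_right (by norm_num) (le_trans (le_max_left _ _) hJ)
    have hge : n₀ ≤ 2 ^ J := by
      have a1 : n₀ ≤ j₀ := le_max_right _ _
      have a2 : J < 2 ^ J := Nat.lt_two_pow_self
      omega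
    have h3 := hn₀ (2 ^ J) hge
    have h4 : ∑ x ∈ {x ∈ Ioc (2 ^ J) (2 * 2 ^ J) | Good x}, (1 : ℝ) / (2 * 2 ^ J + 1) ≤
        ∑ x ∈ {x ∈ Ioc (2 ^ J) (2 * 2 ^ J) | Good x}, (1 : ℝ) / (x + 1) := by
      apply sum_le_sum
      intro x hx
      rw [mem_filter, mem_Ioc] at hx
      apply one_div_le_one_div_of_le (by positivity)
      have : (x : ℝ) ≤ 2 * 2 ^ J := by exact_mod_cast hx.1.2
      linarith
    rw [sum_const, nsmul_eq_mul] at h4
    have hp : (32 : ℝ) ≤ 2 ^ J := by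
      have : ((2 ^ 5 : ℕ) : ℝ) ≤ ((2 ^ J : ℕ) : ℝ) := by exact_mod_cast hpow
      push_cast at this
      linarith
    have h5 : (0.22 : ℝ) ≤ #{x ∈ Ioc (2 ^ J) (2 * 2 ^ J) | Good x} * (1 / (2 * 2 ^ J + 1)) := by
      push_cast at h3
      have h6 : (9 / 20 : ℝ) * 2 ^ J * (1 / (2 * 2 ^ J + 1)) ≤
          #{x ∈ Ioc (2 ^ J) (2 * 2 ^ J) | Good x} * (1 / (2 * 2 ^ J + 1)) :=
        mul_le_mul_of_nonneg_right h3 (by positivity)
      have h7 : (0.22 : ℝ) ≤ (9 / 20 : ℝ) * 2 ^ J * (1 / (2 * 2 ^ J + 1)) := by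
        rw [mul_one_div, le_div_iff₀ (by positivity)]
        linarith
      linarith
    push_cast
    linarith

/-- the chosen prime of order `e` -/
noncomputable def qf (e : ℕ) : ℕ := by
  classical
  exact if h : Good e then h.choose else 0

lemma qf_spec {e : ℕ} (h : Good e) : (qf e).Prime ∧ qf e % 4 = 3 ∧ orderOf (2 : ZMod (qf e)) = e := by
  unfold qf
  rw [dif_pos h]
  exact h.choose_spec

lemma prod_div_le (s : Finset ℕ) : (∏ e ∈ s, (e : ℝ)) ≤
    (∏ e ∈ s, ((e : ℝ) + 1)) * Real.exp (-∑ e ∈ s, (1 : ℝ) / (e + 1)) := by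
  rw [← sum_neg_distrib, Real.exp_sum, ← prod_mul_distrib]
  apply prod_le_prod
  · intro i _; positivity
  · intro e _
    have h1 := Real.add_one_le_exp (-(1 / ((e : ℝ) + 1)))
    have h2 : (e : ℝ) = (e + 1) * (-(1 / ((e : ℝ) + 1)) + 1) := by
      field_simp
      ring
    calc (e : ℝ) = (e + 1) * (-(1 / ((e : ℝ) + 1)) + 1) := h2
      _ ≤ _ := mul_le_mul_of_nonneg_left h1 (by positivity)

theorem exists_modulus : ∃ j₀ : ℕ, ∀ L J : ℕ, j₀ ≤ J → 2 ^ J ≤ L → 2 ^ 20 ≤ L →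
    ∃ M N₁ t : ℕ, 0 < M ∧ (t : ℝ) ≤ L * Real.exp (-(0.22 * (J - j₀))) ∧
      M ≤ 16 * 4 ^ (2 ^ J * 2 ^ J) * ((2 * L + 2) ^ 2) ^ (2 * (t + 2)) ∧
      ∀ N, N ≡ N₁ [MOD M] → N < 2 ^ L → ¬ Representable 2 N := by
  classical
  obtain ⟨j₀, hj5, hsum⟩ := sum_GS
  refine ⟨j₀, fun L J hJ hJL hL => ?_⟩
  set E := GS j₀ J with hE
  have hE1 : ∀ e ∈ E, e ≤ 2 ^ J := fun e he => (mem_GS.mp he).1.2
  have hE2 : ∀ e ∈ E, Good e := fun e he => (mem_GS.mp he).2
  have hE3 : ∀ e ∈ E, 0 < e := fun e he => lt_of_le_of_lt (Nat.zero_le _) (mem_GS.mp he).1.1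
  have hEcard : #E ≤ 2 ^ J := by
    calc #E ≤ #(Ioc 0 (2 ^ J)) := by
          apply card_le_card
          intro e he
          exact mem_Ioc.mpr ⟨hE3 e he, hE1 e he⟩
      _ = 2 ^ J := by simp
  set l₁ : List (ℕ × ℕ) := E.toList.map (fun e => (e, qf e)) with hl₁
  have hinj : ∀ e ∈ E, ∀ e' ∈ E, qf e = qf e' → e = e' := by
    intro e he e' he' h
    have h1 := (qf_spec (hE2 e he)).2.2
    have h2 := (qf_spec (hE2 e' he')).2.2
    rw [h] at h1
    rw [← h1, h2]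
  have hsnd : l₁.map Prod.snd = E.toList.map qf := by
    rw [hl₁, List.map_map]; rfl
  have hfst : l₁.map Prod.fst = E.toList := by
    rw [hl₁, List.map_map]
    have : (Prod.fst ∘ fun e => (e, qf e)) = (id : ℕ → ℕ) := rfl
    rw [this, List.map_id]
  have hnd : (l₁.map Prod.snd).Nodup := by
    rw [hsnd]
    apply List.Nodup.map_on _ (nodup_toList E)
    intro x hx y hy h
    rw [mem_toList] at hx hy
    exact hinj x hx y hy h
  have hl₁mem : ∀ x ∈ l₁, x.2.Prime ∧ x.2 % 4 = 3 ∧ 0 < x.1 ∧ orderOf (2 : ZMod x.2) = x.1 := by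
    intro x hx
    rw [hl₁, List.mem_map] at hx
    obtain ⟨e, he, rfl⟩ := hx
    rw [mem_toList] at he
    have h1 := qf_spec (hE2 e he)
    exact ⟨h1.1, h1.2.1, hE3 e he, h1.2.2⟩
  have hcop16 : ∀ p : ℕ, p.Prime → p % 4 = 3 → Nat.Coprime 16 p := by
    intro p hp hp3
    have : Nat.Coprime 2 p := by
      rw [Nat.coprime_primes Nat.prime_two hp]
      rintro rfl
      omega
    have h2 := Nat.Coprime.pow_left 4 this
    norm_num at h2
    exact h2
  obtain ⟨N₀, B', hB', hN₀, hcard, hkill⟩ := greedy l₁ hl₁mem hnd 16 15 (range L)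
    (fun x hx => hcop16 _ (hl₁mem x hx).1 (hl₁mem x hx).2.1)
  -- the targets
  set T : Finset ℕ := (B'.image (fun b => 2 + 2 ^ b)) ∪ {2, 5} with hT
  have hTcard : #T ≤ #B' + 2 := by
    calc #T ≤ #(B'.image (fun b => 2 + 2 ^ b)) + #({2, 5} : Finset ℕ) := card_union_le _ _
      _ ≤ #B' + 2 := Nat.add_le_add card_image_le card_le_two
  have hB'L : #B' ≤ L := by
    have := card_le_card hB'
    rwa [card_range] at this
  have hP3 : 2 * L + 2 ≤ #(P3 ((2 * L + 2) ^ 2)) := by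
    have h1 : 2 ^ 40 ≤ (2 * L + 2) ^ 2 := by
      calc 2 ^ 40 = (2 ^ 20) ^ 2 := by norm_num
        _ ≤ (2 * L + 2) ^ 2 := Nat.pow_le_pow_left (by omega) 2
    have h2 := sqrt_le_card_P3 h1
    have h3 : Real.sqrt (((2 * L + 2) ^ 2 : ℕ) : ℝ) = 2 * L + 2 := by
      push_cast
      rw [Real.sqrt_sq (by positivity)]
    rw [h3] at h2
    exact_mod_cast h2
  have hPc : #T ≤ #(P3 ((2 * L + 2) ^ 2) \ E.image qf) := by
    have h1 := le_card_sdiff (E.image qf) (P3 ((2 * L + 2) ^ 2))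
    have h2 : #(E.image qf) ≤ #E := card_image_le
    omega
  obtain ⟨P, hPsub, hPcard⟩ := exists_subset_card_eq hPc
  have hPmem : ∀ p ∈ P, p.Prime ∧ p % 4 = 3 ∧ p ≤ (2 * L + 2) ^ 2 ∧ ∀ e ∈ E, p ≠ qf e := by
    intro p hp
    have h1 := hPsub hp
    rw [mem_sdiff] at h1
    unfold P3 at h1
    rw [mem_filter, mem_Ioc, mem_image] at h1
    refine ⟨h1.1.2.1, h1.1.2.2, h1.1.1.2, ?_⟩
    intro e he h
    exact h1.2 ⟨e, he, h.symm⟩
  set l₂ : List (ℕ × ℕ) := T.toList.zip P.toList with hl₂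
  have hlen : T.toList.length = P.toList.length := by
    rw [length_toList, length_toList, hPcard]
  have hfst₂ : l₂.map Prod.fst = T.toList := by
    rw [hl₂]; exact List.map_fst_zip hlen.le
  have hsnd₂ : l₂.map Prod.snd = P.toList := by
    rw [hl₂]; exact List.map_snd_zip hlen.ge
  have hl₂mem : ∀ x ∈ l₂, x.2 ∈ P := by
    intro x hx
    have : x.2 ∈ l₂.map Prod.snd := List.mem_map_of_mem hx
    rw [hsnd₂, mem_toList] at this
    exact this
  set M₁ := 16 * (l₁.map (fun x => x.2 ^ 2)).prod with hM₁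
  obtain ⟨N₁, hN₁, hkill₂⟩ := assign l₂ (fun x hx => ⟨(hPmem _ (hl₂mem x hx)).1,
      (hPmem _ (hl₂mem x hx)).2.1⟩) (by rw [hsnd₂]; exact nodup_toList P) M₁ N₀ (by
    intro x hx
    have hx2 := hPmem _ (hl₂mem x hx)
    rw [hM₁]
    apply Nat.Coprime.mul_left (hcop16 _ hx2.1 hx2.2.1)
    apply Nat.coprime_list_prod_left_iff.mpr
    intro n hn
    rw [List.mem_map] at hn
    obtain ⟨y, hy, rfl⟩ := hn
    apply Nat.Coprime.pow_left
    rw [Nat.coprime_primes (hl₁mem y hy).1 hx2.1]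
    rw [hl₁, List.mem_map] at hy
    obtain ⟨e, he, rfl⟩ := hy
    rw [mem_toList] at he
    exact (hx2.2.2.2 e he).symm)
  refine ⟨M₁ * (l₂.map (fun x => x.2 ^ 2)).prod, N₁, #B', ?_, ?_, ?_, ?_⟩
  · apply Nat.mul_pos
    · apply Nat.mul_pos (by norm_num)
      apply List.prod_pos
      intro a ha
      rw [List.mem_map] at ha
      obtain ⟨x, hx, rfl⟩ := ha
      exact pow_pos (hl₁mem x hx).1.pos 2
    · apply List.prod_pos
      intro a ha
      rw [List.mem_map] at ha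
      obtain ⟨x, hx, rfl⟩ := ha
      exact pow_pos (hPmem _ (hl₂mem x hx)).1.pos 2
  · -- the number of remaining exponents
    have h1 : (l₁.map (fun x => x.1 + 1)).prod = ∏ e ∈ E, (e + 1) := by
      rw [hl₁, List.map_map, ← prod_map_toList]
      rfl
    have h2 : (l₁.map Prod.fst).prod = ∏ e ∈ E, e := by
      rw [hfst, ← prod_map_toList, List.map_id']
    rw [h1, h2, card_range] at hcard
    have h3 : (#B' : ℝ) * ∏ e ∈ E, ((e : ℝ) + 1) ≤ L * ∏ e ∈ E, (e : ℝ) := by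
      have : ((#B' * ∏ e ∈ E, (e + 1) : ℕ) : ℝ) ≤ ((L * ∏ e ∈ E, e : ℕ) : ℝ) := by
        exact_mod_cast hcard
      push_cast at this
      exact this
    have h4 := prod_div_le E
    have h5 : (#B' : ℝ) * ∏ e ∈ E, ((e : ℝ) + 1) ≤
        (L * Real.exp (-∑ e ∈ E, (1 : ℝ) / (e + 1))) * ∏ e ∈ E, ((e : ℝ) + 1) := by
      calc (#B' : ℝ) * ∏ e ∈ E, ((e : ℝ) + 1) ≤ L * ∏ e ∈ E, (e : ℝ) := h3
        _ ≤ L * ((∏ e ∈ E, ((e : ℝ) + 1)) * Real.exp (-∑ e ∈ E, (1 : ℝ) / (e + 1))) :=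
            mul_le_mul_of_nonneg_left h4 (Nat.cast_nonneg _)
        _ = _ := by ring
    have h6 : (0 : ℝ) < ∏ e ∈ E, ((e : ℝ) + 1) := prod_pos (fun e _ => by positivity)
    have h7 := le_of_mul_le_mul_right h5 h6
    refine h7.trans (mul_le_mul_of_nonneg_left ?_ (Nat.cast_nonneg _))
    apply Real.exp_le_exp.mpr
    have := hsum J hJ
    linarith
  · -- size of the modulus
    rw [hM₁]
    have h1 : (l₁.map (fun x => x.2 ^ 2)).prod ≤ 4 ^ (2 ^ J * 2 ^ J) := by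
      have h2 : (l₁.map (fun x => x.2 ^ 2)).prod = ∏ e ∈ E, (qf e) ^ 2 := by
        rw [hl₁, List.map_map, ← prod_map_toList]
        rfl
      rw [h2]
      calc ∏ e ∈ E, (qf e) ^ 2 ≤ ∏ e ∈ E, 4 ^ (2 ^ J) := by
            apply prod_le_prod (fun i _ => Nat.zero_le _)
            intro e he
            have h3 := qf_spec (hE2 e he)
            have h4 : qf e ≠ 2 := by
              intro h; rw [h] at h3; omega
            have h5 := lt_two_pow_orderOf h3.1 h4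
            rw [h3.2.2] at h5
            have h6 : 2 ^ e ≤ 2 ^ (2 ^ J) := Nat.pow_le_pow_right (by norm_num) (hE1 e he)
            calc (qf e) ^ 2 ≤ (2 ^ (2 ^ J)) ^ 2 := Nat.pow_le_pow_left (by omega) 2
              _ = 4 ^ (2 ^ J) := by
                  rw [← pow_mul, mul_comm, pow_mul]; norm_num
        _ = (4 ^ (2 ^ J)) ^ #E := by rw [prod_const]
        _ ≤ (4 ^ (2 ^ J)) ^ (2 ^ J) := Nat.pow_le_pow_right (by positivity) hEcard
        _ = 4 ^ (2 ^ J * 2 ^ J) := by rw [← pow_mul]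
    have h2 : (l₂.map (fun x => x.2 ^ 2)).prod ≤ ((2 * L + 2) ^ 2) ^ (2 * (#B' + 2)) := by
      have h3 : (l₂.map (fun x => x.2 ^ 2)).prod = ∏ p ∈ P, p ^ 2 := by
        have : (l₂.map (fun x => x.2 ^ 2)) = (l₂.map Prod.snd).map (fun p => p ^ 2) := by
          rw [List.map_map]; rfl
        rw [this, hsnd₂, prod_map_toList]
      rw [h3]
      calc ∏ p ∈ P, p ^ 2 ≤ ∏ p ∈ P, ((2 * L + 2) ^ 2) ^ 2 := by
            apply prod_le_prod (fun i _ => Nat.zero_le _)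
            intro p hp
            exact Nat.pow_le_pow_left (hPmem p hp).2.2.1 2
        _ = (((2 * L + 2) ^ 2) ^ 2) ^ #P := by rw [prod_const]
        _ ≤ (((2 * L + 2) ^ 2) ^ 2) ^ (#B' + 2) := by
            apply Nat.pow_le_pow_right (by positivity)
            omega
        _ = _ := by rw [← pow_mul]
    exact Nat.mul_le_mul (Nat.mul_le_mul_left _ h1) h2
  · intro N hN hNL
    have hkT : ∀ h ∈ T, Killed N h := by
      intro h hh
      have h1 : h ∈ l₂.map Prod.fst := by rw [hfst₂, mem_toList]; exact hh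
      rw [List.mem_map] at h1
      obtain ⟨x, hx, rfl⟩ := h1
      exact hkill₂ x hx N hN
    have hN1 : N ≡ N₁ [MOD M₁] := hN.of_mul_right _
    have hN0 : N ≡ N₀ [MOD M₁] := hN1.trans hN₁
    have hN16 : N ≡ 15 [MOD 16] := (hN0.of_mul_right _).trans hN₀
    apply not_representable (by unfold Nat.ModEq at hN16; omega)
    · exact hkT 2 (by rw [hT]; simp)
    · exact hkT 5 (by rw [hT]; simp)
    · intro b hb
      have hbL : b < L := by
        by_contra hcon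
        push Not at hcon
        have : 2 ^ L ≤ 2 ^ b := Nat.pow_le_pow_right (by norm_num) hcon
        omega
      by_cases hbB : b ∈ B'
      · apply hkT
        rw [hT, mem_union]
        left
        exact mem_image_of_mem _ hbB
      · exact hkill b (mem_range.mpr hbL) hbB N hN0

end Pool.Agent.TwoSqPow
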