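import Mathlib
import Pool.Agent.TwoSqPow.Assemble

set_option autoImplicit false

/-!
The number of `N ≤ X` that are not `2`-representable is at least `X exp(-(log X)^(9/10))`.
-/

namespace Pool.Agent.TwoSqPow

open Finset Filter

open Classical in
lemma count_class (M N₁ X : ℕ) (hM : 0 < M) :
    X / M ≤ #{N ∈ Icc 1 X | N ≡ N₁ [MOD M]} := by
  set r := if N₁ % M = 0 then M else N₁ % M with hr
  have hr1 : 1 ≤ r := by rw [hr]; split_ifs <;> omega
  have hr2 : r ≤ M := by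
    rw [hr]; split_ifs
    · exact le_refl _
    · exact (Nat.mod_lt _ hM).le
  have hr3 : r ≡ N₁ [MOD M] := by
    rw [hr]; unfold Nat.ModEq
    split_ifs with h
    · rw [Nat.mod_self, h]
    · rw [Nat.mod_mod]
  have hsub : (range (X / M)).image (fun k => k * M + r) ⊆ {N ∈ Icc 1 X | N ≡ N₁ [MOD M]} := by
    intro N hN
    rw [mem_image] at hN
    obtain ⟨k, hk, rfl⟩ := hN
    rw [mem_range] at hk
    rw [mem_filter, mem_Icc]
    refine ⟨⟨by omega, ?_⟩, ?_⟩
    · have h1 : (k + 1) * M ≤ X / M * M := Nat.mul_le_mul_right _ hk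
      have h2 : X / M * M ≤ X := Nat.div_mul_le_self X M
      have h3 : (k + 1) * M = k * M + M := by ring
      omega
    · calc k * M + r ≡ 0 + r [MOD M] := by
            apply Nat.ModEq.add_right
            exact (Nat.modEq_zero_iff_dvd).mpr (dvd_mul_left M k)
        _ ≡ N₁ [MOD M] := by rw [zero_add]; exact hr3
  have h := card_le_card hsub
  rw [card_image_of_injective, card_range] at h
  · exact h
  · intro a b hab
    simp only [add_left_inj] at hab
    exact Nat.eq_of_mul_eq_mul_right hM hab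

open Classical in
theorem lower_bound : ∀ᶠ X : ℕ in atTop, (X : ℝ) * Real.exp (-(Real.log X) ^ (9 / 10 : ℝ)) ≤
    #{N ∈ Icc 1 X | ¬ Representable 2 N} := by
  obtain ⟨j₀, hmain⟩ := exists_modulus
  set C : ℝ := Real.exp (0.22 * (j₀ + 1)) with hC
  have hC0 : 0 < C := Real.exp_pos _
  set C' : ℝ := 5 + 4 * (C + 2) * 200 with hC'
  have hC'0 : 0 < C' := by positivity
  -- eventual inequality in L
  have hev : ∀ᶠ x : ℝ in atTop, 2 * (C' + 1) ≤ x ^ (0.016 : ℝ) :=
    (tendsto_rpow_atTop (by norm_num)).eventually_ge_atTop _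
  rw [eventually_atTop] at hev
  obtain ⟨x₀, hx₀⟩ := hev
  rw [eventually_atTop]
  set L₀ : ℕ := max (2 ^ 20) (max ⌈x₀⌉₊ (2 ^ (5 * j₀ + 5))) with hL₀
  refine ⟨2 ^ L₀, fun X hX => ?_⟩
  have hX0 : X ≠ 0 := by
    have : 0 < 2 ^ L₀ := by positivity
    omega
  set L := Nat.log 2 X + 1 with hL
  have hLL₀ : L₀ ≤ L := by
    have := Nat.le_log_of_pow_le (b := 2) (by norm_num) hX
    omega
  have hL20 : 2 ^ 20 ≤ L := (le_max_left _ _).trans hLL₀
  have hLx : x₀ ≤ L := by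
    have h1 : ⌈x₀⌉₊ ≤ L := ((le_max_left _ _).trans (le_max_right _ _)).trans hLL₀
    exact (Nat.le_ceil x₀).trans (by exact_mod_cast h1)
  have hLj : 2 ^ (5 * j₀ + 5) ≤ L := ((le_max_right _ _).trans (le_max_right _ _)).trans hLL₀
  have hXL : X < 2 ^ L := Nat.lt_pow_succ_log_self (by norm_num) X
  have hXL' : 2 ^ (L - 1) ≤ X := by
    rw [hL, Nat.add_sub_cancel]
    exact Nat.pow_log_le_self 2 hX0
  have hLpos : 0 < L := by omega
  -- choice of J
  set J := Nat.log 2 (L ^ 2) / 5 with hJ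
  have hL2 : L ^ 2 ≠ 0 := by positivity
  have hJ1 : (2 ^ J) ^ 5 ≤ L ^ 2 := by
    rw [← pow_mul]
    calc 2 ^ (J * 5) ≤ 2 ^ (Nat.log 2 (L ^ 2)) :=
          Nat.pow_le_pow_right (by norm_num) (Nat.div_mul_le_self _ _)
      _ ≤ L ^ 2 := Nat.pow_log_le_self 2 hL2
  have hJ2 : L ^ 2 < 2 ^ (5 * J + 5) := by
    have h1 : L ^ 2 < 2 ^ (Nat.log 2 (L ^ 2) + 1) := Nat.lt_pow_succ_log_self (by norm_num) _
    have h2 : Nat.log 2 (L ^ 2) + 1 ≤ 5 * J + 5 := by omega
    exact h1.trans_le (Nat.pow_le_pow_right (by norm_num) h2)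
  have hJj : j₀ ≤ J := by
    have h1 : 2 ^ (5 * j₀ + 5) < 2 ^ (5 * J + 5) := by
      have : L ≤ L ^ 2 := Nat.le_self_pow (by norm_num) L
      omega
    have := (Nat.pow_lt_pow_iff_right (a := 2) (by norm_num)).mp h1
    omega
  have hJL : 2 ^ J ≤ L := by
    by_contra hcon
    push Not at hcon
    have h1 : L ^ 5 < (2 ^ J) ^ 5 := Nat.pow_lt_pow_left hcon (by norm_num)
    have h2 : L ^ 2 ≤ L ^ 5 := Nat.pow_le_pow_right hLpos (by norm_num)
    omega
  obtain ⟨M, N₁, t, hM0, ht, hMle, hrep⟩ := hmain L J hJj hJL hL20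
  -- real quantities
  set x : ℝ := (L : ℝ) with hx
  have hx20 : (2 : ℝ) ^ 20 ≤ x := by rw [hx]; exact_mod_cast hL20
  have hx1 : 1 ≤ x := le_trans (by norm_num) hx20
  have hx0 : 0 < x := by linarith
  have hlogx : 0 ≤ Real.log x := Real.log_nonneg hx1
  have hl2 := Real.log_two_gt_d9
  have hl2' := Real.log_two_lt_d9
  -- (2^J)^2 ≤ x^(4/5)
  have hE : ((2 : ℝ) ^ J * 2 ^ J) ≤ x ^ (0.8 : ℝ) := by
    have h1 : (((2 : ℝ) ^ J) ^ 5) ≤ x ^ 2 := by rw [hx]; exact_mod_cast hJ1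
    have h2 : (0 : ℝ) ≤ (2 : ℝ) ^ J := by positivity
    have h3 : (2 : ℝ) ^ J ≤ x ^ (0.4 : ℝ) := by
      have h4 : ((2 : ℝ) ^ J) = (((2 : ℝ) ^ J) ^ 5) ^ (1 / 5 : ℝ) := by
        rw [← Real.rpow_natCast ((2 : ℝ) ^ J) 5, ← Real.rpow_mul h2]
        norm_num
      rw [h4]
      calc (((2 : ℝ) ^ J) ^ 5) ^ (1 / 5 : ℝ) ≤ (x ^ 2) ^ (1 / 5 : ℝ) :=
            Real.rpow_le_rpow (by positivity) h1 (by norm_num)
        _ = x ^ (0.4 : ℝ) := by
            rw [← Real.rpow_natCast x 2, ← Real.rpow_mul hx0.le]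
            norm_num
    calc (2 : ℝ) ^ J * 2 ^ J ≤ x ^ (0.4 : ℝ) * x ^ (0.4 : ℝ) :=
          mul_le_mul h3 h3 h2 (by positivity)
      _ = x ^ (0.8 : ℝ) := by rw [← Real.rpow_add hx0]; norm_num
  -- t ≤ C x^0.874
  have ht' : (t : ℝ) ≤ C * x ^ (0.874 : ℝ) := by
    have h1 : 2 * Real.log x ≤ (5 * J + 5) * Real.log 2 := by
      have h2 : (x ^ 2) ≤ (2 : ℝ) ^ (5 * J + 5) := by rw [hx]; exact_mod_cast hJ2.le
      have h3 := Real.log_le_log (by positivity) h2
      rw [Real.log_pow, Real.log_pow] at h3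
      push_cast at h3
      exact h3
    have h4 : -(0.22 * ((J : ℝ) - j₀)) ≤ 0.22 * (j₀ + 1) - 0.126 * Real.log x := by
      -- J ≥ 2 log x / (5 log 2) - 1
      have h5 : 0.44 * Real.log x ≤ 1.1 * (J + 1) * Real.log 2 := by linarith
      have h6 : 1.1 * ((J : ℝ) + 1) * Real.log 2 ≤ 1.1 * (J + 1) * 0.6931471808 :=
        mul_le_mul_of_nonneg_left hl2'.le (by positivity)
      linarith
    calc (t : ℝ) ≤ x * Real.exp (-(0.22 * ((J : ℝ) - j₀))) := ht
      _ ≤ x * Real.exp (0.22 * (j₀ + 1) - 0.126 * Real.log x) :=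
          mul_le_mul_of_nonneg_left (Real.exp_le_exp.mpr h4) hx0.le
      _ = C * (x * Real.exp (-(0.126 * Real.log x))) := by
          rw [sub_eq_add_neg, Real.exp_add, hC]; ring
      _ = C * x ^ (0.874 : ℝ) := by
          congr 1
          have h7 : x ^ (0.874 : ℝ) = x ^ (1 : ℝ) * x ^ (-0.126 : ℝ) := by
            rw [← Real.rpow_add hx0]; norm_num
          rw [h7, Real.rpow_one, Real.rpow_def_of_pos hx0 (-0.126)]
          congr 2
          ring
  -- log (2x+2) ≤ 200 x^0.01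
  have hlog : Real.log (2 * x + 2) ≤ 200 * x ^ (0.01 : ℝ) := by
    have h1 : 2 * x + 2 ≤ 4 * x := by linarith
    have h2 : Real.log (2 * x + 2) ≤ Real.log (4 * x) := Real.log_le_log (by positivity) h1
    have h3 := Real.log_le_rpow_div (show (0 : ℝ) ≤ 4 * x by positivity) (show (0 : ℝ) < 0.01 by norm_num)
    have h4 : (4 * x) ^ (0.01 : ℝ) ≤ 2 * x ^ (0.01 : ℝ) := by
      rw [Real.mul_rpow (by norm_num) hx0.le]
      apply mul_le_mul_of_nonneg_right _ (by positivity)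
      calc (4 : ℝ) ^ (0.01 : ℝ) ≤ 4 ^ (0.5 : ℝ) :=
            Real.rpow_le_rpow_of_exponent_le (by norm_num) (by norm_num)
        _ = 2 := by
            rw [show (4 : ℝ) = 2 ^ (2 : ℝ) by norm_num, ← Real.rpow_mul (by norm_num)]
            norm_num
    have h5 : (4 * x) ^ (0.01 : ℝ) / 0.01 ≤ 200 * x ^ (0.01 : ℝ) := by
      rw [div_le_iff₀ (by norm_num)]
      linarith
    linarith
  have hlog0 : 0 ≤ Real.log (2 * x + 2) := Real.log_nonneg (by linarith)
  -- log of the modulus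
  have hMpos : (0 : ℝ) < M := by exact_mod_cast hM0
  have hlogM : Real.log M ≤ C' * x ^ (0.884 : ℝ) := by
    have h1 : (M : ℝ) ≤ 16 * 4 ^ (2 ^ J * 2 ^ J) * ((2 * x + 2) ^ 2) ^ (2 * (t + 2)) := by
      rw [hx]; exact_mod_cast hMle
    have h2 := Real.log_le_log hMpos h1
    rw [Real.log_mul (by positivity) (by positivity), Real.log_mul (by norm_num) (by positivity),
      Real.log_pow, Real.log_pow, Real.log_pow] at h2
    push_cast at h2
    have h3 : Real.log 16 ≤ 3 := by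
      rw [show (16 : ℝ) = 2 ^ 4 by norm_num, Real.log_pow]
      push_cast
      linarith
    have h4 : Real.log 4 ≤ 2 := by
      rw [show (4 : ℝ) = 2 ^ 2 by norm_num, Real.log_pow]
      push_cast
      linarith
    have h5 : (2 : ℝ) ^ J * 2 ^ J * Real.log 4 ≤ x ^ (0.8 : ℝ) * 2 := by
      apply mul_le_mul hE h4 (Real.log_nonneg (by norm_num)) (by positivity)
    have h6 : 2 * ((t : ℝ) + 2) * (2 * Real.log (2 * x + 2)) ≤
        2 * (C * x ^ (0.874 : ℝ) + 2) * (2 * (200 * x ^ (0.01 : ℝ))) := by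
      apply mul_le_mul _ _ (by positivity) (by positivity)
      · linarith
      · linarith
    have e1 : x ^ (0.8 : ℝ) ≤ x ^ (0.884 : ℝ) := Real.rpow_le_rpow_of_exponent_le hx1 (by norm_num)
    have e2 : x ^ (0.874 : ℝ) * x ^ (0.01 : ℝ) = x ^ (0.884 : ℝ) := by
      rw [← Real.rpow_add hx0]; norm_num
    have e3 : x ^ (0.01 : ℝ) ≤ x ^ (0.884 : ℝ) := Real.rpow_le_rpow_of_exponent_le hx1 (by norm_num)
    have e4 : 1 ≤ x ^ (0.884 : ℝ) := Real.one_le_rpow hx1 (by norm_num)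
    have h7 : 2 * (C * x ^ (0.874 : ℝ) + 2) * (2 * (200 * x ^ (0.01 : ℝ))) ≤
        4 * (C + 2) * 200 * x ^ (0.884 : ℝ) := by
      have : 2 * (C * x ^ (0.874 : ℝ) + 2) * (2 * (200 * x ^ (0.01 : ℝ))) =
          800 * C * (x ^ (0.874 : ℝ) * x ^ (0.01 : ℝ)) + 1600 * x ^ (0.01 : ℝ) := by ring
      rw [this, e2]
      linarith only [e3]
    rw [hC']
    linarith only [h2, h3, h5, h6, h7, e1, e4]
  -- log X
  have hXpos : (0 : ℝ) < X := by exact_mod_cast Nat.pos_of_ne_zero hX0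
  have hlogX : x / 2 ≤ Real.log X := by
    have h1 : ((2 : ℝ)) ^ (L - 1) ≤ X := by exact_mod_cast hXL'
    have h2 := Real.log_le_log (by positivity) h1
    rw [Real.log_pow, Nat.cast_sub (by omega)] at h2
    push_cast at h2
    have h3 : (x - 1) * 0.6931471803 ≤ (x - 1) * Real.log 2 :=
      mul_le_mul_of_nonneg_left hl2.le (by linarith)
    have h4 : (1048576 : ℝ) ≤ x := by
      calc (1048576 : ℝ) = 2 ^ 20 := by norm_num
        _ ≤ x := hx20
    linarith
  have hpow : C' * x ^ (0.884 : ℝ) + 1 ≤ (Real.log X) ^ (9 / 10 : ℝ) := by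
    have h1 : (x / 2) ^ (9 / 10 : ℝ) ≤ (Real.log X) ^ (9 / 10 : ℝ) :=
      Real.rpow_le_rpow (by positivity) hlogX (by norm_num)
    have h2 : x ^ (9 / 10 : ℝ) / 2 ≤ (x / 2) ^ (9 / 10 : ℝ) := by
      rw [Real.div_rpow hx0.le (by norm_num)]
      apply div_le_div_of_nonneg_left (by positivity) (by positivity)
      calc (2 : ℝ) ^ (9 / 10 : ℝ) ≤ 2 ^ (1 : ℝ) :=
            Real.rpow_le_rpow_of_exponent_le (by norm_num) (by norm_num)
        _ = 2 := Real.rpow_one 2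
    have h3 : x ^ (9 / 10 : ℝ) = x ^ (0.884 : ℝ) * x ^ (0.016 : ℝ) := by
      rw [← Real.rpow_add hx0]; norm_num
    have h4 := hx₀ x hLx
    have e4 : 1 ≤ x ^ (0.884 : ℝ) := Real.one_le_rpow hx1 (by norm_num)
    have h5 : x ^ (0.884 : ℝ) * (2 * (C' + 1)) ≤ x ^ (0.884 : ℝ) * x ^ (0.016 : ℝ) :=
      mul_le_mul_of_nonneg_left h4 (by positivity)
    linarith only [h1, h2, h3, h5, e4]
  have hlogX1 : 1 ≤ Real.log X := by
    have h4 : (1048576 : ℝ) ≤ x := by
      calc (1048576 : ℝ) = 2 ^ 20 := by norm_num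
        _ ≤ x := hx20
    linarith
  have hpow' : (Real.log X) ^ (9 / 10 : ℝ) ≤ Real.log X := by
    calc (Real.log X) ^ (9 / 10 : ℝ) ≤ (Real.log X) ^ (1 : ℝ) :=
          Real.rpow_le_rpow_of_exponent_le hlogX1 (by norm_num)
      _ = Real.log X := Real.rpow_one _
  have h2M : (2 : ℝ) * M ≤ Real.exp ((Real.log X) ^ (9 / 10 : ℝ)) := by
    rw [← Real.log_le_iff_le_exp (by positivity), Real.log_mul (by norm_num) hMpos.ne']
    linarith
  have h2MX : (2 : ℝ) * M ≤ X := by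
    calc (2 : ℝ) * M ≤ Real.exp ((Real.log X) ^ (9 / 10 : ℝ)) := h2M
      _ ≤ Real.exp (Real.log X) := Real.exp_le_exp.mpr hpow'
      _ = X := Real.exp_log hXpos
  -- counting
  have hcount : X / M ≤ #{N ∈ Icc 1 X | ¬ Representable 2 N} := by
    refine (count_class M N₁ X hM0).trans (card_le_card ?_)
    intro N hN
    rw [mem_filter] at hN ⊢
    refine ⟨hN.1, hrep N hN.2 ?_⟩
    have := (mem_Icc.mp hN.1).2
    omega
  have hdiv : (X : ℝ) / (2 * M) ≤ ((X / M : ℕ) : ℝ) := by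
    have h1 : (X : ℝ) < ((X / M : ℕ) + 1) * M := by
      have h2 : X < (X / M + 1) * M := by
        have := Nat.div_add_mod X M
        have h3 := Nat.mod_lt X hM0
        have h4 : (X / M + 1) * M = M * (X / M) + M := by ring
        rw [h4]
        omega
      exact_mod_cast h2
    have h2 : (1 : ℝ) ≤ ((X / M : ℕ) : ℝ) := by
      have h3 : 1 ≤ X / M := by
        rw [Nat.le_div_iff_mul_le hM0, one_mul]
        have : ((2 * M : ℕ) : ℝ) ≤ (X : ℝ) := by push_cast; exact h2MX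
        have h4 : 2 * M ≤ X := by exact_mod_cast this
        omega
      exact_mod_cast h3
    rw [div_le_iff₀ (by positivity)]
    have h3 := mul_le_mul_of_nonneg_right h2 hMpos.le
    linarith only [h1, h3]
  calc (X : ℝ) * Real.exp (-(Real.log X) ^ (9 / 10 : ℝ))
      = X / Real.exp ((Real.log X) ^ (9 / 10 : ℝ)) := by
        rw [Real.exp_neg]
        exact (div_eq_mul_inv _ _).symm
    _ ≤ X / (2 * M) := by
        apply div_le_div_of_nonneg_left hXpos.le (by positivity) h2M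
    _ ≤ ((X / M : ℕ) : ℝ) := hdiv
    _ ≤ _ := by exact_mod_cast hcount

end Pool.Agent.TwoSqPow
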